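import Pool.Agent.Work.MP_a8fbd7_nt.EX.CELL.Stmts

/-!
MP_a8fbd7_nt, block EX, second wave (EX2): cell theorems at the exponents `r2 = .1047`, `c2 = 17/75 = .22667` (now `c2 > 2 r2`).
`StXBi`, `StCBi`, `StCAi` of the first wave are generic in `r`, `c0` and are reused.
-/

set_option autoImplicit false

open MeasureTheory Set Filter Topology

noncomputable section

namespace Pool.Agent.Work.MP_a8fbd7_nt.EX.CELL

open Pool.Agent.Work.MP_a8fbd7_nt.OX
open Pool.Agent.Work.MP_a8fbd7_nt.EX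

/-- exponent of the cell theorems of the second wave -/
def r2 : ℝ := 1047 / 10000

/-- upper level of roughness of the second wave -/
def c2 : ℝ := 17 / 75

/-- ITEM Tr2 (three-block lemma at `(r2, c2)`, computer tree).  Cases: (1) `a, b ≥ 1 - r2` (so `c ≤ 2 r2 = .2094`): as case 1 of `Tri` (`I_Tr.lean`): `k ≥ 4`, all `k`; (2) one of them, (3) both smaller than `1 - r2`.
Numerical slack (uniform tolerance in all inequalities) `.0006`; worst points `(a, b, c) = (1, .8, .2)` and `(.984, .789, .2267)`, gains about `(.24, .24, .24)·length` and `(.250, .244, .271)·length`. -/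
def StTr2 : Prop := Tri r2 c2

/-- three-block lemma for class A: three blocks of total length `ν = a + b + c ≤ 2 - κ2`, `c ≤ c0`, `a, b ≤ ν - 1 - r` (so `c ≥ 2 + 2r - ν`), `W ≥ ∑ gains + 1 - ν/2`. -/
def TriA (r c0 : ℝ) : Prop := ∀ κ2 : ℝ, 0 < κ2 → κ2 ≤ 1 / 20 → ∃ e : ℝ, 0 < e ∧ e ≤ κ2 / 100 ∧ ∃ Q : ℕ,
  ∀ a b c gA gB h tau W s : ℝ, 0 < s → s ≤ e → 0 < a → 0 < b → 0 < c → 0 ≤ gA → 0 ≤ gB → 0 ≤ h → a + b + c ≤ 2 - κ2 →
    1 + r - e ≤ a + c → 1 + r - e ≤ b + c → c ≤ c0 + e →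
    gA + gB + h + 1 - (a + b + c) / 2 - s ≤ W → W ≤ tau + s → tau ≤ 1 + s →
    (∀ i j k : ℕ, 0 < i * a + j * b + k * c → i * a + j * b + k * c ≤ 2 →
      LVc (i * a + j * b + k * c) (i * gA + j * gB + k * h) tau s Q) →
    (∀ i j k : ℕ, i * a + j * b + k * c ≤ 2 → COx r (i * a + j * b + k * c) (i * gA + j * gB + k * h) tau W s) → False

/-- ITEM TrA (computer tree).  Here `c` is in `[.2094, .2267]`, `ν ≥ 1.98`, `a, b` in `[.868, .896]`.  Leaf `hx` alternative 1 for both `A` and `B`: `tau ≤ 2 gA + s`, `tau ≤ 2 gB + s`, `W ≤ tau + s`: `h + 1 - ν/2 ≤ 3s`, contradiction because `1 - ν/2 ≥ κ2/2`.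
Otherwise `tau ≤ 1 + 6 gA - 2a + s` (or the same with `B`), and everything has slack `.0018`, worst point `(8/9, 8/9, 2/9)`, gains `.268·length`: there `gm` for `A` (`t = 1`, `q = 9`) is needed as in case 1 of `Tri`. -/
def StTrA : Prop := TriA r2 c2

/-- ITEM XAi2 (logic of `StXA` for `c0 > 2r`; copy of `I_XAi.lean`).  Proof of `StXA` with `δ := min e ..` of `TriA r c0 κ2`: the last step there was `a + b p ≤ 1 + r - δ`.  Now: if `a + b p ≤ 1 + r - δ` then `(a + b p, b' - b p)` is good as before; otherwise `TriA` applies to the three parts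
`A = {g = 0} ∪ X`, `B` = the rest, `C = {p}` (`b' > 1 + r - δ`, `b p ≤ c0 + κ3`, `κ3 ≤ δ`). -/
def StXAi2 : Prop := ∀ r c0 : ℝ, 0 < r → r ≤ 1 / 4 → 0 < c0 → c0 ≤ 2 / 5 → TriA r c0 → StXA r c0

end Pool.Agent.Work.MP_a8fbd7_nt.EX.CELL
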