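import Mathlib
import Pool.Agent.Work.MP_a8fbd7_nt.EX.Defs

/-!
MP_a8fbd7_nt, block EX, part CELL: statements of the pieces of the cell theorems, each with its proof in the docstring.

Every item is `theorem iNAME (h1 : StA) ... : StNAME := ...` in the file `EX/CELL/I_NAME.lean`.
The whole part is the analogue of `OX/CELL` (helper63) for products of different blocks.
-/

set_option autoImplicit false

open MeasureTheory Set Filter Topology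

noncomputable section

namespace Pool.Agent.Work.MP_a8fbd7_nt.EX.CELL

open Pool.Agent.Work.MP_a8fbd7_nt.OX
open Pool.Agent.Work.MP_a8fbd7_nt.EX

/-- Jutila menu with parameter `k` (`LV.StJ`) for a polynomial of length `T^l`, gain `T^g`, windows of length `T^t` -/
def JTk (k : ℕ) (l g t : ℝ) : ℝ :=
  1 - t + max (2 * g) (max (k * t - 2 * k * l + 4 * k * g) (2 * t / 3 - 4 * k * l / 3 + 16 * k * g / 3))

/-- large value inequalities for a polynomial of length `T^l` which is `≥ T^(l-g)` on a class of measure `T^tau` (height `T`), tolerance `s` -/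
structure LVc (l g tau s : ℝ) (Q : ℕ) : Prop where
  mv : tau ≤ 2 * g + max 0 (1 - l) + s
  hx : tau ≤ max (2 * g) (1 + 6 * g - 2 * l) + s
  gm : ∀ (q : ℕ) (t : ℝ), 1 ≤ q → q ≤ Q → l ≤ t → t + s ≤ 2 * l → tau ≤ GMx q l g t + s
  jj : ∀ (k : ℕ) (t : ℝ), 2 ≤ k → k ≤ 6 → 0 ≤ t → t ≤ 1 → g + s ≤ l / 4 → tau ≤ JTk k l g t + s

/-- the collision alternative for a polynomial of length `T^l` and gain `T^g`; `W` is the total gain exponent -/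
def COx (r l g tau W s : ℝ) : Prop := 2 * W - 2 * g ≤ tau + s ∨ r ≤ tau + 2 * g - 2 * W + 1 - l + s

/-- the data of a class: blocks `T^(b i)`, gains `T^(w i)`, measure `T^tau`, total gain `W`, tolerance `s`; products `∏ f_i^(k i)` -/
structure ClsX {m : ℕ} (b w : Fin m → ℝ) (r tau W s : ℝ) (Q : ℕ) : Prop where
  w0 : ∀ i, 0 ≤ w i
  Wt : W ≤ tau + s
  t1 : tau ≤ 1 + s
  lv : ∀ k : Fin m → ℕ, 0 < ∑ i, (k i : ℝ) * b i → ∑ i, (k i : ℝ) * b i ≤ 2 →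
    LVc (∑ i, (k i : ℝ) * b i) (∑ i, (k i : ℝ) * w i) tau s Q
  co : ∀ k : Fin m → ℕ, ∑ i, (k i : ℝ) * b i ≤ 2 → COx r (∑ i, (k i : ℝ) * b i) (∑ i, (k i : ℝ) * w i) tau W s

/-- ITEM Lc (large values of products; hypotheses `OX.StPf`, `OX.StMv`, `OX.StHx`, `OX.StG`, `OX.StJ`; copy of `OX/CELL/LVh.lean`).  `m ≤ 3/η` blocks and `k i ≤ 2/η`, so there are finitely many pairs `(m, k)` and one threshold `C` suffices.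
For fixed `(m, k)`: `StPf` gives `DPc (∏ f_i^(k i)) (T^l) (2^(∑ k i)) (T^(s/64))`, `l = ∑ k_i b_i` (as in `pow_dpc`), and `lv_mv`, `lv_hx`, `lv_gm` of `LVh.lean` with `h = 1 + s/128`; `lv_jj` has to be restated for all `k` in `[2,6]` (same proof with `OX.StJ k`).
From `h ≤ 1 + s/128` to height `1`: as in `Cls.LVx_of_LVp`. -/
def StLc : Prop := ∀ (s η : ℝ) (Q : ℕ), 0 < s → s ≤ 1 → 0 < η → ∃ C : ℝ, 1 ≤ C ∧
  ∀ T, C ≤ T → ∀ (m : ℕ) (a : Fin m → ℕ → ℂ) (N b w : Fin m → ℝ) (T0 T' τ : ℝ) (R : Finset ℝ),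
    (∀ i, IsBlk (a i) (N i)) → (∀ i, N i = T ^ b i) → (∀ i, η ≤ b i) → ∑ i, b i ≤ 3 → 1 ≤ T' → T' ≤ T ^ (1 + s / 128) →
    Pool.Agent.Work.MP_56b8f5_nt.UC.Sep R → (∀ t ∈ R, T0 ≤ t ∧ t ≤ T0 + T') → (∀ t ∈ R, ∀ i, T ^ (b i - w i) ≤ ‖PB (a i) (N i) t‖) →
    T ^ τ ≤ R.card →
    ∀ k : Fin m → ℕ, 0 < ∑ i, (k i : ℝ) * b i → ∑ i, (k i : ℝ) * b i ≤ 2 → LVc (∑ i, (k i : ℝ) * b i) (∑ i, (k i : ℝ) * w i) τ s Q

/-- ITEM Kc (collisions for products; hypothesis `OX.StPf`; copy of `OX/CELL/CollE.lean`, `coll_E1`, `coll_E`, with `∏ ‖PB (a i) (N i) t‖ ^ k i` in place of `‖PB a N t‖ ^ j`).  `k = 0` is allowed (then it is the trivial alternative). -/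
def StKc : Prop := ∀ (s η : ℝ), 0 < s → s ≤ 1 → 0 < η → ∃ C : ℝ, 1 ≤ C ∧
  ∀ T, C ≤ T → ∀ (m : ℕ) (a : Fin m → ℕ → ℂ) (N b w : Fin m → ℝ) (T' : ℝ) (S : Finset ℝ) (c : ℝ → ℂ) (X τ : ℝ) (E : Set ℝ),
    1 ≤ T' → T' ≤ T ^ (1 + s / 16) → LSep S T → (S.card : ℝ) ≤ T ^ (1 / 3 : ℝ) → 1 ≤ S.card → (∀ x, ‖c x‖ ≤ 1) →
    (∀ i, IsBlk (a i) (N i)) → (∀ i, N i = T ^ b i) → (∀ i, η ≤ b i) → ∑ i, b i ≤ 3 → IsCompact E → E ⊆ Icc T' (2 * T') →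
    (∀ t ∈ E, ∀ i, T ^ (b i - w i) ≤ ‖PB (a i) (N i) t‖) → (volume E).toReal ≤ 2 * T ^ τ →
    S.card * T ^ X ≤ ∫ t in E, ‖GS S c t‖ → ∀ k : Fin m → ℕ, ∑ i, (k i : ℝ) * b i ≤ 2 →
    ∀ r : ℝ, T ^ r ≤ S.card → COx r (∑ i, (k i : ℝ) * b i) (∑ i, (k i : ℝ) * w i) τ X s

/-- ITEM Cx (the data of a class; uses StLc, StKc and `OX.CELL.pick`, `disc_vol`; copy of `OX.CELL.cls` in `OX/CELL/Cls.lean` with a general exponent `r`). -/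
def StCx : Prop := ∀ (s η : ℝ) (Q : ℕ), 0 < s → s ≤ 1 → 0 < η → ∃ C : ℝ, 1 ≤ C ∧
  ∀ T, C ≤ T → ∀ (T' θ r : ℝ) (m : ℕ) (a : Fin m → ℕ → ℂ) (N b : Fin m → ℝ) (S : Finset ℝ) (c : ℝ → ℂ) (E : Set ℝ),
    1 ≤ T' → T' ≤ T ^ (1 + s / 128) → (∀ i, IsBlk (a i) (N i)) → (∀ i, N i = T ^ b i) → (∀ i, η ≤ b i) → ∑ i, b i ≤ 3 →
    LSep S T → (S.card : ℝ) ≤ T ^ (1 / 3 : ℝ) → 1 ≤ S.card → T ^ r ≤ S.card → (∀ x, ‖c x‖ ≤ 1) →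
    0 ≤ θ → IsCompact E → E ⊆ Icc T' (2 * T') →
    S.card * T ^ θ ≤ ∫ t in E, ‖GS S c t‖ * ∏ i, ‖PB (a i) (N i) t‖ →
    ∃ (w : Fin m → ℝ) (τ W : ℝ), W = ∑ i, w i + θ - ∑ i, b i ∧ (∃ t ∈ E, ∀ i, T ^ (b i - w i) ≤ ‖PB (a i) (N i) t‖) ∧
      ClsX b w r τ W s Q

/-- ITEM Tri (THE THREE-BLOCK LEMMA at the exponents `r`, `c0`; pure real arithmetic).  Products `A`, `B`, `C` of lengths `a, b ≤ 1 + e`, `β/8 ≤ c ≤ c0 + e`, `a + b + c = 2 ± e`, gains `gA`, `gB`, `h`.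
PROOF for `(r, c0) = (rE, cE)`.  All inequalities below hold up to a multiple `O(e)` (`O(e/β)` in case 1); `s ≤ e`.  By symmetry `a ≥ b`, so `a ≥ 1 - c/2 - e > 1 - r`.
(1) `co` for `A` (`1 - a < r`, so both alternatives give `2W - 2gA ≤ tau`): `tau ≥ 2gB + 2h`;  `mv` for `BC` (length `2 - a`): `tau ≤ 2gB + 2h`.  So `tau = 2gB + 2h`.
(2) `mv` for `AC` (length `2 - b ≥ 1 - e`): `gB ≤ gA`.  `co` for `B`: `gA ≤ gB + eB/2`, `eB = max 0 (1 - r - b)`.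
(3) `mv` for `A`: `2h ≤ 2(gA - gB) + max 0 (1 - a)`.  `mv` for `B`: `2h ≤ max 0 (1 - b)`.  As `h ≥ c/60 ≥ β/480 > 0`: `hx` for `B`: `4gB ≥ 2h + 2b - 1`; `hx` for `A`: (I) `tau ≤ 2gA` or (II) `2gB + 2h ≤ 1 + 6gA - 2a`.
(4) Let `k` be the natural number with `k c < 1 ≤ (k+1) c` (`k ≥ 4`, `k ≤ 8/β`).  `mv` for `C^(k+1)`: `gB ≤ k h`.  `hx` for `C^k`: (i) `gB ≤ (k-1) h` or (ii) `2gB + 2h ≤ 1 + 6kh - 2kc`.
CASE 1: `b ≥ 1 - r`: `eB = 0`, `gA = gB =: g`.  (3): `a, b < 1`, `4h ≤ (1-a) + (1-b) = c`; (I) is impossible; (II) and `hx` for `B`: `8g ≥ 4h + 2(a+b) - 2`, `4g ≥ 2h + 1 - c`.  With `g ≤ kh`: `(4k-2) h ≥ 1 - c`, so `(2k+1) c ≥ 2` (`h ≤ c/4`).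
(i): `(4k-6) h ≥ 1 - c`, so `(2k-1) c ≥ 2`, but `kc < 1`: contradiction.  (ii): `6h + 1 - c ≤ 2 + 12kh - 4kc`: `(4k-1) c ≤ 1 + (12k-6) h ≤ 1 + (3k - 3/2) c`: `(2k+1) c ≤ 2`.  So `c = 2/(2k+1)`, and then `h = c/4`, `a = b = 1 - c/2 = 2k/(2k+1)`, `g = a/4`,
`tau = 1 - a/2`, all up to `O(e/β)`.  `gm` for `A` with `t = 1`, `q = 2k+1`: all eight terms of `GMx` at `(l, g) = (a, a/4)` are smaller than `1 - a/2` by at least `1/(10(k+1))`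
(`a/2`, `4/3 - a`, `1/2`, `1 - 2a/3`, `1 - 3a/5`, `3/2 - 5a/4`, `(1 + qa/2)/(q+1)`, `(1 - a/2) q/(q+1)`; `a ≥ 8/9`): contradiction if `e ≤ β²/10⁵` or so; `Q = ⌈20/β⌉` suffices.
CASE 2: `b < 1 - r`: then `c > r` (as `a ≤ 1`), so `k ≤ 8`; `2h ≤ (1-r-b) + (1-a) = c - r`; `b ≥ 1 - c`.  Here also `gm` and `jj` (`k = 2, .., 6`) for products are used: finite case tree with linear leaves,
generated by computer (helper68: infeasible with slack `.001`; worst point `(a, b, c) = (1, 1-c, c)`, `c = .238`).  [With `mv`, `hx`, `co` only it holds for `(r, c0) = (1249/10000, 463/2000)`: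
 (I): `2h ≤ 2(gA-gB) ≤ 1 - r - b`.  (I,i): `4(k-1)h ≥ 2h + 2b - 1 ≥ 2h + 1 - 2c`, `(2k-3)(c-r) ≥ 1 - 2c`.
 (I,ii): `2h + 2b - 1 + 4h ≤ 2 + 12kh - 4kc`, `b ≥ 1 - c`: `(4k-2) c ≤ 1 + (12k-6) h ≤ 1 + (6k-3)(c-r)`: `(6k-3) r ≤ 1 + (2k-1) c`.
 (II): `gA ≤ gB + (1-r-b)/2`: `4gB ≥ 2h + 2a + 3b + 3r - 4 = 2h + b - 2c + 3r ≥ 2h + 1 - 3c + 3r`.  (II,i): `(4k-6) h ≥ 1 - 3(c-r)`: `2k(c-r) ≥ 1`.  (II,ii): `2h + 1 - 3c + 3r + 4h ≤ 2 + 12kh - 4kc`: `6kr ≤ 1 + 2kc`.] -/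
def Tri (r c0 : ℝ) : Prop := ∀ β : ℝ, 0 < β → β ≤ 1 / 20 → ∃ e : ℝ, 0 < e ∧ e ≤ β / 4000 ∧ ∃ Q : ℕ,
  ∀ a b c gA gB h tau W s : ℝ, 0 < s → s ≤ e → 0 < a → 0 < b → a / 60 ≤ gA → b / 60 ≤ gB → c / 60 ≤ h → a ≤ 1 + e → b ≤ 1 + e →
    β / 8 ≤ c → c ≤ c0 + e → 2 - e ≤ a + b + c → a + b + c ≤ 2 + e → gA + gB + h - s ≤ W → W ≤ tau + s → tau ≤ 1 + s →
    (∀ i j k : ℕ, 0 < i * a + j * b + k * c → i * a + j * b + k * c ≤ 2 →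
      LVc (i * a + j * b + k * c) (i * gA + j * gB + k * h) tau s Q) →
    (∀ i j k : ℕ, i * a + j * b + k * c ≤ 2 → COx r (i * a + j * b + k * c) (i * gA + j * gB + k * h) tau W s) → False

/-- ITEM Tr: the three-block lemma at the exponents of the block, `Tri rE cE` (proof: docstring of `Tri`) -/
def StTr : Prop := Tri rE cE

open Classical in
/-- ITEM Pt (partition).  Among all partitions `(A, B, C)` of the index set with `C ⊆ {g = 2}`, `{g = 0} ⊆ A`, `{g = 1} ⊆ B`, `∑_A b ≤ 1 + 3κ`, `∑_B b ≤ 1 + 3κ`, `∑_C b ≥ β/8` (one exists: `C = {g = 2}`) take one with `#C` minimal.  If `#C ≥ 2` and `c := ∑_C b ≥ β/4`, let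
`p` be the smallest element of `C`: `b p ≤ c/2`, `c - b p ≥ β/8`; by minimality `p` can neither be moved to `A` nor to `B`: `∑_A b + b p > 1 + 3κ`, `∑_B b + b p > 1 + 3κ`; add: `∑ b - c + 2 b p > 2 + 6κ`, but `∑ b ≤ 2 + κ`: `c < 2 b p`: contradiction. -/
def StPt : Prop := ∀ (m : ℕ) (b : Fin m → ℝ) (g : Fin m → Fin 3) (β c0 κ : ℝ), 0 < β → 0 < κ → β / 4 ≤ c0 → (∀ i, 0 < b i) →
  ∑ i ∈ Finset.univ.filter (fun i => g i = 0), b i ≤ 1 + κ → ∑ i ∈ Finset.univ.filter (fun i => g i = 1), b i ≤ 1 + κ →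
  (∀ i, g i = 2 → b i ≤ c0 + κ) → β ≤ ∑ i ∈ Finset.univ.filter (fun i => g i = 2), b i → ∑ i, b i ≤ 2 + κ →
  ∃ q : Fin m → Fin 3, ∑ i ∈ Finset.univ.filter (fun i => q i = 0), b i ≤ 1 + 3 * κ ∧
    ∑ i ∈ Finset.univ.filter (fun i => q i = 1), b i ≤ 1 + 3 * κ ∧
    β / 8 ≤ ∑ i ∈ Finset.univ.filter (fun i => q i = 2), b i ∧ ∑ i ∈ Finset.univ.filter (fun i => q i = 2), b i ≤ c0 + κ

open Classical in
/-- ITEM XB (logic of StCellXB, far zone; uses `Tri r c0` and StPt).  `e`, `Q` of `Tri r c0 β`; `κ = e/4`, `s0 = min e 1`.  StPt gives `q`; `a, b, c` and `gA, gB, h` are the sums of `b i`, `w i` over `q i = 0, 1, 2`; exponent vectors `i, j, k` on the three parts.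
`a > 0`, `b > 0`: `a ≥ 2 - κ - (1 + 3κ) - (c0 + κ) > 0`. -/
def StXB (r c0 : ℝ) : Prop := ∀ β : ℝ, 0 < β → β ≤ 1 / 20 → ∃ κ : ℝ, 0 < κ ∧ κ ≤ β / 4000 ∧ ∃ s0 : ℝ, 0 < s0 ∧ ∃ Q : ℕ,
  ∀ (m : ℕ) (b w : Fin m → ℝ) (g : Fin m → Fin 3) (tau W s : ℝ), 0 < s → s ≤ s0 → (∀ i, 0 < b i) → 2 - κ ≤ ∑ i, b i → ∑ i, b i ≤ 2 + κ →
    ∑ i ∈ Finset.univ.filter (fun i => g i = 0), b i ≤ 1 + κ → ∑ i ∈ Finset.univ.filter (fun i => g i = 1), b i ≤ 1 + κ →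
    (∀ i, g i = 2 → b i ≤ c0 + κ) → β ≤ ∑ i ∈ Finset.univ.filter (fun i => g i = 2), b i →
    (∀ i, b i / 60 ≤ w i) → ∑ i, w i - s ≤ W → ClsX b w r tau W s Q → False

open Classical in
/-- ITEM XA (logic of StCellXA).  Put `ν = ∑ b ≤ 2 - κ2`, `W ≥ ∑ w + 1 - ν/2 - s`.  KEY: if the index set is divided into `A'`, `B'` of lengths `a'`, `b'` (`a' + b' = ν`), then `mv` for `A'` (if `a' > 0`), `co` for `B'` give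
`2W ≤ tau + 2g_B' + max 0 (1-r-b') + s ≤ 2∑w + max 0 (1-a') + max 0 (1-r-b') + 2s`, so `2 - ν ≤ max 0 (1-a') + max 0 (1-r-b') + 4s`  (if `a' = 0`: `tau ≤ 1 + s` instead of `mv`).  So a contradiction arises if `δ ≤ a' ≤ 1 + r - δ` and (`b' ≤ 1 - δ` or `a' ≥ 1`), where `δ = κ2/10`, `4s < δ`:
[both maxima positive: `2 - r - ν < 2 - ν`; `a' ≥ 1`: `1 - r - b' = 1 - r - ν + a' < 2 - ν`; `b' ≥ 1 - r`, `a' < 1`: `1 - a' = 1 - ν + b' < 2 - ν`].  Call such a pair good.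
`κ3 = κ2/100`.  Choose `X ⊆ {g = 2}` maximal with `a := ∑_{g=0} b + ∑_X b ≤ 1 + 3κ3`.  If `X = {g = 2}`: `(a, ν-a)` or `(ν-a, a)` is good (`ν - a ≤ 1 + 3κ3`; if neither then `a > 1 - δ` and `ν - a > 1 - δ`, sum `> 2 - κ2`).
Otherwise there is `p` with `g p = 2`, not in `X`, `a + b p > 1 + 3κ3`; `b' := ν - a`.  If `a ≥ 1` or `b' ≤ 1 - δ`: `(a, b')` is good.  So `a < 1`, `b' > 1 - δ`, hence `a ≤ 1 - δ` (else `ν > 2 - 2δ`).  If `b' ≤ 1 + r - δ`: `(b', a)` is good.  Otherwise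
`a < ν - 1 - r + δ ≤ 1 - κ2 - r + δ`, `a + b p ≤ 1 - κ2 - r + δ + c0 + κ3 ≤ 1 + r - δ` because `c0 < 2r` and `κ3 + 2δ < κ2`, `a + b p > 1`: `(a + b p, b' - b p)` is good. -/
def StXA (r c0 : ℝ) : Prop := ∀ κ2 : ℝ, 0 < κ2 → κ2 ≤ 1 / 20 → ∃ κ3 : ℝ, 0 < κ3 ∧ κ3 ≤ κ2 / 10 ∧ ∃ s0 : ℝ, 0 < s0 ∧ ∃ Q : ℕ,
  ∀ (m : ℕ) (b w : Fin m → ℝ) (g : Fin m → Fin 3) (tau W s : ℝ), 0 < s → s ≤ s0 → (∀ i, 0 < b i) → ∑ i, b i ≤ 2 - κ2 →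
    ∑ i ∈ Finset.univ.filter (fun i => g i = 0), b i ≤ 1 + 3 * κ3 → ∑ i ∈ Finset.univ.filter (fun i => g i = 1), b i ≤ 1 + 3 * κ3 →
    (∀ i, g i = 2 → b i ≤ c0 + κ3) →
    ∑ i, w i + 1 - (∑ i, b i) / 2 - s ≤ W → ClsX b w r tau W s Q → False

/-- ITEM XBi: StXB from the three-block lemma (proof: docstring of `StXB`; uses StPt) -/
def StXBi : Prop := ∀ r c0 : ℝ, 1 / 80 ≤ c0 → c0 ≤ 2 / 5 → Tri r c0 → StXB r c0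

/-- ITEM XAi (proof: docstring of `StXA`) -/
def StXAi : Prop := ∀ r c0 : ℝ, 0 < r → r ≤ 1 / 4 → 0 < c0 → c0 < 2 * r → StXA r c0

/-- ITEM CBi (StCellXB from StXB; uses StCx and the near zone `OX.CELL.StNB`; copy of `OX.CELL.iCellB` in `OX/CELL/I_CellB.lean`).  `{g = 2} ⊆ {N ≤ T^(41/100)}` because `c0 + κ ≤ 41/100`, and all `N i ≥ 1`, so
`T^β ≤ ∏_{N ≤ T^(41/100)} N`; the products over `{g = j}` are `T` to the sums of the exponents. -/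
def StCBi : Prop := ∀ r c0 : ℝ, 0 < r → r ≤ 1 / 4 → 0 < c0 → c0 ≤ 2 / 5 → StXB r c0 → StCellXB r c0

/-- ITEM CAi (StCellXA from StXA; uses StCx; copy of `OX.CELL.iCellA` in `OX/CELL/I_CellA.lean`) -/
def StCAi : Prop := ∀ r c0 : ℝ, 0 < r → r ≤ 1 / 4 → 0 < c0 → c0 ≤ 2 / 5 → StXA r c0 → StCellXA r c0

end Pool.Agent.Work.MP_a8fbd7_nt.EX.CELL
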