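import Mathlib
import Pool.Agent.Work.MP_a8fbd7_nt.EX.CELL.Stmts

/-!
MP_a8fbd7_nt, block EX, part CELL, item Tr: the three-block lemma at the exponents of the block.
Case 1 (`b ≥ 1 - r`): the algebra of the docstring of `Tri`.  Case 2 (`b < 1 - r`): a case tree (36 leaves, found by
linear programming; products `A`, `B`, `C^2`, `C^4`, `C^5`, `C^8`; only `mv`, `hx`, `co` and `jj` for `B`).
Author: helper85.
-/

set_option autoImplicit false

noncomputable section

namespace Pool.Agent.Work.MP_a8fbd7_nt.EX.CELL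

open Pool.Agent.Work.MP_a8fbd7_nt.OX
open Pool.Agent.Work.MP_a8fbd7_nt.EX

namespace Tr_aux

theorem mv_or {l g tau s : ℝ} {Q : ℕ} (H : LVc l g tau s Q) : tau ≤ 2 * g + s ∨ tau ≤ 2 * g + (1 - l) + s := by
  have h := H.mv
  rcases le_total 0 (1 - l) with h1 | h1
  · rw [max_eq_right h1] at h; exact Or.inr h
  · rw [max_eq_left h1] at h; left; linarith

theorem hx_or {l g tau s : ℝ} {Q : ℕ} (H : LVc l g tau s Q) : tau ≤ 2 * g + s ∨ tau ≤ 1 + 6 * g - 2 * l + s := by
  have h := H.hx
  rcases le_total (2 * g) (1 + 6 * g - 2 * l) with h1 | h1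
  · rw [max_eq_right h1] at h; exact Or.inr h
  · rw [max_eq_left h1] at h; exact Or.inl h

theorem jj_or {l g tau s : ℝ} {Q : ℕ} (H : LVc l g tau s Q) (k : ℕ) (hk : 2 ≤ k) (hk6 : k ≤ 6) (t : ℝ) :
    l / 4 ≤ g + s ∨ t ≤ 0 ∨ 1 ≤ t ∨ tau ≤ 1 - t + 2 * g + s ∨ tau ≤ 1 - t + (k * t - 2 * k * l + 4 * k * g) + s ∨
      tau ≤ 1 - t + (2 * t / 3 - 4 * k * l / 3 + 16 * k * g / 3) + s := by
  rcases le_total (l / 4) (g + s) with h0 | h0
  · exact Or.inl h0
  rcases le_total t 0 with h1 | h1
  · exact Or.inr (Or.inl h1)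
  rcases le_total 1 t with h2 | h2
  · exact Or.inr (Or.inr (Or.inl h2))
  have h := H.jj k t hk hk6 h1 h2 h0
  unfold JTk at h
  have h' : tau - s - (1 - t) ≤ max (2 * g) (max (k * t - 2 * k * l + 4 * k * g) (2 * t / 3 - 4 * k * l / 3 + 16 * k * g / 3)) := by
    linarith
  simp only [le_max_iff] at h'
  right; right; right
  rcases h' with h | h | h
  · left; linarith
  · right; left; linarith
  · right; right; linarith

theorem jj_one {l g tau s : ℝ} {Q : ℕ} (H : LVc l g tau s Q) (k : ℕ) (hk : 2 ≤ k) (hk6 : k ≤ 6) :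
    l / 4 ≤ g + s ∨ tau ≤ 2 * g + s ∨ tau ≤ (k - 2 * k * l + 4 * k * g) + s ∨ tau ≤ (2 / 3 - 4 * k * l / 3 + 16 * k * g / 3) + s := by
  rcases le_total (l / 4) (g + s) with h0 | h0
  · exact Or.inl h0
  have h := H.jj k 1 hk hk6 zero_le_one le_rfl h0
  unfold JTk at h
  have h' : tau - s ≤ max (2 * g) (max (k * 1 - 2 * k * l + 4 * k * g) (2 * 1 / 3 - 4 * k * l / 3 + 16 * k * g / 3)) := by
    linarith
  simp only [le_max_iff] at h'
  right
  rcases h' with h | h | h
  · left; linarith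
  · right; left; linarith
  · right; right; linarith

theorem gm_or {l g tau s : ℝ} {Q : ℕ} (H : LVc l g tau s Q) (q : ℕ) (hq : 1 ≤ q) (hqQ : q ≤ Q) (hl : l ≤ 1) (hl2 : 1 + s ≤ 2 * l) :
    tau ≤ 2 * g + s ∨ tau ≤ (4 / 3 - 2 * l + 4 * g) + s ∨ tau ≤ (1 / 2 - l + 4 * g) + s ∨ tau ≤ (1 - 2 * l + 16 * g / 3) + s ∨
      tau ≤ (1 - 2 * l + 28 * g / 5) + s ∨ tau ≤ (3 / 2 - 3 * l + 7 * g) + s ∨
      (q + 1) * (tau - s) ≤ 1 + q * (6 * g - l) ∨ (q + 1) * (tau - s) ≤ q * (1 - 2 * l + 6 * g) := by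
  have h := H.gm q 1 hq hqQ hl hl2
  unfold GMx at h
  rw [sub_self, max_self] at h
  have h' : tau - s ≤ max (2 * g) (max (4 * 1 / 3 - 2 * l + 4 * g) (max (1 / 2 - l + 4 * g)
    (max (1 - 2 * l + 16 * g / 3) (max (1 - 2 * l + 28 * g / 5) (max (3 * 1 / 2 - 3 * l + 7 * g)
      (max ((q : ℝ) / (q + 1) * (1 / q - l + 6 * g)) ((q : ℝ) / (q + 1) * (1 - 2 * l + 6 * g)))))))) := by
    linarith
  have hq0 : (0 : ℝ) < q := by exact_mod_cast hq
  simp only [le_max_iff] at h'
  rcases h' with h | h | h | h | h | h | h | h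
  · left; linarith
  · right; left; linarith
  · right; right; left; linarith
  · right; right; right; left; linarith
  · right; right; right; right; left; linarith
  · right; right; right; right; right; left; linarith
  · right; right; right; right; right; right; left
    have h1 : (q + 1) * (tau - s) ≤ (q + 1) * ((q : ℝ) / (q + 1) * (1 / q - l + 6 * g)) :=
      mul_le_mul_of_nonneg_left h (by linarith)
    have h2 : (q + 1) * ((q : ℝ) / (q + 1) * (1 / q - l + 6 * g)) = 1 + q * (6 * g - l) := by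
      field_simp
      ring
    linarith
  · right; right; right; right; right; right; right
    have h1 : (q + 1) * (tau - s) ≤ (q + 1) * ((q : ℝ) / (q + 1) * (1 - 2 * l + 6 * g)) :=
      mul_le_mul_of_nonneg_left h (by linarith)
    have h2 : (q + 1) * ((q : ℝ) / (q + 1) * (1 - 2 * l + 6 * g)) = q * (1 - 2 * l + 6 * g) := by
      field_simp
    linarith

theorem co_or {r l g tau W s V : ℝ} (H : COx r l g tau W s) (hV : V - s ≤ W) :
    2 * V - 2 * g ≤ tau + 3 * s ∨ r ≤ tau + 2 * g - 2 * V + 1 - l + 3 * s := by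
  rcases H with h | h
  · left; linarith
  · right; linarith

/-- case 2, the tree -/
theorem tree {a b c gA gB h tau s e : ℝ} {Q : ℕ} (hs : 0 < s) (hse : s ≤ e) (he : e ≤ 1 / 1000000)
    (hgA : a / 60 ≤ gA) (hgB : b / 60 ≤ gB) (hh : c / 60 ≤ h) (ha1 : a ≤ 1 + e) (hb1 : b ≤ 1 - 239 / 2000) (hc1 : c ≤ 119 / 500 + e)
    (hsum0 : 2 - e ≤ a + b + c) (ht1 : tau ≤ 1 + s) (hWt : gA + gB + h ≤ tau + 2 * s)
    (coA : 2 * gB + 2 * h ≤ tau + 3 * s) (mvBC : tau ≤ 2 * gB + 2 * h + 3 * e)
    (coB : 2 * gA + 2 * h + 239 / 2000 - 1 + b ≤ tau + 3 * s)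
    (LA : LVc a gA tau s Q) (LB : LVc b gB tau s Q) (L2 : LVc (2 * c) (2 * h) tau s Q) (L4 : LVc (4 * c) (4 * h) tau s Q)
    (L5 : LVc (5 * c) (5 * h) tau s Q)
    (C4 : 2 * (gA + gB + h) - 2 * (4 * h) ≤ tau + 3 * s ∨ 239 / 2000 ≤ tau + 2 * (4 * h) - 2 * (gA + gB + h) + 1 - 4 * c + 3 * s)
    (C8 : 2 * (gA + gB + h) - 2 * (8 * h) ≤ tau + 3 * s ∨ 239 / 2000 ≤ tau + 2 * (8 * h) - 2 * (gA + gB + h) + 1 - 8 * c + 3 * s) :
    False := by
  have MA := mv_or LA
  have XA := hx_or LA
  have XB := hx_or LB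
  have X2 := hx_or L2
  have X4 := hx_or L4
  have X5 := hx_or L5
  have J4 := jj_or LB 4 (by norm_num) (by norm_num) (2 * b - 7 / 2 * gB)
  have J2 := jj_one LB 2 (by norm_num) (by norm_num)
  norm_num at J4 J2
  clear LA LB L2 L4 L5
  rcases XB with XB | XB
  · linarith
  rcases X2 with X2 | X2
  · linarith
  rcases X4 with X4 | X4
  · rcases MA with MA | MA
    · rcases J4 with J | J | J | J | J | J
      · linarith
      · linarith
      · linarith
      · linarith
      · linarith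
      · linarith
    · rcases J4 with J | J | J | J | J | J
      · linarith
      · linarith
      · linarith
      · linarith
      · linarith
      · linarith
  rcases C8 with C8 | C8
  · rcases X5 with X5 | X5
    · rcases MA with MA | MA
      · rcases C4 with C4 | C4
        · rcases J4 with J | J | J | J | J | J
          · linarith
          · linarith
          · linarith
          · linarith
          · linarith
          · linarith
        · linarith
      · rcases C4 with C4 | C4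
        · rcases J2 with J' | J' | J' | J'
          · linarith
          · linarith
          · linarith
          · rcases J4 with J | J | J | J | J | J
            · linarith
            · linarith
            · linarith
            · linarith
            · linarith
            · rcases XA with XA | XA
              · linarith
              · linarith
        · linarith
    · rcases MA with MA | MA
      · linarith
      · linarith
  · rcases MA with MA | MA
    · linarith
    · linarith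

/-- case 1: `b ≥ 1 - r` -/
theorem case1 {β a b c gA gB h tau s e : ℝ} {Q k : ℕ} (hβ : 0 < β) (hβ1 : β ≤ 1 / 20) (he : e = β ^ 2 / 10 ^ 7) (hs : 0 < s)
    (hse : s ≤ e) (hh : c / 60 ≤ h) (hc0 : β / 8 ≤ c) (hc1 : c ≤ 119 / 500 + e)
    (hsum0 : 2 - e ≤ a + b + c)
    (coA : 2 * gB + 2 * h ≤ tau + 3 * s) (mvBC : tau ≤ 2 * gB + 2 * h + 3 * e) (mvAC : tau ≤ 2 * gA + 2 * h + 3 * e)
    (coB : 2 * gA + 2 * h ≤ tau + 3 * s) (hkc : k * c < 1) (hkc1 : 1 ≤ (k + 1) * c) (hkQ : 2 * k + 1 ≤ Q)
    (LA : LVc a gA tau s Q) (LB : LVc b gB tau s Q) (Lk : LVc (k * c) (k * h) tau s Q)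
    (Lk1 : LVc ((k + 1) * c) ((k + 1) * h) tau s Q) : False := by
  have e0 : 0 < e := by rw [he]; positivity
  have e1 : e ≤ β / 10 ^ 8 := by rw [he]; nlinarith
  have e2 : e ≤ 1 / 10 ^ 9 := by
    have : β / 10 ^ 8 ≤ (1 / 20) / 10 ^ 8 := by gcongr
    linarith
  set K : ℝ := (k : ℝ) with hK
  have K0 : 0 ≤ K := by positivity
  have K4 : 4 ≤ K := by
    have h1 : 3 < K := by nlinarith
    rw [hK] at h1
    have h2 : 3 < k := by exact_mod_cast h1
    have h3 : 4 ≤ k := h2
    rw [hK]; exact_mod_cast h3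
  have Kβ : K * β ≤ 8 := by nlinarith
  have KZ : K * e ≤ 8 * β / 10 ^ 7 := by rw [he]; nlinarith
  have KKZ : K * (K * e) ≤ 64 / 10 ^ 7 := by
    have h1 : K * (K * e) = (K * β) ^ 2 / 10 ^ 7 := by rw [he]; ring
    have h2 : (K * β) ^ 2 ≤ 8 ^ 2 := by
      apply pow_le_pow_left₀ (by positivity) Kβ
    rw [h1]; linarith
  have Z4 : 4 * e ≤ K * e := by nlinarith
  -- basic
  have g1 : gB ≤ gA + 3 * e := by linarith
  have g2 : gA ≤ gB + 3 * e := by linarith
  have MA : 2 * h ≤ 1 - a + 10 * e := by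
    rcases mv_or LA with H | H
    · linarith
    · linarith
  have MB : 2 * h ≤ 1 - b + 4 * e := by
    rcases mv_or LB with H | H
    · linarith
    · linarith
  have XA : tau ≤ 1 + 6 * gA - 2 * a + s := by
    rcases hx_or LA with H | H
    · linarith
    · exact H
  have XB : tau ≤ 1 + 6 * gB - 2 * b + s := by
    rcases hx_or LB with H | H
    · linarith
    · exact H
  have D0 : 0 ≤ c + 15 * e - 4 * h := by linarith
  have KD : 0 ≤ (K - 4) * (c + 15 * e - 4 * h) := mul_nonneg (by linarith) D0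
  have gl : 2 * h + 1 - c - 14 * e ≤ 4 * gB := by linarith
  have M1 : tau ≤ 2 * (K * h) + 2 * h + s := by
    rcases mv_or Lk1 with H | H
    · linarith
    · linarith
  have lo : 1 - 22 * e - 15 * (K * e) ≤ K * c + c / 2 := by linarith
  have X2 : tau ≤ 1 + 6 * (K * h) - 2 * (K * c) + s := by
    rcases hx_or Lk with H | H
    · exfalso; linarith
    · linarith
  have hi : K * c + c / 2 ≤ 1 + 22 * e + 46 * (K * e) := by linarith
  have hl : c - 80 * e ≤ 4 * h := by
    by_contra hcon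
    push Not at hcon
    have : 0 ≤ (K - 1 / 2) * (c - 80 * e - 4 * h) := mul_nonneg (by linarith) (by linarith)
    linarith
  have a1 : a ≤ 1 - c / 2 + 50 * e := by linarith
  have a0 : 1 - c / 2 - 45 * e ≤ a := by linarith
  have gB1 : 4 * gB ≤ 1 - c / 2 + 30 * e + 61 * (K * e) := by linarith
  have gA1 : 4 * gA ≤ 1 - c / 2 + 42 * e + 61 * (K * e) := by linarith
  have t0 : 1 / 2 + c / 4 - 70 * e ≤ tau := by linarith
  have P1 : 0 ≤ (2 * K + 2) * (tau - s - (1 / 2 + c / 4 - 71 * e)) := mul_nonneg (by linarith) (by linarith)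
  rcases gm_or LA (2 * k + 1) (by omega) hkQ (by linarith) (by linarith) with H | H | H | H | H | H | H | H
  · linarith
  · linarith
  · linarith
  · linarith
  · linarith
  · linarith
  · have P2 : 0 ≤ (2 * K + 1) * ((1 / 2 - c / 4 + 108 * e + 92 * (K * e)) - (6 * gA - a)) :=
      mul_nonneg (by linarith) (by linarith)
    push_cast at H
    linarith
  · have P2 : 0 ≤ (2 * K + 1) * ((1 / 2 + c / 4 + 153 * e + 92 * (K * e)) - (1 - 2 * a + 6 * gA)) :=
      mul_nonneg (by linarith) (by linarith)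
    push_cast at H
    linarith

/-- the lemma for `b ≤ a` -/
theorem core {β : ℝ} (hβ : 0 < β) (hβ1 : β ≤ 1 / 20) {a b c gA gB h tau W s e : ℝ} (he : e = β ^ 2 / 10 ^ 7) (hs : 0 < s) (hse : s ≤ e)
    (hb : 0 < b) (hgA : a / 60 ≤ gA) (hgB : b / 60 ≤ gB) (hh : c / 60 ≤ h) (ha1 : a ≤ 1 + e)
    (hc0 : β / 8 ≤ c) (hc1 : c ≤ 119 / 500 + e) (hsum0 : 2 - e ≤ a + b + c) (hW : gA + gB + h - s ≤ W) (hWt : W ≤ tau + s)
    (ht1 : tau ≤ 1 + s)
    (hLV : ∀ i j k : ℕ, 0 < i * a + j * b + k * c → i * a + j * b + k * c ≤ 2 →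
      LVc (i * a + j * b + k * c) (i * gA + j * gB + k * h) tau s ⌈20 / β⌉₊)
    (hCO : ∀ i j k : ℕ, i * a + j * b + k * c ≤ 2 → COx (239 / 2000) (i * a + j * b + k * c) (i * gA + j * gB + k * h) tau W s)
    (hab : b ≤ a) : False := by
  have e0 : 0 < e := by rw [he]; positivity
  have e1 : e ≤ β / 10 ^ 8 := by rw [he]; nlinarith
  have e2 : e ≤ 1 / 10 ^ 9 := by
    have : β / 10 ^ 8 ≤ (1 / 20) / 10 ^ 8 := by gcongr
    linarith
  have hc : 0 < c := by linarith
  have LA : LVc a gA tau s ⌈20 / β⌉₊ := by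
    have := hLV 1 0 0 (by norm_num; linarith) (by norm_num; linarith)
    simpa using this
  have LB : LVc b gB tau s ⌈20 / β⌉₊ := by
    have := hLV 0 1 0 (by norm_num; linarith) (by norm_num; linarith)
    simpa using this
  have LBC : LVc (b + c) (gB + h) tau s ⌈20 / β⌉₊ := by
    have := hLV 0 1 1 (by norm_num; linarith) (by norm_num; linarith)
    simpa using this
  have LAC : LVc (a + c) (gA + h) tau s ⌈20 / β⌉₊ := by
    have := hLV 1 0 1 (by norm_num; linarith) (by norm_num; linarith)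
    simpa using this
  have CA := hCO 1 0 0 (by norm_num; linarith)
  have CB := hCO 0 1 0 (by norm_num; linarith)
  norm_num at CA CB
  have coA : 2 * gB + 2 * h ≤ tau + 3 * s := by
    rcases co_or CA hW with H | H
    · linarith
    · linarith
  have mvBC : tau ≤ 2 * gB + 2 * h + 3 * e := by
    rcases mv_or LBC with H | H
    · linarith
    · linarith
  have mvAC : tau ≤ 2 * gA + 2 * h + 3 * e := by
    rcases mv_or LAC with H | H
    · linarith
    · linarith
  rcases le_total (1 - 239 / 2000) b with hbr | hbr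
  · have coB : 2 * gA + 2 * h ≤ tau + 3 * s := by
      rcases co_or CB hW with H | H
      · linarith
      · linarith
    obtain ⟨k, hk⟩ : ∃ k : ℕ, ⌈1 / c⌉₊ = k + 1 := by
      have : 0 < ⌈1 / c⌉₊ := Nat.ceil_pos.2 (by positivity)
      exact ⟨⌈1 / c⌉₊ - 1, by omega⟩
    have h1 : 1 ≤ ((k : ℝ) + 1) * c := by
      have := Nat.le_ceil (1 / c)
      rw [hk] at this
      push_cast at this
      rwa [div_le_iff₀ hc] at this
    have h2 : (k : ℝ) * c < 1 := by
      have := Nat.ceil_lt_add_one (show 0 ≤ 1 / c by positivity)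
      rw [hk] at this
      push_cast at this
      have h3 : (k : ℝ) < 1 / c := by linarith
      rwa [lt_div_iff₀ hc] at h3
    have h3 : 2 * k + 1 ≤ ⌈20 / β⌉₊ := by
      have h4 : (k : ℝ) * β ≤ 8 := by
        have : (k : ℝ) * (β / 8) ≤ k * c := mul_le_mul_of_nonneg_left hc0 (by positivity)
        linarith
      have h5 : ((2 * k + 1 : ℕ) : ℝ) ≤ ⌈20 / β⌉₊ := by
        refine le_trans ?_ (Nat.le_ceil _)
        rw [le_div_iff₀ hβ]
        push_cast
        nlinarith
      exact_mod_cast h5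
    have hk0 : 0 < (k : ℝ) := by
      by_contra hcon
      push Not at hcon
      nlinarith
    have Lk : LVc (k * c) (k * h) tau s ⌈20 / β⌉₊ := by
      have := hLV 0 0 k (by norm_num; positivity) (by norm_num; linarith)
      simpa using this
    have Lk1 : LVc ((k + 1) * c) ((k + 1) * h) tau s ⌈20 / β⌉₊ := by
      have := hLV 0 0 (k + 1) (by push_cast; linarith) (by push_cast; linarith)
      simpa using this
    exact case1 hβ hβ1 he hs hse hh hc0 hc1 hsum0 coA mvBC mvAC coB h2 h1 h3 LA LB Lk Lk1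
  · have coB : 2 * gA + 2 * h + 239 / 2000 - 1 + b ≤ tau + 3 * s := by
      rcases co_or CB hW with H | H
      · linarith
      · linarith
    have L2 : LVc (2 * c) (2 * h) tau s ⌈20 / β⌉₊ := by
      have := hLV 0 0 2 (by norm_num; linarith) (by norm_num; linarith)
      simpa using this
    have L4 : LVc (4 * c) (4 * h) tau s ⌈20 / β⌉₊ := by
      have := hLV 0 0 4 (by norm_num; linarith) (by norm_num; linarith)
      simpa using this
    have L5 : LVc (5 * c) (5 * h) tau s ⌈20 / β⌉₊ := by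
      have := hLV 0 0 5 (by norm_num; linarith) (by norm_num; linarith)
      simpa using this
    have C4 := hCO 0 0 4 (by norm_num; linarith)
    have C8 := hCO 0 0 8 (by norm_num; linarith)
    norm_num at C4 C8
    exact tree hs hse (by linarith) hgA hgB hh ha1 hbr hc1 hsum0 ht1 (by linarith) coA mvBC coB LA LB L2 L4 L5
      (co_or C4 hW) (co_or C8 hW)

end Tr_aux

/-- **item Tr: the three-block lemma at the exponents of the block** -/
theorem iTr : StTr := by
  intro β hβ hβ1
  refine ⟨β ^ 2 / 10 ^ 7, by positivity, by nlinarith, ⌈20 / β⌉₊, ?_⟩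
  intro a b c gA gB h tau W s hs hse ha hb hgA hgB hh ha1 hb1 hc0 hc1 hsum0 hsum1 hW hWt ht1 hLV hCO
  unfold rE at hCO
  unfold cE at hc1
  rcases le_total b a with hab | hab
  · exact Tr_aux.core hβ hβ1 rfl hs hse hb hgA hgB hh ha1 hc0 hc1 hsum0 hW hWt ht1 hLV hCO hab
  · refine Tr_aux.core (a := b) (b := a) (gA := gB) (gB := gA) hβ hβ1 rfl hs hse ha hgB hgA hh hb1 hc0 hc1 (by linarith)
      (by linarith) hWt ht1 ?_ ?_ hab
    · intro i j k h1 h2
      have := hLV j i k (by linarith) (by linarith)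
      rw [show (i : ℝ) * b + j * a = j * a + i * b by ring, show (i : ℝ) * gB + j * gA = j * gA + i * gB by ring]
      exact this
    · intro i j k h2
      have := hCO j i k (by linarith)
      rw [show (i : ℝ) * b + j * a = j * a + i * b by ring, show (i : ℝ) * gB + j * gA = j * gA + i * gB by ring]
      exact this

end Pool.Agent.Work.MP_a8fbd7_nt.EX.CELL
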