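import Mathlib
import Pool.Agent.Work.MP_a8fbd7_nt.EX.CELL.Stmts2
import Pool.Agent.Work.MP_a8fbd7_nt.EX.CELL.I_Tr

/-!
MP_a8fbd7_nt, block EX, second wave (EX2), part CELL, item Tr2: the three-block lemma at `(r2, c2)`.
Case 1 (`a, b ≥ 1 - r`): `Tr_aux.case1` of `I_Tr.lean`.  Cases 2 and 3: case trees found by a linear programming branch and
bound (every leaf is an infeasible linear programme; the hypotheses used in a leaf are the support of the dual solution).
Author: helper62.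
-/

set_option autoImplicit false
set_option linter.unusedVariables false
set_option linter.unusedSimpArgs false

noncomputable section

namespace Pool.Agent.Work.MP_a8fbd7_nt.EX.CELL

open Pool.Agent.Work.MP_a8fbd7_nt.OX
open Pool.Agent.Work.MP_a8fbd7_nt.EX

namespace Tr2_aux

theorem mvor {l g tau s : ℝ} {Q : ℕ} (H : LVc l g tau s Q) :
    (1 ≤ l ∧ tau ≤ 2 * g + s) ∨ (l ≤ 1 ∧ tau ≤ 2 * g + (1 - l) + s) := by
  have h := H.mv
  rcases le_total 1 l with hl | hl
  · left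
    rw [max_eq_left (by linarith)] at h
    exact ⟨hl, by linarith⟩
  · right
    rw [max_eq_right (by linarith)] at h
    exact ⟨hl, by linarith⟩

theorem mvhi {l g tau s e : ℝ} {Q : ℕ} (H : LVc l g tau s Q) (e0 : 0 ≤ e) (hl : 1 - 10 * e ≤ l) :
    tau ≤ 2 * g + 10 * e + s := by
  rcases mvor H with ⟨h1, h2⟩ | ⟨h1, h2⟩ <;> linarith

theorem mvlo {l g tau s e : ℝ} {Q : ℕ} (H : LVc l g tau s Q) (e0 : 0 ≤ e) (hl : l ≤ 1 + 10 * e) :
    tau ≤ 2 * g + (1 - l) + 10 * e + s := by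
  rcases mvor H with ⟨h1, h2⟩ | ⟨h1, h2⟩ <;> linarith

theorem coor {r l g tau W s : ℝ} (H : COx r l g tau W s) :
    (1 - r ≤ l ∧ 2 * W - 2 * g ≤ tau + s) ∨ (l ≤ 1 - r ∧ 2 * W - 2 * g ≤ tau + 1 - l - r + s) := by
  rcases le_total (1 - r) l with hl | hl
  · left
    refine ⟨hl, ?_⟩
    rcases H with h | h <;> linarith
  · right
    refine ⟨hl, ?_⟩
    rcases H with h | h <;> linarith

theorem cohi {r l g tau W s e : ℝ} (H : COx r l g tau W s) (e0 : 0 ≤ e) (hl : 1 - r - 10 * e ≤ l) :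
    2 * W - 2 * g ≤ tau + 10 * e + s := by
  rcases coor H with ⟨h1, h2⟩ | ⟨h1, h2⟩ <;> linarith

theorem colo {r l g tau W s e : ℝ} (H : COx r l g tau W s) (e0 : 0 ≤ e) (hl : l ≤ 1 - r + 10 * e) :
    2 * W - 2 * g ≤ tau + 1 - l - r + 10 * e + s := by
  rcases coor H with ⟨h1, h2⟩ | ⟨h1, h2⟩ <;> linarith

theorem hxor {l g tau s : ℝ} {Q : ℕ} (H : LVc l g tau s Q) : tau ≤ 2 * g + s ∨ tau ≤ 1 + 6 * g - 2 * l + s := by
  have h := H.hx
  rcases le_total (2 * g) (1 + 6 * g - 2 * l) with h1 | h1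
  · rw [max_eq_right h1] at h; exact Or.inr h
  · rw [max_eq_left h1] at h; exact Or.inl h

theorem jjor {l g tau s : ℝ} {Q : ℕ} (H : LVc l g tau s Q) (k : ℕ) (hk : 2 ≤ k) (hk6 : k ≤ 6) (t : ℝ) :
    l / 4 ≤ g + s ∨ t ≤ 0 ∨ 1 ≤ t ∨ tau ≤ 1 - t + 2 * g + s ∨ tau ≤ 1 - t + (k * t - 2 * k * l + 4 * k * g) + s ∨
      tau ≤ 1 - t + (2 * t / 3 - 4 * k * l / 3 + 16 * k * g / 3) + s := by
  rcases le_total (l / 4) (g + s) with h0 | h0
  · exact Or.inl h0
  rcases le_total t 0 with h1 | h1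
  · exact Or.inr (Or.inl h1)
  rcases le_total 1 t with h2 | h2
  · exact Or.inr (Or.inr (Or.inl h2))
  have h := H.jj k t hk hk6 h1 h2 h0
  unfold JTk at h
  have h' : tau - s - (1 - t) ≤ max (2 * g) (max (k * t - 2 * k * l + 4 * k * g) (2 * t / 3 - 4 * k * l / 3 + 16 * k * g / 3)) := by
    linarith
  simp only [le_max_iff] at h'
  right; right; right
  rcases h' with h | h | h
  · left; linarith
  · right; left; linarith
  · right; right; linarith

theorem jjone {l g tau s : ℝ} {Q : ℕ} (H : LVc l g tau s Q) (k : ℕ) (hk : 2 ≤ k) (hk6 : k ≤ 6) :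
    l / 4 ≤ g + s ∨ tau ≤ 2 * g + s ∨ tau ≤ (k - 2 * k * l + 4 * k * g) + s ∨ tau ≤ (2 / 3 - 4 * k * l / 3 + 16 * k * g / 3) + s := by
  rcases le_total (l / 4) (g + s) with h0 | h0
  · exact Or.inl h0
  have h := H.jj k 1 hk hk6 zero_le_one le_rfl h0
  unfold JTk at h
  have h' : tau - s ≤ max (2 * g) (max (k * 1 - 2 * k * l + 4 * k * g) (2 * 1 / 3 - 4 * k * l / 3 + 16 * k * g / 3)) := by
    linarith
  simp only [le_max_iff] at h'
  right
  rcases h' with h | h | h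
  · left; linarith
  · right; left; linarith
  · right; right; linarith

theorem gmor {l g tau s : ℝ} {Q : ℕ} (H : LVc l g tau s Q) (q : ℕ) (hq : 1 ≤ q) (hqQ : q ≤ Q) :
    1 ≤ l ∨ 2 * l ≤ 1 + s ∨
    tau ≤ 2 * g + s ∨ tau ≤ (4 / 3 - 2 * l + 4 * g) + s ∨ tau ≤ (1 / 2 - l + 4 * g) + s ∨ tau ≤ (1 - 2 * l + 16 * g / 3) + s ∨
      tau ≤ (1 - 2 * l + 28 * g / 5) + s ∨ tau ≤ (3 / 2 - 3 * l + 7 * g) + s ∨
      (q + 1) * (tau - s) ≤ 1 + q * (6 * g - l) ∨ (q + 1) * (tau - s) ≤ q * (1 - 2 * l + 6 * g) := by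
  rcases le_total 1 l with hl | hl
  · exact Or.inl hl
  rcases le_total (2 * l) (1 + s) with hl2 | hl2
  · exact Or.inr (Or.inl hl2)
  have h := H.gm q 1 hq hqQ hl hl2
  unfold GMx at h
  rw [sub_self, max_self] at h
  have h' : tau - s ≤ max (2 * g) (max (4 * 1 / 3 - 2 * l + 4 * g) (max (1 / 2 - l + 4 * g)
    (max (1 - 2 * l + 16 * g / 3) (max (1 - 2 * l + 28 * g / 5) (max (3 * 1 / 2 - 3 * l + 7 * g)
      (max ((q : ℝ) / (q + 1) * (1 / q - l + 6 * g)) ((q : ℝ) / (q + 1) * (1 - 2 * l + 6 * g)))))))) := by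
    linarith
  have hq0 : (0 : ℝ) < q := by exact_mod_cast hq
  simp only [le_max_iff] at h'
  right; right
  rcases h' with h | h | h | h | h | h | h | h
  · left; linarith
  · right; left; linarith
  · right; right; left; linarith
  · right; right; right; left; linarith
  · right; right; right; right; left; linarith
  · right; right; right; right; right; left; linarith
  · right; right; right; right; right; right; left
    have h1 : (q + 1) * (tau - s) ≤ (q + 1) * ((q : ℝ) / (q + 1) * (1 / q - l + 6 * g)) :=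
      mul_le_mul_of_nonneg_left h (by linarith)
    have h2 : (q + 1) * ((q : ℝ) / (q + 1) * (1 / q - l + 6 * g)) = 1 + q * (6 * g - l) := by
      field_simp
      ring
    linarith
  · right; right; right; right; right; right; right
    have h1 : (q + 1) * (tau - s) ≤ (q + 1) * ((q : ℝ) / (q + 1) * (1 - 2 * l + 6 * g)) :=
      mul_le_mul_of_nonneg_left h (by linarith)
    have h2 : (q + 1) * ((q : ℝ) / (q + 1) * (1 - 2 * l + 6 * g)) = q * (1 - 2 * l + 6 * g) := by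
      field_simp
    linarith

/-- case 2: `b ≤ 1 - r ≤ a` -/
theorem tree2 {a b c gA gB h tau W s e : ℝ} {Q : ℕ} (hs : 0 < s) (hse : s ≤ e) (e0 : 0 ≤ e) (he : e ≤ 1 / 1000000000)
    (hc0 : 0 < c) (hgA : a / 60 ≤ gA) (hgB : b / 60 ≤ gB) (hh : c / 60 ≤ h) (ha1 : a ≤ 1 + e) (har : 1 - 1047 / 10000 ≤ a) (hbr : b ≤ 1 - 1047 / 10000) (hab : b ≤ a)
    (hc1 : c ≤ 17 / 75 + e) (hlo : 2 - e ≤ a + b + c) (hhi : a + b + c ≤ 2 + e) (hW : gA + gB + h - s ≤ W) (hWt : W ≤ tau + s)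
    (ht1 : tau ≤ 1 + s) (hQ : 100 ≤ Q)
    (hlv : ∀ i j k : ℕ, 0 < i * a + j * b + k * c → i * a + j * b + k * c ≤ 2 →
      LVc (i * a + j * b + k * c) (i * gA + j * gB + k * h) tau s Q)
    (hco : ∀ i j k : ℕ, i * a + j * b + k * c ≤ 2 →
      COx (1047 / 10000) (i * a + j * b + k * c) (i * gA + j * gB + k * h) tau W s) : False := by
  have L_0_0_4 := hlv 0 0 4 (by push_cast; linarith) (by push_cast; linarith)
  simp only [Nat.cast_zero, Nat.cast_one, Nat.cast_ofNat, zero_mul, zero_add, one_mul, add_zero] at L_0_0_4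
  have L_0_1_0 := hlv 0 1 0 (by push_cast; linarith) (by push_cast; linarith)
  simp only [Nat.cast_zero, Nat.cast_one, Nat.cast_ofNat, zero_mul, zero_add, one_mul, add_zero] at L_0_1_0
  have L_0_1_1 := hlv 0 1 1 (by push_cast; linarith) (by push_cast; linarith)
  simp only [Nat.cast_zero, Nat.cast_one, Nat.cast_ofNat, zero_mul, zero_add, one_mul, add_zero] at L_0_1_1
  have L_1_0_0 := hlv 1 0 0 (by push_cast; linarith) (by push_cast; linarith)
  simp only [Nat.cast_zero, Nat.cast_one, Nat.cast_ofNat, zero_mul, zero_add, one_mul, add_zero] at L_1_0_0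
  have C_0_0_1 := hco 0 0 1 (by push_cast; linarith)
  simp only [Nat.cast_zero, Nat.cast_one, Nat.cast_ofNat, zero_mul, zero_add, one_mul, add_zero] at C_0_0_1
  have C_0_0_4 := hco 0 0 4 (by push_cast; linarith)
  simp only [Nat.cast_zero, Nat.cast_one, Nat.cast_ofNat, zero_mul, zero_add, one_mul, add_zero] at C_0_0_4
  have C_0_0_5 := hco 0 0 5 (by push_cast; linarith)
  simp only [Nat.cast_zero, Nat.cast_one, Nat.cast_ofNat, zero_mul, zero_add, one_mul, add_zero] at C_0_0_5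
  have C_0_0_6 := hco 0 0 6 (by push_cast; linarith)
  simp only [Nat.cast_zero, Nat.cast_one, Nat.cast_ofNat, zero_mul, zero_add, one_mul, add_zero] at C_0_0_6
  have C_0_0_7 := hco 0 0 7 (by push_cast; linarith)
  simp only [Nat.cast_zero, Nat.cast_one, Nat.cast_ofNat, zero_mul, zero_add, one_mul, add_zero] at C_0_0_7
  have C_0_1_0 := hco 0 1 0 (by push_cast; linarith)
  simp only [Nat.cast_zero, Nat.cast_one, Nat.cast_ofNat, zero_mul, zero_add, one_mul, add_zero] at C_0_1_0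
  have C_1_0_0 := hco 1 0 0 (by push_cast; linarith)
  simp only [Nat.cast_zero, Nat.cast_one, Nat.cast_ofNat, zero_mul, zero_add, one_mul, add_zero] at C_1_0_0
  have E1 := cohi C_1_0_0 e0 (by linarith)
  have E2 := mvhi L_0_1_1 e0 (by linarith)
  have F_co_0_0_1 := colo C_0_0_1 e0 (by linarith)
  have F_co_0_1_0 := colo C_0_1_0 e0 (by linarith)
  have F_mv_0_0_4 := mvlo L_0_0_4 e0 (by linarith)
  have F_mv_0_1_0 := mvlo L_0_1_0 e0 (by linarith)
  have F_mv_1_0_0 := mvlo L_1_0_0 e0 (by linarith)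
  have D_co_0_0_4 := coor C_0_0_4
  have D_co_0_0_5 := coor C_0_0_5
  have D_co_0_0_6 := coor C_0_0_6
  have D_co_0_0_7 := coor C_0_0_7
  have D_gm_0_1_0_q_6 := gmor L_0_1_0 6 (by norm_num) (le_trans (by norm_num) hQ)
  simp only [Nat.cast_ofNat] at D_gm_0_1_0_q_6
  have D_gm_1_0_0_q_10 := gmor L_1_0_0 10 (by norm_num) (le_trans (by norm_num) hQ)
  simp only [Nat.cast_ofNat] at D_gm_1_0_0_q_10
  have D_gm_1_0_0_q_40 := gmor L_1_0_0 40 (by norm_num) (le_trans (by norm_num) hQ)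
  simp only [Nat.cast_ofNat] at D_gm_1_0_0_q_40
  have D_gm_1_0_0_q_50 := gmor L_1_0_0 50 (by norm_num) (le_trans (by norm_num) hQ)
  simp only [Nat.cast_ofNat] at D_gm_1_0_0_q_50
  have D_hx_0_0_4 := hxor L_0_0_4
  have D_hx_0_1_0 := hxor L_0_1_0
  have D_hx_1_0_0 := hxor L_1_0_0
  have D_j1_0_1_0_k_3 := jjone L_0_1_0 3 (by norm_num) (by norm_num)
  simp only [Nat.cast_ofNat] at D_j1_0_1_0_k_3
  have D_jt0_0_1_0_k_4 := jjor L_0_1_0 4 (by norm_num) (by norm_num) (2 * (b) - 7 / 2 * (gB))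
  simp only [Nat.cast_ofNat] at D_jt0_0_1_0_k_4
  have D_jt0_0_1_0_k_5 := jjor L_0_1_0 5 (by norm_num) (by norm_num) (2 * (b) - 18 / 5 * (gB))
  simp only [Nat.cast_ofNat] at D_jt0_0_1_0_k_5
  have D_jt0_0_1_0_k_6 := jjor L_0_1_0 6 (by norm_num) (by norm_num) (2 * (b) - 11 / 3 * (gB))
  simp only [Nat.cast_ofNat] at D_jt0_0_1_0_k_6
  clear hlv hco L_0_0_4 L_0_1_0 L_0_1_1 L_1_0_0 C_0_0_1 C_0_0_4 C_0_0_5 C_0_0_6 C_0_0_7 C_0_1_0 C_1_0_0
  rcases D_hx_1_0_0 with n0 | n0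
  · skip
    rcases D_hx_0_1_0 with n1 | n1
    · linarith only [hs, hse, he, hlo, hhi, hW, E1, E2, hh, F_co_0_1_0, F_mv_1_0_0, n1]
    · skip
      rcases D_co_0_0_7 with ⟨n2a, n2b⟩ | ⟨n2a, n2b⟩
      · skip
        rcases D_co_0_0_6 with ⟨n3a, n3b⟩ | ⟨n3a, n3b⟩
        · skip
          rcases D_co_0_0_5 with ⟨n4a, n4b⟩ | ⟨n4a, n4b⟩
          · skip
            rcases D_j1_0_1_0_k_3 with n5 | n5 | n5 | n5
            · skip
              rcases D_co_0_0_4 with ⟨n6a, n6b⟩ | ⟨n6a, n6b⟩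
              · linarith only [hs, hse, he, hlo, hhi, hW, E1, E2, hc1, F_co_0_1_0, F_mv_1_0_0, n0, n5, n6b]
              · linarith only [hs, hse, he, hlo, hhi, hW, E1, E2, F_co_0_1_0, F_mv_1_0_0, n0, n4b, n5, n6b]
            · linarith only [hs, hse, he, hlo, hhi, hW, E1, E2, ha1, F_mv_0_0_4, F_mv_1_0_0, n1, n4b, n5]
            · skip
              rcases D_jt0_0_1_0_k_4 with n6 | n6 | n6 | n6 | n6 | n6
              · skip
                rcases D_co_0_0_4 with ⟨n7a, n7b⟩ | ⟨n7a, n7b⟩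
                · linarith only [hs, hse, he, hlo, hhi, hW, E1, E2, hc1, F_co_0_1_0, F_mv_1_0_0, n0, n6, n7b]
                · linarith only [hs, hse, he, hlo, hhi, hW, E1, E2, F_co_0_1_0, F_mv_1_0_0, n0, n4b, n6, n7b]
              · linarith only [hs, hse, he, hlo, hhi, hW, E1, E2, ha1, hc1, F_co_0_0_1, F_mv_1_0_0, n6]
              · linarith only [hs, hse, he, hlo, hhi, hW, E1, E2, ha1, F_mv_0_0_4, F_mv_1_0_0, n4b, n5, n6]
              · skip
                rcases D_co_0_0_4 with ⟨n7a, n7b⟩ | ⟨n7a, n7b⟩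
                · linarith only [hs, hse, he, hlo, hhi, hW, E1, E2, ha1, hc1, F_co_0_1_0, F_mv_1_0_0, n6, n7b]
                · linarith only [hs, hse, he, hlo, hhi, hW, E1, E2, ha1, F_co_0_1_0, F_mv_1_0_0, n4b, n6, n7b]
              · skip
                rcases D_co_0_0_4 with ⟨n7a, n7b⟩ | ⟨n7a, n7b⟩
                · linarith only [hs, hse, he, hlo, hhi, hW, E1, E2, ha1, hc1, F_co_0_1_0, F_mv_1_0_0, n6, n7b]
                · linarith only [hs, hse, he, hlo, hhi, hW, E1, E2, ha1, F_co_0_1_0, F_mv_1_0_0, n4b, n6, n7b]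
              · skip
                rcases D_jt0_0_1_0_k_5 with n7 | n7 | n7 | n7 | n7 | n7
                · skip
                  rcases D_co_0_0_4 with ⟨n8a, n8b⟩ | ⟨n8a, n8b⟩
                  · linarith only [hs, hse, he, hlo, hhi, hW, E1, E2, hc1, F_co_0_1_0, F_mv_1_0_0, n0, n7, n8b]
                  · linarith only [hs, hse, he, hlo, hhi, hW, E1, E2, F_co_0_1_0, F_mv_1_0_0, n0, n4b, n7, n8b]
                · linarith only [hs, hse, he, hlo, hhi, hW, E1, E2, ha1, hc1, F_co_0_0_1, F_mv_1_0_0, n7]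
                · linarith only [hs, hse, he, hlo, hhi, hW, E1, E2, n0, n4b, n5, n6, n7]
                · skip
                  rcases D_co_0_0_4 with ⟨n8a, n8b⟩ | ⟨n8a, n8b⟩
                  · linarith only [hs, hse, he, hlo, hhi, hW, E1, E2, ha1, hc1, F_co_0_1_0, F_mv_1_0_0, n7, n8b]
                  · linarith only [hs, hse, he, hlo, hhi, hW, E1, E2, ha1, F_co_0_1_0, F_mv_1_0_0, n4b, n7, n8b]
                · skip
                  rcases D_co_0_0_4 with ⟨n8a, n8b⟩ | ⟨n8a, n8b⟩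
                  · linarith only [hs, hse, he, hlo, hhi, hW, E1, E2, ha1, hc1, F_co_0_1_0, F_mv_1_0_0, n7, n8b]
                  · linarith only [hs, hse, he, hlo, hhi, hW, E1, E2, ha1, F_co_0_1_0, F_mv_1_0_0, n4b, n7, n8b]
                · skip
                  rcases D_co_0_0_4 with ⟨n8a, n8b⟩ | ⟨n8a, n8b⟩
                  · linarith only [hs, hse, he, hlo, hhi, hW, E1, E2, hc1, F_co_0_1_0, F_mv_1_0_0, n0, n7, n8b]
                  · linarith only [hs, hse, he, hlo, hhi, hW, E1, E2, F_co_0_1_0, F_mv_1_0_0, n0, n4b, n7, n8b]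
            · skip
              rcases D_jt0_0_1_0_k_6 with n6 | n6 | n6 | n6 | n6 | n6
              · skip
                rcases D_co_0_0_4 with ⟨n7a, n7b⟩ | ⟨n7a, n7b⟩
                · linarith only [hs, hse, he, hlo, hhi, hW, E1, E2, hc1, F_co_0_1_0, F_mv_1_0_0, n0, n6, n7b]
                · linarith only [hs, hse, he, hlo, hhi, hW, E1, E2, F_co_0_1_0, F_mv_1_0_0, n0, n4b, n6, n7b]
              · linarith only [hs, hse, he, hlo, hhi, hW, E1, E2, ha1, hc1, F_co_0_0_1, F_mv_1_0_0, n6]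
              · linarith only [hs, hse, he, hlo, hhi, hW, E1, E2, F_co_0_1_0, n0, n4b, n5, n6]
              · skip
                rcases D_co_0_0_4 with ⟨n7a, n7b⟩ | ⟨n7a, n7b⟩
                · skip
                  rcases D_jt0_0_1_0_k_4 with n8 | n8 | n8 | n8 | n8 | n8
                  · linarith only [hs, hse, he, hlo, hhi, hW, E1, E2, hc1, F_co_0_1_0, F_mv_1_0_0, n0, n7b, n8]
                  · linarith only [hs, hse, he, hlo, hhi, hW, E1, E2, ha1, hc1, F_co_0_0_1, F_mv_1_0_0, n8]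
                  · linarith only [hs, hse, he, hlo, hhi, hW, E1, E2, n0, n5, n6, n7b, n8]
                  · linarith only [hs, hse, he, hlo, hhi, hW, E1, E2, ha1, hc1, F_co_0_1_0, F_mv_1_0_0, n7b, n8]
                  · linarith only [hs, hse, he, hlo, hhi, hW, E1, E2, ha1, hc1, F_co_0_1_0, F_mv_1_0_0, n7b, n8]
                  · linarith only [hs, hse, he, hlo, hhi, hW, E1, E2, hc1, F_co_0_1_0, F_mv_1_0_0, n0, n7b, n8]
                · skip
                  rcases D_jt0_0_1_0_k_5 with n8 | n8 | n8 | n8 | n8 | n8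
                  · linarith only [hs, hse, he, hlo, hhi, hW, E1, E2, F_co_0_1_0, F_mv_1_0_0, n0, n4b, n7b, n8]
                  · linarith only [hs, hse, he, hlo, hhi, hW, E1, E2, ha1, F_co_0_0_1, F_mv_1_0_0, n7a, n8]
                  · linarith only [hs, hse, he, hlo, hhi, hW, E1, E2, n0, n4b, n5, n6, n8]
                  · linarith only [hs, hse, he, hlo, hhi, hW, E1, E2, ha1, F_co_0_1_0, F_mv_1_0_0, n4b, n7b, n8]
                  · linarith only [hs, hse, he, hlo, hhi, hW, E1, E2, ha1, F_co_0_1_0, F_mv_1_0_0, n4b, n7b, n8]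
                  · linarith only [hs, hse, he, hlo, hhi, hW, E1, E2, F_co_0_1_0, F_mv_1_0_0, n0, n4b, n7b, n8]
              · skip
                rcases D_co_0_0_4 with ⟨n7a, n7b⟩ | ⟨n7a, n7b⟩
                · skip
                  rcases D_jt0_0_1_0_k_4 with n8 | n8 | n8 | n8 | n8 | n8
                  · linarith only [hs, hse, he, hlo, hhi, hW, E1, E2, hc1, F_co_0_1_0, F_mv_1_0_0, n0, n7b, n8]
                  · linarith only [hs, hse, he, hlo, hhi, hW, E1, E2, ha1, hc1, F_co_0_0_1, F_mv_1_0_0, n8]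
                  · linarith only [hs, hse, he, hlo, hhi, hW, E1, E2, n0, n5, n6, n7b, n8]
                  · linarith only [hs, hse, he, hlo, hhi, hW, E1, E2, ha1, hc1, F_co_0_1_0, F_mv_1_0_0, n7b, n8]
                  · linarith only [hs, hse, he, hlo, hhi, hW, E1, E2, ha1, hc1, F_co_0_1_0, F_mv_1_0_0, n7b, n8]
                  · linarith only [hs, hse, he, hlo, hhi, hW, E1, E2, hc1, F_co_0_1_0, F_mv_1_0_0, n0, n7b, n8]
                · skip
                  rcases D_jt0_0_1_0_k_5 with n8 | n8 | n8 | n8 | n8 | n8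
                  · linarith only [hs, hse, he, hlo, hhi, hW, E1, E2, F_co_0_1_0, F_mv_1_0_0, n0, n4b, n7b, n8]
                  · linarith only [hs, hse, he, hlo, hhi, hW, E1, E2, ha1, F_co_0_0_1, F_mv_1_0_0, n7a, n8]
                  · linarith only [hs, hse, he, hlo, hhi, hW, E1, E2, n0, n4b, n5, n6, n8]
                  · linarith only [hs, hse, he, hlo, hhi, hW, E1, E2, ha1, F_co_0_1_0, F_mv_1_0_0, n4b, n7b, n8]
                  · linarith only [hs, hse, he, hlo, hhi, hW, E1, E2, ha1, F_co_0_1_0, F_mv_1_0_0, n4b, n7b, n8]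
                  · linarith only [hs, hse, he, hlo, hhi, hW, E1, E2, F_co_0_1_0, F_mv_1_0_0, n0, n4b, n7b, n8]
              · skip
                rcases D_co_0_0_4 with ⟨n7a, n7b⟩ | ⟨n7a, n7b⟩
                · linarith only [hs, hse, he, hlo, hhi, hW, E1, E2, hc1, F_co_0_1_0, F_mv_1_0_0, n0, n6, n7b]
                · linarith only [hs, hse, he, hlo, hhi, hW, E1, E2, F_co_0_1_0, F_mv_1_0_0, n0, n4b, n6, n7b]
          · linarith only [hs, hse, he, hlo, hhi, hW, E1, E2, F_co_0_1_0, F_mv_1_0_0, n1, n3b, n4b]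
        · linarith only [hs, hse, he, hlo, hhi, hW, E1, E2, F_co_0_1_0, F_mv_1_0_0, n1, n2b, n3b]
      · linarith only [hs, hse, he, hlo, hhi, hW, E1, E2, ha1, hbr, F_co_0_1_0, F_mv_1_0_0, n1, n2b]
  · skip
    rcases D_hx_0_0_4 with n1 | n1
    · linarith only [hs, hse, he, hlo, hhi, hW, E1, E2, ha1, hc1, F_co_0_1_0, F_mv_1_0_0, n0, n1]
    · skip
      rcases D_co_0_0_4 with ⟨n2a, n2b⟩ | ⟨n2a, n2b⟩
      · skip
        rcases D_gm_0_1_0_q_6 with n3 | n3 | n3 | n3 | n3 | n3 | n3 | n3 | n3 | n3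
        · linarith only [hs, hse, he, hlo, hhi, hW, E1, E2, hab, n2a, n3]
        · linarith only [hs, hse, he, hlo, hhi, hW, E1, E2, ha1, hc1, n3]
        · linarith only [hs, hse, he, hlo, hhi, hW, E1, E2, F_co_0_1_0, n0, n1, n2a, n2b, n3]
        · skip
          rcases D_gm_1_0_0_q_50 with n4 | n4 | n4 | n4 | n4 | n4 | n4 | n4 | n4 | n4
          · linarith only [hs, hse, he, hlo, hhi, hW, E1, E2, hc1, F_co_0_1_0, F_mv_1_0_0, n0, n2b, n4]
          · linarith only [hs, hse, he, hlo, hhi, hW, E1, E2, F_mv_0_0_4, F_mv_0_1_0, n3, n4]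
          · linarith only [hs, hse, he, hlo, hhi, hW, E1, E2, hc1, F_co_0_1_0, F_mv_1_0_0, n0, n2b, n4]
          · linarith only [hs, hse, he, hlo, hhi, hW, E1, E2, F_mv_0_0_4, F_co_0_1_0, F_mv_1_0_0, n4]
          · linarith only [hs, hse, he, hlo, hhi, hW, E1, E2, hc1, F_co_0_1_0, F_mv_1_0_0, n2b, n4]
          · linarith only [hs, hse, he, hlo, hhi, hW, E1, E2, hc1, F_mv_0_0_4, F_co_0_1_0, F_mv_1_0_0, n2b, n4]
          · linarith only [hs, hse, he, hlo, hhi, hW, E1, E2, hc1, F_co_0_1_0, F_mv_1_0_0, n2b, n3, n4]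
          · linarith only [hs, hse, he, hlo, hhi, hW, E1, E2, hc1, F_mv_0_0_4, F_co_0_1_0, F_mv_1_0_0, n2b, n4]
          · linarith only [hs, hse, he, hlo, hhi, hW, E1, E2, hc1, F_co_0_1_0, F_mv_1_0_0, n0, n2b, n4]
          · linarith only [hs, hse, he, hlo, hhi, hW, E1, E2, hc1, F_co_0_1_0, F_mv_1_0_0, n2b, n3, n4]
        · linarith only [hs, hse, he, hlo, hhi, hW, E1, E2, hc1, F_co_0_1_0, F_mv_1_0_0, n2b, n3]
        · linarith only [hs, hse, he, hlo, hhi, hW, E1, E2, ha1, hc1, F_co_0_1_0, F_mv_1_0_0, n2b, n3]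
        · linarith only [hs, hse, he, hlo, hhi, hW, E1, E2, hc1, F_co_0_1_0, F_mv_1_0_0, n0, n2b, n3]
        · linarith only [hs, hse, he, hlo, hhi, hW, E1, E2, hc1, F_co_0_1_0, F_mv_1_0_0, n0, n2b, n3]
        · linarith only [hs, hse, he, hlo, hhi, hW, E1, E2, hc1, F_mv_0_0_4, F_co_0_1_0, F_mv_1_0_0, n2b, n3]
        · linarith only [hs, hse, he, hlo, hhi, hW, E1, E2, hc1, F_co_0_1_0, F_mv_1_0_0, n0, n2b, n3]
      · skip
        rcases D_gm_1_0_0_q_10 with n3 | n3 | n3 | n3 | n3 | n3 | n3 | n3 | n3 | n3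
        · linarith only [hs, hse, he, hlo, hhi, hW, E1, E2, F_co_0_1_0, F_mv_1_0_0, n0, n2b, n3]
        · linarith only [hs, hse, he, hlo, hhi, hW, E1, E2, hab, n2a, n3]
        · linarith only [hs, hse, he, hlo, hhi, hW, E1, E2, F_co_0_1_0, F_mv_1_0_0, n0, n2b, n3]
        · linarith only [hs, hse, he, hlo, hhi, hW, E1, E2, F_mv_0_0_4, F_co_0_1_0, F_mv_1_0_0, n3]
        · linarith only [hs, hse, he, hlo, hhi, hW, E1, E2, F_co_0_1_0, F_mv_1_0_0, n2b, n3]
        · linarith only [hs, hse, he, hlo, hhi, hW, E1, E2, F_mv_0_0_4, F_co_0_1_0, F_mv_1_0_0, n2b, n3]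
        · linarith only [hs, hse, he, hlo, hhi, hW, E1, E2, F_mv_0_0_4, F_co_0_1_0, F_mv_1_0_0, n2b, n3]
        · linarith only [hs, hse, he, hlo, hhi, hW, E1, E2, F_mv_0_1_0, F_co_0_1_0, F_mv_1_0_0, n2b, n3]
        · skip
          rcases D_gm_1_0_0_q_40 with n4 | n4 | n4 | n4 | n4 | n4 | n4 | n4 | n4 | n4
          · linarith only [hs, hse, he, hlo, hhi, hW, E1, E2, F_co_0_1_0, F_mv_1_0_0, n0, n2b, n4]
          · linarith only [hs, hse, he, hlo, hhi, hW, E1, E2, hab, n2a, n4]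
          · linarith only [hs, hse, he, hlo, hhi, hW, E1, E2, F_co_0_1_0, F_mv_1_0_0, n0, n2b, n4]
          · linarith only [hs, hse, he, hlo, hhi, hW, E1, E2, F_mv_0_0_4, F_co_0_1_0, F_mv_1_0_0, n4]
          · linarith only [hs, hse, he, hlo, hhi, hW, E1, E2, F_co_0_1_0, F_mv_1_0_0, n2b, n4]
          · linarith only [hs, hse, he, hlo, hhi, hW, E1, E2, F_mv_0_0_4, F_co_0_1_0, F_mv_1_0_0, n2b, n4]
          · linarith only [hs, hse, he, hlo, hhi, hW, E1, E2, F_mv_0_0_4, F_co_0_1_0, F_mv_1_0_0, n2b, n4]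
          · linarith only [hs, hse, he, hlo, hhi, hW, E1, E2, F_mv_0_0_4, F_co_0_1_0, F_mv_1_0_0, n2b, n4]
          · linarith only [hs, hse, he, hlo, hhi, hW, E1, E2, F_co_0_1_0, F_mv_1_0_0, n0, n2b, n4]
          · linarith only [hs, hse, he, hlo, hhi, hW, E1, E2, F_co_0_1_0, F_mv_1_0_0, n2b, n3, n4]
        · linarith only [hs, hse, he, hlo, hhi, hW, E1, E2, F_mv_0_1_0, F_co_0_1_0, F_mv_1_0_0, n2b, n3]

/-- case 3: `b ≤ a ≤ 1 - r` -/
theorem tree3 {a b c gA gB h tau W s e : ℝ} {Q : ℕ} (hs : 0 < s) (hse : s ≤ e) (e0 : 0 ≤ e) (he : e ≤ 1 / 1000000000)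
    (hc0 : 0 < c) (hgA : a / 60 ≤ gA) (hgB : b / 60 ≤ gB) (hh : c / 60 ≤ h) (ha1 : a ≤ 1 + e) (har : a ≤ 1 - 1047 / 10000) (hbr : b ≤ 1 - 1047 / 10000) (hab : b ≤ a)
    (hc1 : c ≤ 17 / 75 + e) (hlo : 2 - e ≤ a + b + c) (hhi : a + b + c ≤ 2 + e) (hW : gA + gB + h - s ≤ W) (hWt : W ≤ tau + s)
    (ht1 : tau ≤ 1 + s) (hQ : 100 ≤ Q)
    (hlv : ∀ i j k : ℕ, 0 < i * a + j * b + k * c → i * a + j * b + k * c ≤ 2 →
      LVc (i * a + j * b + k * c) (i * gA + j * gB + k * h) tau s Q)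
    (hco : ∀ i j k : ℕ, i * a + j * b + k * c ≤ 2 →
      COx (1047 / 10000) (i * a + j * b + k * c) (i * gA + j * gB + k * h) tau W s) : False := by
  have L_0_0_3 := hlv 0 0 3 (by push_cast; linarith) (by push_cast; linarith)
  simp only [Nat.cast_zero, Nat.cast_one, Nat.cast_ofNat, zero_mul, zero_add, one_mul, add_zero] at L_0_0_3
  have L_0_0_4 := hlv 0 0 4 (by push_cast; linarith) (by push_cast; linarith)
  simp only [Nat.cast_zero, Nat.cast_one, Nat.cast_ofNat, zero_mul, zero_add, one_mul, add_zero] at L_0_0_4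
  have L_0_0_5 := hlv 0 0 5 (by push_cast; linarith) (by push_cast; linarith)
  simp only [Nat.cast_zero, Nat.cast_one, Nat.cast_ofNat, zero_mul, zero_add, one_mul, add_zero] at L_0_0_5
  have L_0_1_0 := hlv 0 1 0 (by push_cast; linarith) (by push_cast; linarith)
  simp only [Nat.cast_zero, Nat.cast_one, Nat.cast_ofNat, zero_mul, zero_add, one_mul, add_zero] at L_0_1_0
  have L_1_0_0 := hlv 1 0 0 (by push_cast; linarith) (by push_cast; linarith)
  simp only [Nat.cast_zero, Nat.cast_one, Nat.cast_ofNat, zero_mul, zero_add, one_mul, add_zero] at L_1_0_0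
  have C_0_1_0 := hco 0 1 0 (by push_cast; linarith)
  simp only [Nat.cast_zero, Nat.cast_one, Nat.cast_ofNat, zero_mul, zero_add, one_mul, add_zero] at C_0_1_0
  have C_1_0_0 := hco 1 0 0 (by push_cast; linarith)
  simp only [Nat.cast_zero, Nat.cast_one, Nat.cast_ofNat, zero_mul, zero_add, one_mul, add_zero] at C_1_0_0
  have F_co_0_1_0 := colo C_0_1_0 e0 (by linarith)
  have F_co_1_0_0 := colo C_1_0_0 e0 (by linarith)
  have F_mv_0_0_4 := mvlo L_0_0_4 e0 (by linarith)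
  have F_mv_0_0_5 := mvhi L_0_0_5 e0 (by linarith)
  have F_mv_0_1_0 := mvlo L_0_1_0 e0 (by linarith)
  have F_mv_1_0_0 := mvlo L_1_0_0 e0 (by linarith)
  have D_gm_0_1_0_q_8 := gmor L_0_1_0 8 (by norm_num) (le_trans (by norm_num) hQ)
  simp only [Nat.cast_ofNat] at D_gm_0_1_0_q_8
  have D_hx_0_0_3 := hxor L_0_0_3
  clear hlv hco L_0_0_3 L_0_0_4 L_0_0_5 L_0_1_0 L_1_0_0 C_0_1_0 C_1_0_0
  rcases D_gm_0_1_0_q_8 with n0 | n0 | n0 | n0 | n0 | n0 | n0 | n0 | n0 | n0
  · linarith only [hs, hse, he, hlo, hhi, hbr, n0]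
  · linarith only [hs, hse, he, hlo, hhi, har, hc1, n0]
  · skip
    rcases D_hx_0_0_3 with n1 | n1
    · linarith only [hs, hse, he, hlo, hhi, hab, hc1, hgA, hW, hWt, F_co_1_0_0, n0, n1]
    · linarith only [hs, hse, he, hlo, hhi, hbr, hab, hgA, hW, F_co_0_1_0, F_co_1_0_0, n0, n1]
  · linarith only [hs, hse, he, hlo, hhi, hW, F_mv_0_0_4, F_co_0_1_0, F_mv_1_0_0, F_co_1_0_0, n0]
  · linarith only [hs, hse, he, hlo, hhi, hab, hW, F_mv_0_0_4, F_mv_0_0_5, F_co_0_1_0, F_mv_1_0_0, F_co_1_0_0, n0]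
  · linarith only [hs, hse, he, hlo, hhi, hab, hW, F_mv_0_0_4, F_mv_0_0_5, F_co_0_1_0, F_mv_1_0_0, F_co_1_0_0, n0]
  · linarith only [hs, hse, he, hlo, hhi, hab, hW, F_mv_0_0_4, F_mv_0_0_5, F_mv_0_1_0, F_co_1_0_0, n0]
  · linarith only [hs, hse, he, hlo, hhi, hab, hW, F_mv_0_0_4, F_mv_0_0_5, F_co_0_1_0, F_mv_1_0_0, F_co_1_0_0, n0]
  · linarith only [hs, hse, he, hlo, hhi, hab, hW, F_mv_0_0_4, F_mv_0_0_5, F_mv_0_1_0, F_co_1_0_0, n0]
  · linarith only [hs, hse, he, hlo, hhi, hab, hW, F_mv_0_0_4, F_mv_0_0_5, F_mv_0_1_0, F_co_1_0_0, n0]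

/-- the lemma for `b ≤ a` -/
theorem core {β : ℝ} (hβ : 0 < β) (hβ1 : β ≤ 1 / 20) {a b c gA gB h tau W s e : ℝ} (he : e = β ^ 2 / 10 ^ 7) (hs : 0 < s) (hse : s ≤ e)
    (hgA : a / 60 ≤ gA) (hgB : b / 60 ≤ gB) (hh : c / 60 ≤ h) (ha1 : a ≤ 1 + e)
    (hc0 : β / 8 ≤ c) (hc1 : c ≤ 17 / 75 + e) (hlo : 2 - e ≤ a + b + c) (hhi : a + b + c ≤ 2 + e) (hW : gA + gB + h - s ≤ W)
    (hWt : W ≤ tau + s) (ht1 : tau ≤ 1 + s)
    (hlv : ∀ i j k : ℕ, 0 < i * a + j * b + k * c → i * a + j * b + k * c ≤ 2 →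
      LVc (i * a + j * b + k * c) (i * gA + j * gB + k * h) tau s ⌈20 / β⌉₊)
    (hco : ∀ i j k : ℕ, i * a + j * b + k * c ≤ 2 → COx (1047 / 10000) (i * a + j * b + k * c) (i * gA + j * gB + k * h) tau W s)
    (hab : b ≤ a) : False := by
  have e0 : 0 < e := by rw [he]; positivity
  have e2 : e ≤ 1 / 1000000000 := by rw [he]; nlinarith
  have hc : 0 < c := by linarith
  have hQ : 100 ≤ ⌈20 / β⌉₊ := by
    have h5 : ((100 : ℕ) : ℝ) ≤ ⌈20 / β⌉₊ := by
      refine le_trans ?_ (Nat.le_ceil _)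
      rw [le_div_iff₀ hβ]
      push_cast
      linarith
    exact_mod_cast h5
  rcases le_total (1 - 1047 / 10000) b with hbr | hbr
  · have LA : LVc a gA tau s ⌈20 / β⌉₊ := by
      have := hlv 1 0 0 (by norm_num; linarith) (by norm_num; linarith)
      simpa using this
    have LB : LVc b gB tau s ⌈20 / β⌉₊ := by
      have := hlv 0 1 0 (by norm_num; linarith) (by norm_num; linarith)
      simpa using this
    have LBC : LVc (b + c) (gB + h) tau s ⌈20 / β⌉₊ := by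
      have := hlv 0 1 1 (by norm_num; linarith) (by norm_num; linarith)
      simpa using this
    have LAC : LVc (a + c) (gA + h) tau s ⌈20 / β⌉₊ := by
      have := hlv 1 0 1 (by norm_num; linarith) (by norm_num; linarith)
      simpa using this
    have CA := hco 1 0 0 (by norm_num; linarith)
    have CB := hco 0 1 0 (by norm_num; linarith)
    norm_num at CA CB
    have coA : 2 * gB + 2 * h ≤ tau + 3 * s := by
      rcases CA with H | H
      · linarith
      · linarith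
    have coB : 2 * gA + 2 * h ≤ tau + 3 * s := by
      rcases CB with H | H
      · linarith
      · linarith
    have mvBC : tau ≤ 2 * gB + 2 * h + 3 * e := by
      rcases mvor LBC with ⟨h1, h2⟩ | ⟨h1, h2⟩ <;> linarith
    have mvAC : tau ≤ 2 * gA + 2 * h + 3 * e := by
      rcases mvor LAC with ⟨h1, h2⟩ | ⟨h1, h2⟩ <;> linarith
    obtain ⟨k, hk⟩ : ∃ k : ℕ, ⌈1 / c⌉₊ = k + 1 := by
      have : 0 < ⌈1 / c⌉₊ := Nat.ceil_pos.2 (by positivity)
      exact ⟨⌈1 / c⌉₊ - 1, by omega⟩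
    have h1 : 1 ≤ ((k : ℝ) + 1) * c := by
      have := Nat.le_ceil (1 / c)
      rw [hk] at this
      push_cast at this
      rwa [div_le_iff₀ hc] at this
    have h2 : (k : ℝ) * c < 1 := by
      have := Nat.ceil_lt_add_one (show 0 ≤ 1 / c by positivity)
      rw [hk] at this
      push_cast at this
      have h3 : (k : ℝ) < 1 / c := by linarith
      rwa [lt_div_iff₀ hc] at h3
    have h3 : 2 * k + 1 ≤ ⌈20 / β⌉₊ := by
      have h4 : (k : ℝ) * β ≤ 8 := by
        have : (k : ℝ) * (β / 8) ≤ k * c := mul_le_mul_of_nonneg_left hc0 (by positivity)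
        linarith
      have h5 : ((2 * k + 1 : ℕ) : ℝ) ≤ ⌈20 / β⌉₊ := by
        refine le_trans ?_ (Nat.le_ceil _)
        rw [le_div_iff₀ hβ]
        push_cast
        nlinarith
      exact_mod_cast h5
    have hk0 : 0 < (k : ℝ) := by
      by_contra hcon
      push Not at hcon
      nlinarith
    have Lk : LVc (k * c) (k * h) tau s ⌈20 / β⌉₊ := by
      have := hlv 0 0 k (by norm_num; positivity) (by norm_num; linarith)
      simpa using this
    have Lk1 : LVc ((k + 1) * c) ((k + 1) * h) tau s ⌈20 / β⌉₊ := by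
      have := hlv 0 0 (k + 1) (by push_cast; linarith) (by push_cast; linarith)
      simpa using this
    exact Tr_aux.case1 hβ hβ1 he hs hse hh hc0 (by linarith) hlo coA mvBC mvAC coB h2 h1 h3 LA LB Lk Lk1
  · rcases le_total (1 - 1047 / 10000) a with har | har
    · exact tree2 hs hse e0.le e2 hc hgA hgB hh ha1 har hbr hab hc1 hlo hhi hW hWt ht1 hQ hlv hco
    · exact tree3 hs hse e0.le e2 hc hgA hgB hh ha1 har hbr hab hc1 hlo hhi hW hWt ht1 hQ hlv hco

end Tr2_aux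

/-- **item Tr2: the three-block lemma at the exponents of the second wave** -/
theorem iTr2 : StTr2 := by
  intro β hβ hβ1
  refine ⟨β ^ 2 / 10 ^ 7, by positivity, by nlinarith, ⌈20 / β⌉₊, ?_⟩
  intro a b c gA gB h tau W s hs hse ha hb hgA hgB hh ha1 hb1 hc0 hc1 hsum0 hsum1 hW hWt ht1 hLV hCO
  unfold r2 at hCO
  unfold c2 at hc1
  rcases le_total b a with hab | hab
  · exact Tr2_aux.core hβ hβ1 rfl hs hse hgA hgB hh ha1 hc0 hc1 hsum0 hsum1 hW hWt ht1 hLV hCO hab
  · refine Tr2_aux.core (a := b) (b := a) (gA := gB) (gB := gA) hβ hβ1 rfl hs hse hgB hgA hh hb1 hc0 hc1 (by linarith)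
      (by linarith) (by linarith) hWt ht1 ?_ ?_ hab
    · intro i j k h1 h2
      have := hLV j i k (by linarith) (by linarith)
      rw [show (i : ℝ) * b + j * a = j * a + i * b by ring, show (i : ℝ) * gB + j * gA = j * gA + i * gB by ring]
      exact this
    · intro i j k h2
      have := hCO j i k (by linarith)
      rw [show (i : ℝ) * b + j * a = j * a + i * b by ring, show (i : ℝ) * gB + j * gA = j * gA + i * gB by ring]
      exact this

end Pool.Agent.Work.MP_a8fbd7_nt.EX.CELL
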