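import Mathlib
import Pool.Agent.Work.MP_a8fbd7_nt.EX.CELL.Stmts2

/-!
MP_a8fbd7_nt, block EX, second wave (EX2), part CELL, item TrA: the three-block lemma for class A at `(r2, c2)`.
Case tree found by an exact linear programming branch and bound (every leaf is an infeasible linear programme; the
hypotheses used in a leaf are the support of the dual solution).  Author: helper51.
-/

set_option autoImplicit false

noncomputable section

namespace Pool.Agent.Work.MP_a8fbd7_nt.EX.CELL

open Pool.Agent.Work.MP_a8fbd7_nt.OX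
open Pool.Agent.Work.MP_a8fbd7_nt.EX

namespace TrA_aux

theorem mv_hi {l g tau s : ℝ} {Q : ℕ} (H : LVc l g tau s Q) (hl : 1 ≤ l) : tau ≤ 2 * g + s := by
  have h := H.mv
  rw [max_eq_left (by linarith)] at h
  linarith

theorem mv_lo {l g tau s : ℝ} {Q : ℕ} (H : LVc l g tau s Q) (hl : l ≤ 1) : tau ≤ 2 * g + (1 - l) + s := by
  have h := H.mv
  rw [max_eq_right (by linarith)] at h
  linarith

theorem hx_or {l g tau s : ℝ} {Q : ℕ} (H : LVc l g tau s Q) : tau ≤ 2 * g + s ∨ tau ≤ 1 + 6 * g - 2 * l + s := by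
  have h := H.hx
  rcases le_total (2 * g) (1 + 6 * g - 2 * l) with h1 | h1
  · rw [max_eq_right h1] at h; exact Or.inr h
  · rw [max_eq_left h1] at h; exact Or.inl h

theorem gm_or {l g tau s : ℝ} {Q : ℕ} (H : LVc l g tau s Q) (q : ℕ) (hq : 1 ≤ q) (hqQ : q ≤ Q) (hl : l ≤ 1) (hl2 : 1 + s ≤ 2 * l) :
    tau ≤ 2 * g + s ∨ tau ≤ (4 / 3 - 2 * l + 4 * g) + s ∨ tau ≤ (1 / 2 - l + 4 * g) + s ∨ tau ≤ (1 - 2 * l + 16 * g / 3) + s ∨
      tau ≤ (1 - 2 * l + 28 * g / 5) + s ∨ tau ≤ (3 / 2 - 3 * l + 7 * g) + s ∨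
      (q + 1) * (tau - s) ≤ 1 + q * (6 * g - l) ∨ (q + 1) * (tau - s) ≤ q * (1 - 2 * l + 6 * g) := by
  have h := H.gm q 1 hq hqQ hl hl2
  unfold GMx at h
  rw [sub_self, max_self] at h
  have h' : tau - s ≤ max (2 * g) (max (4 * 1 / 3 - 2 * l + 4 * g) (max (1 / 2 - l + 4 * g)
    (max (1 - 2 * l + 16 * g / 3) (max (1 - 2 * l + 28 * g / 5) (max (3 * 1 / 2 - 3 * l + 7 * g)
      (max ((q : ℝ) / (q + 1) * (1 / q - l + 6 * g)) ((q : ℝ) / (q + 1) * (1 - 2 * l + 6 * g)))))))) := by
    linarith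
  have hq0 : (0 : ℝ) < q := by exact_mod_cast hq
  simp only [le_max_iff] at h'
  rcases h' with h | h | h | h | h | h | h | h
  · left; linarith
  · right; left; linarith
  · right; right; left; linarith
  · right; right; right; left; linarith
  · right; right; right; right; left; linarith
  · right; right; right; right; right; left; linarith
  · right; right; right; right; right; right; left
    have h1 : (q + 1) * (tau - s) ≤ (q + 1) * ((q : ℝ) / (q + 1) * (1 / q - l + 6 * g)) :=
      mul_le_mul_of_nonneg_left h (by linarith)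
    have h2 : (q + 1) * ((q : ℝ) / (q + 1) * (1 / q - l + 6 * g)) = 1 + q * (6 * g - l) := by
      field_simp
      ring
    linarith
  · right; right; right; right; right; right; right
    have h1 : (q + 1) * (tau - s) ≤ (q + 1) * ((q : ℝ) / (q + 1) * (1 - 2 * l + 6 * g)) :=
      mul_le_mul_of_nonneg_left h (by linarith)
    have h2 : (q + 1) * ((q : ℝ) / (q + 1) * (1 - 2 * l + 6 * g)) = q * (1 - 2 * l + 6 * g) := by
      field_simp
    linarith

/-- the tree, for `b ≤ a` -/
theorem tree {κ2 a b c gA gB h tau W s e : ℝ} {Q : ℕ} (hκ : 0 < κ2) (heκ : e ≤ κ2 / 1000) (hs : 0 < s) (hse : s ≤ e) (he : e ≤ 1 / 1000000)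
    (ha0 : 0 < a) (hb0 : 0 < b) (hc0' : 0 < c) (gA0 : 0 ≤ gA) (gB0 : 0 ≤ gB) (h0 : 0 ≤ h) (hab : b ≤ a)
    (hnu : a + b + c ≤ 2 - κ2) (hac : 1 + 1047 / 10000 - e ≤ a + c) (hbc : 1 + 1047 / 10000 - e ≤ b + c) (hc0 : c ≤ 17 / 75 + e)
    (hW : gA + gB + h + 1 - (a + b + c) / 2 - s ≤ W) (hWt : W ≤ tau + s) (ht1 : tau ≤ 1 + s) (hQ : 20 ≤ Q)
    (hlv : ∀ i j k : ℕ, 0 < i * a + j * b + k * c → i * a + j * b + k * c ≤ 2 →
      LVc (i * a + j * b + k * c) (i * gA + j * gB + k * h) tau s Q)
    (hco : ∀ i j k : ℕ, i * a + j * b + k * c ≤ 2 →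
      COx (1047 / 10000) (i * a + j * b + k * c) (i * gA + j * gB + k * h) tau W s) : False := by
  have L_0_0_4 := hlv 0 0 4 (by push_cast; linarith) (by push_cast; linarith)
  simp only [Nat.cast_zero, Nat.cast_one, Nat.cast_ofNat, zero_mul, zero_add, one_mul, add_zero] at L_0_0_4
  have L_0_0_5 := hlv 0 0 5 (by push_cast; linarith) (by push_cast; linarith)
  simp only [Nat.cast_zero, Nat.cast_one, Nat.cast_ofNat, zero_mul, zero_add, one_mul, add_zero] at L_0_0_5
  have L_0_1_0 := hlv 0 1 0 (by push_cast; linarith) (by push_cast; linarith)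
  simp only [Nat.cast_zero, Nat.cast_one, Nat.cast_ofNat, zero_mul, zero_add, one_mul, add_zero] at L_0_1_0
  have L_0_2_0 := hlv 0 2 0 (by push_cast; linarith) (by push_cast; linarith)
  simp only [Nat.cast_zero, Nat.cast_one, Nat.cast_ofNat, zero_mul, zero_add, one_mul, add_zero] at L_0_2_0
  have L_1_0_0 := hlv 1 0 0 (by push_cast; linarith) (by push_cast; linarith)
  simp only [Nat.cast_zero, Nat.cast_one, Nat.cast_ofNat, zero_mul, zero_add, one_mul, add_zero] at L_1_0_0
  have L_2_0_0 := hlv 2 0 0 (by push_cast; linarith) (by push_cast; linarith)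
  simp only [Nat.cast_zero, Nat.cast_one, Nat.cast_ofNat, zero_mul, zero_add, one_mul, add_zero] at L_2_0_0
  have F_mv_0_0_4 := mv_lo L_0_0_4 (by linarith)
  have F_mv_0_0_5 := mv_hi L_0_0_5 (by linarith)
  have F_mv_0_1_0 := mv_lo L_0_1_0 (by linarith)
  have F_mv_0_2_0 := mv_hi L_0_2_0 (by linarith)
  have F_mv_1_0_0 := mv_lo L_1_0_0 (by linarith)
  have F_mv_2_0_0 := mv_hi L_2_0_0 (by linarith)
  have D_gm_0_0_4_q_7_t_1 := gm_or L_0_0_4 7 (by norm_num) (le_trans (by norm_num) hQ) (by linarith) (by linarith)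
  simp only [Nat.cast_ofNat] at D_gm_0_0_4_q_7_t_1
  have D_gm_0_0_4_q_8_t_1 := gm_or L_0_0_4 8 (by norm_num) (le_trans (by norm_num) hQ) (by linarith) (by linarith)
  simp only [Nat.cast_ofNat] at D_gm_0_0_4_q_8_t_1
  have D_gm_0_0_4_q_9_t_1 := gm_or L_0_0_4 9 (by norm_num) (le_trans (by norm_num) hQ) (by linarith) (by linarith)
  simp only [Nat.cast_ofNat] at D_gm_0_0_4_q_9_t_1
  have D_gm_0_0_4_q_10_t_1 := gm_or L_0_0_4 10 (by norm_num) (le_trans (by norm_num) hQ) (by linarith) (by linarith)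
  simp only [Nat.cast_ofNat] at D_gm_0_0_4_q_10_t_1
  have D_co_0_0_4 := hco 0 0 4 (by push_cast; linarith)
  simp only [COx, Nat.cast_zero, Nat.cast_one, Nat.cast_ofNat, zero_mul, zero_add, one_mul, add_zero] at D_co_0_0_4
  have D_gm_0_1_0_q_8_t_1 := gm_or L_0_1_0 8 (by norm_num) (le_trans (by norm_num) hQ) (by linarith) (by linarith)
  simp only [Nat.cast_ofNat] at D_gm_0_1_0_q_8_t_1
  have D_co_0_1_0 := hco 0 1 0 (by push_cast; linarith)
  simp only [COx, Nat.cast_zero, Nat.cast_one, Nat.cast_ofNat, zero_mul, zero_add, one_mul, add_zero] at D_co_0_1_0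
  have D_co_0_1_1 := hco 0 1 1 (by push_cast; linarith)
  simp only [COx, Nat.cast_zero, Nat.cast_one, Nat.cast_ofNat, zero_mul, zero_add, one_mul, add_zero] at D_co_0_1_1
  have D_hx_1_0_0 := hx_or L_1_0_0
  have D_gm_1_0_0_q_9_t_1 := gm_or L_1_0_0 9 (by norm_num) (le_trans (by norm_num) hQ) (by linarith) (by linarith)
  simp only [Nat.cast_ofNat] at D_gm_1_0_0_q_9_t_1
  have D_co_1_0_0 := hco 1 0 0 (by push_cast; linarith)
  simp only [COx, Nat.cast_zero, Nat.cast_one, Nat.cast_ofNat, zero_mul, zero_add, one_mul, add_zero] at D_co_1_0_0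
  rcases D_hx_1_0_0 with n5 | n5
  · skip
    rcases D_co_0_1_1 with n6 | n6
    · linarith
    · linarith only [hs, hse, he, hκ, hW, hbc, hnu, n5, n6]
  · skip
    rcases D_co_0_1_0 with n6 | n6
    · skip
      rcases D_gm_0_0_4_q_10_t_1 with n7 | n7 | n7 | n7 | n7 | n7 | n7 | n7
      · linarith only [hs, hse, he, hκ, F_mv_1_0_0, hW, hab, hc0, hnu, n5, n6, n7]
      · linarith only [hs, hse, he, hκ, F_mv_0_0_5, F_mv_1_0_0, hW, hab, hnu, n5, n6, n7]
      · linarith only [hs, hse, he, hκ, F_mv_0_0_5, F_mv_1_0_0, hW, hab, hnu, n5, n6, n7]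
      · linarith only [hs, hse, he, hκ, F_mv_1_0_0, hW, hab, hbc, hnu, n5, n6, n7]
      · linarith only [hs, hse, he, hκ, F_mv_0_0_5, F_mv_1_0_0, hW, hab, hnu, n5, n6, n7]
      · linarith only [hs, hse, he, hκ, F_mv_0_0_5, F_mv_1_0_0, hW, hab, hnu, n5, n6, n7]
      · linarith only [hs, hse, he, hκ, F_mv_1_0_0, hW, hab, hc0, hnu, n5, n6, n7]
      · linarith only [hs, hse, he, hκ, F_mv_0_0_5, F_mv_1_0_0, hW, hab, hnu, n5, n6, n7]
    · skip
      rcases D_gm_1_0_0_q_9_t_1 with n8 | n8 | n8 | n8 | n8 | n8 | n8 | n8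
      · linarith only [hs, hse, he, hκ, F_mv_0_0_4, hW, hbc, hnu, n5, n6, n8]
      · linarith only [hs, hse, he, hκ, F_mv_0_0_4, F_mv_1_0_0, hW, n6, n8]
      · linarith only [hs, hse, he, hκ, F_mv_0_0_4, F_mv_1_0_0, hW, hbc, hnu, n6, n8]
      · linarith only [hs, hse, he, hκ, F_mv_0_0_4, F_mv_1_0_0, hW, hbc, hnu, n6, n8]
      · linarith only [hs, hse, he, hκ, F_mv_0_0_4, F_mv_1_0_0, hW, hbc, hnu, n6, n8]
      · linarith only [hs, hse, he, hκ, F_mv_0_0_4, F_mv_1_0_0, hW, hbc, hnu, n6, n8]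
      · skip
        rcases D_gm_0_0_4_q_7_t_1 with n9 | n9 | n9 | n9 | n9 | n9 | n9 | n9
        · linarith only [hs, hse, he, hκ, F_mv_1_0_0, hW, hbc, hc0, hnu, n6, n8, n9]
        · linarith only [hs, hse, he, hκ, F_mv_1_0_0, hW, hbc, hnu, n6, n8, n9]
        · linarith only [hs, hse, he, hκ, F_mv_1_0_0, hW, hbc, hc0, hnu, n6, n8, n9]
        · linarith only [hs, hse, he, hκ, F_mv_1_0_0, hW, hbc, hc0, hnu, n6, n8, n9]
        · linarith only [hs, hse, he, hκ, F_mv_1_0_0, hW, hbc, hc0, hnu, n6, n8, n9]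
        · linarith only [hs, hse, he, hκ, F_mv_1_0_0, hW, hbc, hc0, hnu, n6, n8, n9]
        · skip
          rcases D_gm_0_0_4_q_8_t_1 with n10 | n10 | n10 | n10 | n10 | n10 | n10 | n10
          · linarith only [hs, hse, he, hκ, F_mv_1_0_0, hW, hbc, hc0, hnu, n10, n6, n8]
          · linarith only [hs, hse, he, hκ, F_mv_1_0_0, hW, hbc, hnu, n10, n6, n8]
          · linarith only [hs, hse, he, hκ, F_mv_1_0_0, hW, hbc, hc0, hnu, n10, n6, n8]
          · linarith only [hs, hse, he, hκ, F_mv_1_0_0, hW, hbc, hc0, hnu, n10, n6, n8]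
          · linarith only [hs, hse, he, hκ, F_mv_1_0_0, hW, hbc, hc0, hnu, n10, n6, n8]
          · linarith only [hs, hse, he, hκ, F_mv_1_0_0, hW, hbc, hc0, hnu, n10, n6, n8]
          · skip
            rcases D_gm_0_0_4_q_9_t_1 with n11 | n11 | n11 | n11 | n11 | n11 | n11 | n11
            · linarith only [hs, hse, he, hκ, F_mv_1_0_0, hW, hbc, hc0, hnu, n11, n6, n8]
            · linarith only [hs, hse, he, hκ, F_mv_1_0_0, hW, hbc, hnu, n11, n6, n8]
            · linarith only [hs, hse, he, hκ, F_mv_1_0_0, hW, hbc, hc0, hnu, n11, n6, n8]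
            · linarith only [hs, hse, he, hκ, F_mv_1_0_0, hW, hbc, hc0, hnu, n11, n6, n8]
            · linarith only [hs, hse, he, hκ, F_mv_1_0_0, hW, hbc, hc0, hnu, n11, n6, n8]
            · linarith only [hs, hse, he, hκ, F_mv_1_0_0, hW, hbc, hc0, hnu, n11, n6, n8]
            · skip
              rcases D_gm_0_1_0_q_8_t_1 with n12 | n12 | n12 | n12 | n12 | n12 | n12 | n12
              · linarith only [hs, hse, he, hκ, F_mv_0_0_4, F_mv_1_0_0, hW, hWt, hab, hnu, n11, n12, n8]
              · skip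
                rcases D_co_0_0_4 with n13 | n13
                · linarith only [hs, hse, he, hκ, F_mv_1_0_0, hW, hbc, hc0, hnu, n12, n13, n6, n8]
                · linarith only [hs, hse, he, hκ, F_mv_1_0_0, hW, hbc, hnu, n12, n13, n6, n8]
              · skip
                rcases D_co_0_0_4 with n13 | n13
                · linarith only [hs, hse, he, hκ, F_mv_1_0_0, hW, hbc, hc0, hnu, n12, n13, n6, n8]
                · linarith only [hs, hse, he, hκ, F_mv_1_0_0, hW, hbc, hnu, n11, n12, n13, n6, n8]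
              · skip
                rcases D_co_0_0_4 with n13 | n13
                · linarith only [hs, hse, he, hκ, F_mv_1_0_0, hW, hbc, hc0, hnu, n12, n13, n6, n8]
                · linarith only [hs, hse, he, hκ, F_mv_0_0_5, F_mv_1_0_0, hW, hbc, hnu, n12, n13, n6, n8]
              · skip
                rcases D_co_0_0_4 with n13 | n13
                · linarith only [hs, hse, he, hκ, F_mv_1_0_0, hW, hbc, hc0, hnu, n12, n13, n6, n8]
                · linarith only [hs, hse, he, hκ, F_mv_1_0_0, hW, hbc, hnu, n11, n12, n13, n6, n8]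
              · skip
                rcases D_co_0_0_4 with n13 | n13
                · linarith only [hs, hse, he, hκ, F_mv_1_0_0, hW, hbc, hc0, hnu, n12, n13, n6, n8]
                · linarith only [hs, hse, he, hκ, F_mv_0_0_5, F_mv_1_0_0, hW, hbc, hnu, n12, n13, n6, n8]
              · skip
                rcases D_co_1_0_0 with n13 | n13
                · linarith only [hs, hse, he, hκ, F_mv_0_0_4, F_mv_1_0_0, hW, hbc, hnu, n11, n12, n13, n6]
                · linarith only [hs, hse, he, hκ, F_mv_0_0_4, F_mv_1_0_0, hW, hnu, n11, n12, n13, n6, n8]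
              · skip
                rcases D_co_1_0_0 with n13 | n13
                · linarith only [hs, hse, he, hκ, F_mv_0_0_4, F_mv_1_0_0, hW, hbc, hnu, n11, n12, n13, n6]
                · linarith only [hs, hse, he, hκ, F_mv_0_0_4, F_mv_1_0_0, hW, hab, hnu, n11, n12, n13, n6]
            · skip
              rcases D_gm_0_1_0_q_8_t_1 with n12 | n12 | n12 | n12 | n12 | n12 | n12 | n12
              · linarith only [hs, hse, he, hκ, F_mv_1_0_0, hW, hWt, hab, hnu, n10, n11, n12, n8]
              · skip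
                rcases D_co_1_0_0 with n13 | n13
                · linarith only [hs, hse, he, hκ, F_mv_0_0_4, F_mv_1_0_0, hW, hbc, hnu, n12, n13, n6]
                · linarith only [hs, hse, he, hκ, F_mv_0_0_4, F_mv_0_1_0, hW, n12, n13]
              · skip
                rcases D_co_1_0_0 with n13 | n13
                · linarith only [hs, hse, he, hκ, F_mv_0_0_4, F_mv_0_0_5, F_mv_1_0_0, hW, hbc, hnu, n12, n13, n6]
                · linarith only [hs, hse, he, hκ, F_mv_0_0_4, F_mv_0_0_5, F_mv_0_1_0, hW, hab, hnu, n12, n13]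
              · skip
                rcases D_co_1_0_0 with n13 | n13
                · linarith only [hs, hse, he, hκ, F_mv_0_0_4, F_mv_0_0_5, F_mv_1_0_0, hW, hbc, hnu, n12, n13, n6]
                · linarith only [hs, hse, he, hκ, F_mv_0_0_4, F_mv_0_0_5, F_mv_1_0_0, hW, hab, hnu, n12, n13, n6]
              · skip
                rcases D_co_1_0_0 with n13 | n13
                · linarith only [hs, hse, he, hκ, F_mv_0_0_4, F_mv_0_0_5, F_mv_1_0_0, hW, hbc, hnu, n12, n13, n6]
                · linarith only [hs, hse, he, hκ, F_mv_0_0_4, F_mv_0_0_5, F_mv_1_0_0, hW, hab, hnu, n12, n13, n6]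
              · skip
                rcases D_co_1_0_0 with n13 | n13
                · linarith only [hs, hse, he, hκ, F_mv_0_0_4, F_mv_0_0_5, F_mv_1_0_0, hW, hbc, hnu, n12, n13, n6]
                · linarith only [hs, hse, he, hκ, F_mv_0_0_4, F_mv_0_0_5, F_mv_0_1_0, hW, hab, hnu, n12, n13]
              · skip
                rcases D_co_1_0_0 with n13 | n13
                · linarith only [hs, hse, he, hκ, F_mv_0_0_4, F_mv_1_0_0, hW, hbc, hnu, n11, n12, n13, n6]
                · linarith only [hs, hse, he, hκ, F_mv_0_0_4, F_mv_0_1_0, hW, hnu, n11, n12, n13, n6, n8]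
              · skip
                rcases D_co_1_0_0 with n13 | n13
                · linarith only [hs, hse, he, hκ, F_mv_0_0_4, F_mv_1_0_0, hW, hbc, hnu, n10, n12, n13, n6]
                · linarith only [hs, hse, he, hκ, F_mv_0_0_4, F_mv_0_1_0, hW, hab, hnu, n10, n12, n13]
          · skip
            rcases D_gm_0_1_0_q_8_t_1 with n11 | n11 | n11 | n11 | n11 | n11 | n11 | n11
            · linarith only [hs, hse, he, hκ, F_mv_0_0_5, F_mv_1_0_0, hW, hWt, hab, hnu, n10, n11, n8]
            · skip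
              rcases D_co_1_0_0 with n12 | n12
              · linarith only [hs, hse, he, hκ, F_mv_0_0_4, F_mv_1_0_0, hW, hbc, hnu, n11, n12, n6]
              · linarith only [hs, hse, he, hκ, F_mv_0_0_4, F_mv_0_1_0, hW, n11, n12]
            · skip
              rcases D_co_1_0_0 with n12 | n12
              · linarith only [hs, hse, he, hκ, F_mv_0_0_4, F_mv_0_0_5, F_mv_1_0_0, hW, hbc, hnu, n11, n12, n6]
              · linarith only [hs, hse, he, hκ, F_mv_0_0_4, F_mv_0_0_5, F_mv_0_1_0, hW, hab, hnu, n11, n12]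
            · skip
              rcases D_co_1_0_0 with n12 | n12
              · linarith only [hs, hse, he, hκ, F_mv_0_0_4, F_mv_0_0_5, F_mv_1_0_0, hW, hbc, hnu, n11, n12, n6]
              · linarith only [hs, hse, he, hκ, F_mv_0_0_4, F_mv_0_0_5, F_mv_1_0_0, hW, hab, hnu, n11, n12, n6]
            · skip
              rcases D_co_1_0_0 with n12 | n12
              · linarith only [hs, hse, he, hκ, F_mv_0_0_4, F_mv_0_0_5, F_mv_1_0_0, hW, hbc, hnu, n11, n12, n6]
              · linarith only [hs, hse, he, hκ, F_mv_0_0_4, F_mv_0_0_5, F_mv_1_0_0, hW, hab, hnu, n11, n12, n6]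
            · skip
              rcases D_co_1_0_0 with n12 | n12
              · linarith only [hs, hse, he, hκ, F_mv_0_0_4, F_mv_0_0_5, F_mv_1_0_0, hW, hbc, hnu, n11, n12, n6]
              · linarith only [hs, hse, he, hκ, F_mv_0_0_4, F_mv_0_0_5, F_mv_0_1_0, hW, hab, hnu, n11, n12]
            · skip
              rcases D_co_1_0_0 with n12 | n12
              · linarith only [hs, hse, he, hκ, F_mv_0_0_4, F_mv_1_0_0, hW, hbc, hnu, n10, n11, n12, n6]
              · linarith only [hs, hse, he, hκ, F_mv_0_0_4, F_mv_1_0_0, hW, hnu, n10, n11, n12, n6, n8]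
            · skip
              rcases D_co_1_0_0 with n12 | n12
              · linarith only [hs, hse, he, hκ, F_mv_0_0_4, F_mv_1_0_0, hW, hbc, hnu, n10, n11, n12, n6]
              · linarith only [hs, hse, he, hκ, F_mv_0_0_4, F_mv_0_1_0, hW, hab, hnu, n10, n11, n12]
        · linarith only [hs, hse, he, hκ, F_mv_1_0_0, hW, hbc, hc0, hnu, n6, n8, n9]
      · linarith only [hs, hse, he, hκ, F_mv_0_0_4, F_mv_1_0_0, hW, hbc, hnu, n6, n8]

end TrA_aux

open TrA_aux in
theorem iTrA : StTrA := by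
  intro κ2 hκ hκ1
  refine ⟨κ2 / 100000, by positivity, by linarith, 20, ?_⟩
  intro a b c gA gB h tau W s hs hse ha hb hc hgA hgB hh hν hac hbc hc0 hW hWt ht1 hlv hco
  simp only [r2] at hac hbc hco
  simp only [c2] at hc0
  rcases le_total b a with hab | hab
  · exact tree hκ (by linarith) hs hse (by linarith) ha hb hc hgA hgB hh hab hν hac hbc hc0 hW hWt ht1 le_rfl hlv hco
  · refine tree (a := b) (b := a) (gA := gB) (gB := gA) (c := c) (h := h) hκ (e := κ2 / 100000) (by linarith) hs hse (by linarith)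
      hb ha hc hgB hgA hh hab (by linarith) hbc hac hc0 (by linarith) hWt ht1 le_rfl ?_ ?_
    · intro i j k h1 h2
      have := hlv j i k (by linarith) (by linarith)
      rwa [add_comm ((j : ℝ) * a), add_comm ((j : ℝ) * gA)] at this
    · intro i j k h2
      have := hco j i k (by linarith)
      rwa [add_comm ((j : ℝ) * a), add_comm ((j : ℝ) * gA)] at this

end Pool.Agent.Work.MP_a8fbd7_nt.EX.CELL
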