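import Mathlib
import Pool.Agent.Work.MP_a8fbd7_nt.EX.CELL.Stmts

/-!
MP_a8fbd7_nt, block EX, part CELL, item XAi: the logic of cell theorem XA (`StXA`).
Author: helper79.
-/

set_option autoImplicit false

open MeasureTheory Set Filter Topology

noncomputable section

namespace Pool.Agent.Work.MP_a8fbd7_nt.EX.CELL

open Pool.Agent.Work.MP_a8fbd7_nt.OX
open Pool.Agent.Work.MP_a8fbd7_nt.EX

namespace XAi_aux

/-- a sum over a subset as a weighted sum over all indices -/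
theorem sum_ind {m : ℕ} (A : Finset (Fin m)) (b : Fin m → ℝ) :
    ∑ i, (((if i ∈ A then 1 else 0 : ℕ) : ℕ) : ℝ) * b i = ∑ i ∈ A, b i := by
  classical
  have h1 : ∀ i : Fin m, (((if i ∈ A then 1 else 0 : ℕ) : ℕ) : ℝ) * b i = if i ∈ A then b i else 0 := by
    intro i
    by_cases hi : i ∈ A
    · simp [hi]
    · simp [hi]
  rw [Finset.sum_congr rfl (fun i _ => h1 i)]
  simp

/-- the same for the complement -/
theorem sum_ind_compl {m : ℕ} (A : Finset (Fin m)) (b : Fin m → ℝ) :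
    ∑ i, (((if i ∈ A then 0 else 1 : ℕ) : ℕ) : ℝ) * b i = ∑ i, b i - ∑ i ∈ A, b i := by
  classical
  have h1 : ∀ i : Fin m, (((if i ∈ A then 0 else 1 : ℕ) : ℕ) : ℝ) * b i = b i - (if i ∈ A then b i else 0) := by
    intro i
    by_cases hi : i ∈ A
    · simp [hi]
    · simp [hi]
  rw [Finset.sum_congr rfl (fun i _ => h1 i), Finset.sum_sub_distrib]
  simp

/-- the key inequality -/
theorem key {m : ℕ} {b w : Fin m → ℝ} {r tau W s : ℝ} {Q : ℕ} (hb : ∀ i, 0 < b i)
    (hν : ∑ i, b i ≤ 2) (hs : 0 < s) (hW : ∑ i, w i + 1 - (∑ i, b i) / 2 - s ≤ W)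
    (hC : ClsX b w r tau W s Q) (A : Finset (Fin m)) :
    2 - ∑ i, b i ≤ max 0 (1 - ∑ i ∈ A, b i) + max 0 (1 - r - (∑ i, b i - ∑ i ∈ A, b i)) + 4 * s := by
  classical
  have hsub : ∑ i ∈ A, b i ≤ ∑ i, b i :=
    Finset.sum_le_sum_of_subset_of_nonneg (Finset.subset_univ A) (fun i _ _ => (hb i).le)
  have hA0 : 0 ≤ ∑ i ∈ A, b i := Finset.sum_nonneg (fun i _ => (hb i).le)
  -- mean value for `A`
  have hmv : tau ≤ 2 * ∑ i ∈ A, w i + max 0 (1 - ∑ i ∈ A, b i) + s := by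
    rcases A.eq_empty_or_nonempty with hA | hA
    · subst hA
      simp only [Finset.sum_empty, mul_zero, zero_add, sub_zero]
      have := hC.t1
      have h1 : (1 : ℝ) ≤ max 0 1 := le_max_right _ _
      linarith
    · have hpos : 0 < ∑ i ∈ A, b i := Finset.sum_pos (fun i _ => hb i) hA
      have h := hC.lv (fun i => if i ∈ A then 1 else 0)
      rw [sum_ind A b, sum_ind A w] at h
      exact (h hpos (by linarith)).mv
  -- collisions for the complement
  have hco : 2 * W ≤ tau + 2 * (∑ i, w i - ∑ i ∈ A, w i) + max 0 (1 - r - (∑ i, b i - ∑ i ∈ A, b i)) + s := by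
    have h := hC.co (fun i => if i ∈ A then 0 else 1)
    rw [sum_ind_compl A b, sum_ind_compl A w] at h
    rcases h (by linarith) with h1 | h1
    · have := le_max_left (0 : ℝ) (1 - r - (∑ i, b i - ∑ i ∈ A, b i))
      linarith
    · have := le_max_right (0 : ℝ) (1 - r - (∑ i, b i - ∑ i ∈ A, b i))
      linarith
  linarith

/-- a good set gives a contradiction -/
theorem good {m : ℕ} {b w : Fin m → ℝ} {r tau W s δ κ2 : ℝ} {Q : ℕ} (hb : ∀ i, 0 < b i)
    (hκ : 0 < κ2) (hν : ∑ i, b i ≤ 2 - κ2) (hs : 0 < s) (h4 : 4 * s < δ) (hδr : δ ≤ r) (hδκ : δ ≤ κ2)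
    (hW : ∑ i, w i + 1 - (∑ i, b i) / 2 - s ≤ W)
    (hC : ClsX b w r tau W s Q) (A : Finset (Fin m)) (h1 : ∑ i ∈ A, b i ≤ 1 + r - δ)
    (h2 : ∑ i, b i - ∑ i ∈ A, b i ≤ 1 - δ ∨ 1 ≤ ∑ i ∈ A, b i) : False := by
  have hk := key hb (by linarith) hs hW hC A
  rcases max_cases (0 : ℝ) (1 - ∑ i ∈ A, b i) with ⟨e1, f1⟩ | ⟨e1, f1⟩ <;>
  rcases max_cases (0 : ℝ) (1 - r - (∑ i, b i - ∑ i ∈ A, b i)) with ⟨e2, f2⟩ | ⟨e2, f2⟩ <;>
  rw [e1, e2] at hk
  · linarith
  · linarith
  · rcases h2 with h2 | h2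
    · linarith
    · linarith
  · linarith

/-- sum over the complement -/
theorem sum_compl {m : ℕ} (b : Fin m → ℝ) (A : Finset (Fin m)) :
    ∑ i ∈ Aᶜ, b i = ∑ i, b i - ∑ i ∈ A, b i := by
  classical
  have := Finset.sum_add_sum_compl A b
  linarith

end XAi_aux

open XAi_aux in
open Classical in
theorem iXAi : StXAi := by
  intro r c0 hr hr4 hc0 hc0r κ2 hκ2 hκ20
  set μ : ℝ := min κ2 r with hμdef
  have hμ0 : 0 < μ := lt_min hκ2 hr
  have hμκ : μ ≤ κ2 := min_le_left _ _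
  have hμr : μ ≤ r := min_le_right _ _
  refine ⟨μ / 100, by positivity, by linarith, μ / 50, by positivity, 0, ?_⟩
  intro m b w g tau W s hs hs0 hb hν h0 h1 h2 hW hC
  -- the notion of good set
  have hgood : ∀ A : Finset (Fin m), ∑ i ∈ A, b i ≤ 1 + r - μ / 10 →
      (∑ i, b i - ∑ i ∈ A, b i ≤ 1 - μ / 10 ∨ 1 ≤ ∑ i ∈ A, b i) → False := fun A p q =>
    good hb hκ2 hν hs (δ := μ / 10) (by linarith) (by linarith) (by linarith) hW hC A p q
  set G0 : Finset (Fin m) := Finset.univ.filter (fun i => g i = 0) with hG0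
  set G1 : Finset (Fin m) := Finset.univ.filter (fun i => g i = 1) with hG1
  set G2 : Finset (Fin m) := Finset.univ.filter (fun i => g i = 2) with hG2
  have hd02 : Disjoint G0 G2 := by
    rw [Finset.disjoint_left]
    intro i hi hj
    rw [hG0, Finset.mem_filter] at hi
    rw [hG2, Finset.mem_filter] at hj
    have := hi.2.symm.trans hj.2
    exact absurd this (by decide)
  -- a maximal set
  obtain ⟨X, hX, hXmax⟩ : ∃ X ∈ G2.powerset.filter (fun X => ∑ i ∈ G0, b i + ∑ i ∈ X, b i ≤ 1 + 3 * (μ / 100)),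
      ∀ Y ∈ G2.powerset.filter (fun X => ∑ i ∈ G0, b i + ∑ i ∈ X, b i ≤ 1 + 3 * (μ / 100)), Y.card ≤ X.card := by
    apply Finset.exists_max_image
    refine ⟨∅, ?_⟩
    rw [Finset.mem_filter]
    refine ⟨Finset.empty_mem_powerset _, ?_⟩
    simpa using h0
  rw [Finset.mem_filter, Finset.mem_powerset] at hX
  obtain ⟨hXG, hXs⟩ := hX
  have hdX : Disjoint G0 X := Finset.disjoint_of_subset_right hXG hd02
  set A : Finset (Fin m) := G0 ∪ X with hA
  have hAs : ∑ i ∈ A, b i = ∑ i ∈ G0, b i + ∑ i ∈ X, b i := Finset.sum_union hdX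
  have hAle : ∑ i ∈ A, b i ≤ 1 + 3 * (μ / 100) := by rw [hAs]; exact hXs
  by_cases ha1 : 1 ≤ ∑ i ∈ A, b i
  · exact hgood A (by linarith) (Or.inr ha1)
  by_cases hb1 : ∑ i, b i - ∑ i ∈ A, b i ≤ 1 - μ / 10
  · exact hgood A (by linarith) (Or.inl hb1)
  push Not at ha1 hb1
  have haδ : ∑ i ∈ A, b i ≤ 1 - μ / 10 := by linarith
  by_cases hb2 : ∑ i, b i - ∑ i ∈ A, b i ≤ 1 + r - μ / 10
  · refine hgood Aᶜ ?_ ?_
    · rw [sum_compl]; exact hb2
    · left; rw [sum_compl]; linarith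
  push Not at hb2
  -- now there is an element of `G2` outside `X`
  have hex : ∃ p ∈ G2, p ∉ X := by
    by_contra hcon
    push Not at hcon
    have hXeq : X = G2 := Finset.Subset.antisymm hXG hcon
    have hcompl : Aᶜ = G1 := by
      ext i
      rw [Finset.mem_compl, hA, Finset.mem_union, hXeq, hG0, hG1, hG2, Finset.mem_filter, Finset.mem_filter,
        Finset.mem_filter]
      have h3 : ∀ x : Fin 3, (¬ ((True ∧ x = 0) ∨ (True ∧ x = 2))) ↔ (True ∧ x = 1) := by decide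
      simpa using h3 (g i)
    have := sum_compl b A
    rw [hcompl] at this
    linarith
  obtain ⟨p, hpG, hpX⟩ := hex
  have hpA : p ∉ A := by
    rw [hA, Finset.mem_union]
    rintro (h | h)
    · exact (Finset.disjoint_left.mp hd02 h) hpG
    · exact hpX h
  have hbp : b p ≤ c0 + μ / 100 := by
    apply h2 p
    rw [hG2, Finset.mem_filter] at hpG
    exact hpG.2
  have hbig : 1 + 3 * (μ / 100) < ∑ i ∈ A, b i + b p := by
    by_contra hcon
    push Not at hcon
    have hins : insert p X ∈ G2.powerset.filter (fun X => ∑ i ∈ G0, b i + ∑ i ∈ X, b i ≤ 1 + 3 * (μ / 100)) := by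
      rw [Finset.mem_filter, Finset.mem_powerset]
      refine ⟨Finset.insert_subset hpG hXG, ?_⟩
      rw [Finset.sum_insert hpX]
      rw [hAs] at hcon
      linarith
    have := hXmax _ hins
    rw [Finset.card_insert_of_notMem hpX] at this
    omega
  have hsum : ∑ i ∈ insert p A, b i = b p + ∑ i ∈ A, b i := Finset.sum_insert hpA
  refine hgood (insert p A) ?_ ?_
  · rw [hsum]; linarith
  · right; rw [hsum]; linarith

end Pool.Agent.Work.MP_a8fbd7_nt.EX.CELL
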