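import Mathlib
import Pool.Agent.Work.MP_a8fbd7_nt.EX.CELL.Stmts2
import Pool.Agent.Work.MP_a8fbd7_nt.EX.CELL.I_XAi

/-!
MP_a8fbd7_nt, block EX, second wave (EX2), part CELL, item XAi2: the logic of cell theorem XA for `c0 > 2 r`.
Author: helper81.
-/

set_option autoImplicit false

open MeasureTheory Set Filter Topology

noncomputable section

namespace Pool.Agent.Work.MP_a8fbd7_nt.EX.CELL

open Pool.Agent.Work.MP_a8fbd7_nt.OX
open Pool.Agent.Work.MP_a8fbd7_nt.EX

namespace XAi2_aux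

open XAi_aux

/-- exponent vector constant on three parts `A`, `(insert p A)ᶜ`, `{p}` -/
def wt {m : ℕ} (A : Finset (Fin m)) (p : Fin m) (i j k : ℕ) : Fin m → ℕ := by
  classical
  exact fun x => if x ∈ A then i else if x = p then k else j

open Classical in
/-- weighted sum for three parts -/
theorem wsum {m : ℕ} (A : Finset (Fin m)) (p : Fin m) (hp : p ∉ A) (i j k : ℕ) (b : Fin m → ℝ) :
    ∑ x, (wt A p i j k x : ℝ) * b x = i * ∑ x ∈ A, b x + j * ∑ x ∈ (insert p A)ᶜ, b x + k * b p := by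
  rw [← Finset.sum_add_sum_compl (insert p A) (fun x => (wt A p i j k x : ℝ) * b x), Finset.sum_insert hp]
  have h1 : ∑ x ∈ A, (wt A p i j k x : ℝ) * b x = i * ∑ x ∈ A, b x := by
    rw [Finset.mul_sum]
    refine Finset.sum_congr rfl (fun x hx => ?_)
    simp [wt, hx]
  have h2 : ∑ x ∈ (insert p A)ᶜ, (wt A p i j k x : ℝ) * b x = j * ∑ x ∈ (insert p A)ᶜ, b x := by
    rw [Finset.mul_sum]
    refine Finset.sum_congr rfl (fun x hx => ?_)
    rw [Finset.mem_compl, Finset.mem_insert, not_or] at hx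
    simp [wt, hx.1, hx.2]
  have h3 : (wt A p i j k p : ℝ) = k := by simp [wt, hp]
  rw [h1, h2, h3]
  ring

end XAi2_aux

open XAi_aux XAi2_aux in
open Classical in
theorem iXAi2 : StXAi2 := by
  intro r c0 hr hr4 hc0 hc0r hTri κ2 hκ2 hκ20
  obtain ⟨e, he, heκ, Q, hQ⟩ := hTri κ2 hκ2 hκ20
  set μ : ℝ := min (min κ2 r) e with hμdef
  have hμ0 : 0 < μ := lt_min (lt_min hκ2 hr) he
  have hμκ : μ ≤ κ2 := (min_le_left _ _).trans (min_le_left _ _)
  have hμr : μ ≤ r := (min_le_left _ _).trans (min_le_right _ _)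
  have hμe : μ ≤ e := min_le_right _ _
  refine ⟨μ / 100, by positivity, by linarith, μ / 50, by positivity, Q, ?_⟩
  intro m b w g tau W s hs hs0 hb hν h0 h1 h2 hW hC
  -- the notion of good set
  have hgood : ∀ A : Finset (Fin m), ∑ i ∈ A, b i ≤ 1 + r - μ / 10 →
      (∑ i, b i - ∑ i ∈ A, b i ≤ 1 - μ / 10 ∨ 1 ≤ ∑ i ∈ A, b i) → False := fun A p q =>
    good hb hκ2 hν hs (δ := μ / 10) (by linarith) (by linarith) (by linarith) hW hC A p q
  set G0 : Finset (Fin m) := Finset.univ.filter (fun i => g i = 0) with hG0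
  set G1 : Finset (Fin m) := Finset.univ.filter (fun i => g i = 1) with hG1
  set G2 : Finset (Fin m) := Finset.univ.filter (fun i => g i = 2) with hG2
  have hd02 : Disjoint G0 G2 := by
    rw [Finset.disjoint_left]
    intro i hi hj
    rw [hG0, Finset.mem_filter] at hi
    rw [hG2, Finset.mem_filter] at hj
    have := hi.2.symm.trans hj.2
    exact absurd this (by decide)
  -- a maximal set
  obtain ⟨X, hX, hXmax⟩ : ∃ X ∈ G2.powerset.filter (fun X => ∑ i ∈ G0, b i + ∑ i ∈ X, b i ≤ 1 + 3 * (μ / 100)),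
      ∀ Y ∈ G2.powerset.filter (fun X => ∑ i ∈ G0, b i + ∑ i ∈ X, b i ≤ 1 + 3 * (μ / 100)), Y.card ≤ X.card := by
    apply Finset.exists_max_image
    refine ⟨∅, ?_⟩
    rw [Finset.mem_filter]
    refine ⟨Finset.empty_mem_powerset _, ?_⟩
    simpa using h0
  rw [Finset.mem_filter, Finset.mem_powerset] at hX
  obtain ⟨hXG, hXs⟩ := hX
  have hdX : Disjoint G0 X := Finset.disjoint_of_subset_right hXG hd02
  set A : Finset (Fin m) := G0 ∪ X with hA
  have hAs : ∑ i ∈ A, b i = ∑ i ∈ G0, b i + ∑ i ∈ X, b i := Finset.sum_union hdX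
  have hAle : ∑ i ∈ A, b i ≤ 1 + 3 * (μ / 100) := by rw [hAs]; exact hXs
  by_cases ha1 : 1 ≤ ∑ i ∈ A, b i
  · exact hgood A (by linarith) (Or.inr ha1)
  by_cases hb1 : ∑ i, b i - ∑ i ∈ A, b i ≤ 1 - μ / 10
  · exact hgood A (by linarith) (Or.inl hb1)
  push Not at ha1 hb1
  have haδ : ∑ i ∈ A, b i ≤ 1 - μ / 10 := by linarith
  by_cases hb2 : ∑ i, b i - ∑ i ∈ A, b i ≤ 1 + r - μ / 10
  · refine hgood Aᶜ ?_ ?_
    · rw [sum_compl]; exact hb2
    · left; rw [sum_compl]; linarith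
  push Not at hb2
  -- now there is an element of `G2` outside `X`
  have hex : ∃ p ∈ G2, p ∉ X := by
    by_contra hcon
    push Not at hcon
    have hXeq : X = G2 := Finset.Subset.antisymm hXG hcon
    have hcompl : Aᶜ = G1 := by
      ext i
      rw [Finset.mem_compl, hA, Finset.mem_union, hXeq, hG0, hG1, hG2, Finset.mem_filter, Finset.mem_filter,
        Finset.mem_filter]
      have h3 : ∀ x : Fin 3, (¬ ((True ∧ x = 0) ∨ (True ∧ x = 2))) ↔ (True ∧ x = 1) := by decide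
      simpa using h3 (g i)
    have := sum_compl b A
    rw [hcompl] at this
    linarith
  obtain ⟨p, hpG, hpX⟩ := hex
  have hpA : p ∉ A := by
    rw [hA, Finset.mem_union]
    rintro (h | h)
    · exact (Finset.disjoint_left.mp hd02 h) hpG
    · exact hpX h
  have hbp : b p ≤ c0 + μ / 100 := by
    apply h2 p
    rw [hG2, Finset.mem_filter] at hpG
    exact hpG.2
  have hbig : 1 + 3 * (μ / 100) < ∑ i ∈ A, b i + b p := by
    by_contra hcon
    push Not at hcon
    have hins : insert p X ∈ G2.powerset.filter (fun X => ∑ i ∈ G0, b i + ∑ i ∈ X, b i ≤ 1 + 3 * (μ / 100)) := by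
      rw [Finset.mem_filter, Finset.mem_powerset]
      refine ⟨Finset.insert_subset hpG hXG, ?_⟩
      rw [Finset.sum_insert hpX]
      rw [hAs] at hcon
      linarith
    have := hXmax _ hins
    rw [Finset.card_insert_of_notMem hpX] at this
    omega
  have hsum : ∑ i ∈ insert p A, b i = b p + ∑ i ∈ A, b i := Finset.sum_insert hpA
  by_cases hfin : ∑ i ∈ A, b i + b p ≤ 1 + r - μ / 10
  · refine hgood (insert p A) ?_ ?_
    · rw [hsum]; linarith
    · right; rw [hsum]; linarith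
  push Not at hfin
  -- three parts `A`, `B`, `{p}`
  have hB : ∑ i ∈ (insert p A)ᶜ, b i = ∑ i, b i - (b p + ∑ i ∈ A, b i) := by
    rw [sum_compl, hsum]
  have hBw : ∑ i ∈ (insert p A)ᶜ, w i = ∑ i, w i - (w p + ∑ i ∈ A, w i) := by
    rw [sum_compl, Finset.sum_insert hpA]
  have hnu : ∑ i ∈ A, b i + ∑ i ∈ (insert p A)ᶜ, b i + b p = ∑ i, b i := by rw [hB]; ring
  have hwe : ∑ i ∈ A, w i + ∑ i ∈ (insert p A)ᶜ, w i + w p = ∑ i, w i := by rw [hBw]; ring
  have hsb : ∀ i j k : ℕ, (i : ℝ) * ∑ x ∈ A, b x + j * ∑ x ∈ (insert p A)ᶜ, b x + k * b p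
      = ∑ x, (wt A p i j k x : ℝ) * b x := fun i j k => (wsum A p hpA i j k b).symm
  have hsw : ∀ i j k : ℕ, (i : ℝ) * ∑ x ∈ A, w x + j * ∑ x ∈ (insert p A)ᶜ, w x + k * w p
      = ∑ x, (wt A p i j k x : ℝ) * w x := fun i j k => (wsum A p hpA i j k w).symm
  refine hQ (∑ i ∈ A, b i) (∑ i ∈ (insert p A)ᶜ, b i) (b p) (∑ i ∈ A, w i) (∑ i ∈ (insert p A)ᶜ, w i) (w p)
    tau W s hs (by linarith) (by linarith) (by linarith) (hb p) (Finset.sum_nonneg (fun i _ => hC.w0 i))
    (Finset.sum_nonneg (fun i _ => hC.w0 i)) (hC.w0 p) (by linarith) (by linarith) (by linarith) (by linarith)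
    (by rw [hnu]; linarith) hC.Wt hC.t1 ?_ ?_
  · intro i j k hpos hle
    rw [hsb i j k] at hpos hle ⊢
    rw [hsw i j k]
    exact hC.lv _ hpos hle
  · intro i j k hle
    rw [hsb i j k] at hle ⊢
    rw [hsw i j k]
    exact hC.co _ hle

end Pool.Agent.Work.MP_a8fbd7_nt.EX.CELL
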