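import Pool.Agent.Work.MP_a8fbd7_nt.EX.CELL.All
import Pool.Agent.Work.MP_a8fbd7_nt.EX.CELL.I_Tr2
import Pool.Agent.Work.MP_a8fbd7_nt.EX.CELL.I_TrA
import Pool.Agent.Work.MP_a8fbd7_nt.EX.CELL.I_XAi2

/-!
MP_a8fbd7_nt, block EX, second wave, part CELL: the two cell theorems at `(r2, c2)` from the large value inputs and `ZF.StHM`.
-/

set_option autoImplicit false

namespace Pool.Agent.Work.MP_a8fbd7_nt.EX.CELL

open Pool.Agent.Work.MP_a8fbd7_nt.OX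
open Pool.Agent.Work.MP_a8fbd7_nt.EX

theorem cellXA2 (hPf : StPf) (hMv : StMv) (hHx : StHx) (hG : StG) (hJ : StJ) : StCellXA r2 c2 :=
  iCAi (cx hPf hMv hHx hG hJ) r2 c2 (by norm_num [r2]) (by norm_num [r2]) (by norm_num [c2]) (by norm_num [c2])
    (iXAi2 r2 c2 (by norm_num [r2]) (by norm_num [r2]) (by norm_num [c2]) (by norm_num [c2]) iTrA)

theorem cellXB2 (hPf : StPf) (hMv : StMv) (hHx : StHx) (hG : StG) (hJ : StJ)
    (hHM : Pool.Agent.Work.MP_a8fbd7_nt.ZF.StHM) : StCellXB r2 c2 :=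
  iCBi (cx hPf hMv hHx hG hJ) (OX.CELL.iNB (OX.CELL.iNz hHM) OX.CELL.iPw) r2 c2 (by norm_num [r2]) (by norm_num [r2])
    (by norm_num [c2]) (by norm_num [c2]) (iXBi iPt r2 c2 (by norm_num [c2]) (by norm_num [c2]) iTr2)

end Pool.Agent.Work.MP_a8fbd7_nt.EX.CELL
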