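import Mathlib
import Pool.Agent.Work.MP_a8fbd7_nt.EX.CELL.Stmts
import Pool.Agent.Work.MP_a8fbd7_nt.OX.CELL.I_CellB

/-!
MP_a8fbd7_nt, block EX: item CBi, the cell theorem XB from the near zone and the logic XB (copy of `OX.CELL.iCellB`, helper63).
Author: helper34.
-/

set_option autoImplicit false

open MeasureTheory Set Filter Topology

noncomputable section

namespace Pool.Agent.Work.MP_a8fbd7_nt.EX.CELL

open Pool.Agent.Work.MP_a8fbd7_nt.OX
open Pool.Agent.Work.MP_a8fbd7_nt.EX

namespace CBi_aux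

/-- exponents of a product over a finite set -/
theorem prod_exp {T : ℝ} (hT : 0 < T) {m : ℕ} (N b : Fin m → ℝ) (hb : ∀ i, N i = T ^ b i) (s : Finset (Fin m)) :
    ∏ i ∈ s, N i = T ^ (∑ i ∈ s, b i) := by
  rw [Real.rpow_sum_of_pos hT]
  exact Finset.prod_congr rfl fun i _ => hb i

end CBi_aux

theorem iCBi (hCx : StCx) (hNB : OX.CELL.StNB) : StCBi := by
  intro r c0 hr0 hr1 hc0 hc0' hXB β hβ hβ'
  obtain ⟨κ, hκ, hκ', s0, hs0, Q, hmain⟩ := hXB β hβ hβ'
  set s : ℝ := min s0 1 with hs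
  have hsp : 0 < s := lt_min hs0 one_pos
  have hs1 : s ≤ 1 := min_le_right _ _
  have hss : s ≤ s0 := min_le_left _ _
  refine ⟨κ, hκ, hκ', ?_⟩
  intro η hη hη'
  set ε : ℝ := min κ (min (s / 128) (1 / 1000)) with hε
  have hε0 : 0 < ε := lt_min hκ (lt_min (by positivity) (by norm_num))
  have hε1 : ε ≤ κ := min_le_left _ _
  have hε2 : ε ≤ s / 128 := (min_le_right _ _).trans (min_le_left _ _)
  have hε3 : ε ≤ 1 / 1000 := (min_le_right _ _).trans (min_le_right _ _)
  refine ⟨ε, hε0, hε3, ?_⟩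
  intro A hA
  obtain ⟨A1, C0, hA1, hC0, hnear⟩ := hNB β η (A + 1) hβ hβ' hη hη' (by linarith)
  obtain ⟨C1, hC1, hcls⟩ := hCx s (η / 2) Q hsp hs1 (by positivity)
  obtain ⟨C2, hC2, hthr⟩ := OX.CELL.thr 2 (η / 2) (by positivity)
  obtain ⟨C3, hC3, hlogthr⟩ := OX.CELL.log_thr A (s / 8) 2 hA (by positivity)
  refine ⟨A1, max (max C0 C1) (max (max C2 C3) (Real.exp 3)), hA1, le_max_of_le_left (le_max_of_le_left hC0), ?_⟩
  intro T T' m a N g S c hT hT'1 hT' ha hN hprod1 hprod2 hg0 hg1 hg2 hsmall hsave hS hS3 hc hint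
  have t0 : C0 ≤ T := (le_max_left _ _).trans ((le_max_left _ _).trans hT)
  have t1 : C1 ≤ T := (le_max_right _ _).trans ((le_max_left _ _).trans hT)
  have t2 : C2 ≤ T := (le_max_left _ _).trans ((le_max_left _ _).trans ((le_max_right _ _).trans hT))
  have t3 : C3 ≤ T := (le_max_right _ _).trans ((le_max_left _ _).trans ((le_max_right _ _).trans hT))
  have t4 : Real.exp 3 ≤ T := (le_max_right _ _).trans ((le_max_right _ _).trans hT)
  have hT2 : 2 ≤ T := hC2.trans t2
  have hT0 : 0 < T := by linarith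
  have hT1 : 1 ≤ T := by linarith
  have hTg : 1 < T := by linarith
  have hlog3 : 3 ≤ Real.log T := by
    rw [Real.le_log_iff_exp_le hT0]
    exact t4
  have hlog0 : 0 < Real.log T := by linarith
  by_contra hcon
  push Not at hcon
  have hb : ∀ i, ∃ b : ℝ, N i = T ^ b ∧ η / 2 ≤ b ∧ b ≤ 1 / 2 + κ :=
    fun i => OX.CELL.blk_exp hTg (hthr T t2) (hN i).1 (hN i).2
  choose b hb1 hb2 hb3 using hb
  have hprodT : ∏ i, N i = T ^ (∑ i, b i) := CBi_aux.prod_exp hT0 N b hb1 _
  have hsum1 : 2 - ε ≤ ∑ i, b i := by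
    rw [hprodT] at hprod1
    exact (Real.rpow_le_rpow_left_iff hTg).mp hprod1
  have hsum2 : ∑ i, b i ≤ 2 + ε := by
    rw [hprodT] at hprod2
    exact (Real.rpow_le_rpow_left_iff hTg).mp hprod2
  have hsg0 : ∑ i ∈ Finset.univ.filter (fun i => g i = 0), b i ≤ 1 + κ := by
    rw [CBi_aux.prod_exp hT0 N b hb1] at hg0
    exact (Real.rpow_le_rpow_left_iff hTg).mp hg0
  have hsg1 : ∑ i ∈ Finset.univ.filter (fun i => g i = 1), b i ≤ 1 + κ := by
    rw [CBi_aux.prod_exp hT0 N b hb1] at hg1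
    exact (Real.rpow_le_rpow_left_iff hTg).mp hg1
  have hsg2 : ∀ i, g i = 2 → b i ≤ c0 + κ := by
    intro i hi
    have h1 := hg2 i hi
    rw [hb1 i] at h1
    exact (Real.rpow_le_rpow_left_iff hTg).mp h1
  have hsgβ : β ≤ ∑ i ∈ Finset.univ.filter (fun i => g i = 2), b i := by
    rw [CBi_aux.prod_exp hT0 N b hb1] at hsmall
    exact (Real.rpow_le_rpow_left_iff hTg).mp hsmall
  have hr : T ^ r ≤ S.card := by
    have h1 : 1 * T ^ r ≤ max (max C0 C1) (max (max C2 C3) (Real.exp 3)) * T ^ r := by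
      apply mul_le_mul_of_nonneg_right (le_max_of_le_left (le_max_of_le_left hC0)) (by positivity)
    linarith
  have hcard : 1 ≤ S.card := by
    have h1 : 0 < T ^ r := by positivity
    have h2 : (0 : ℝ) < S.card := by linarith
    exact_mod_cast h2
  have hJ0 : (0 : ℝ) < S.card := by exact_mod_cast hcard
  set E : Set ℝ := Icc T' (2 * T') with hE
  set F : Fin m → ℝ → ℝ := fun i t => ‖PB (a i) (N i) t‖ with hF
  have hFc : ∀ i, Continuous (F i) := fun i => (OX.CELL.PB_cont (a i) (N i)).norm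
  have hGc : Continuous (fun t => ‖GS S c t‖) := (OX.CELL.GS_cont hS c).norm
  have hHc : Continuous (fun t => ‖GS S c t‖ * ∏ i, F i t) := hGc.mul (continuous_finsetProd _ fun i _ => hFc i)
  have hH0 : ∀ t, 0 ≤ ‖GS S c t‖ * ∏ i, F i t :=
    fun t => mul_nonneg (norm_nonneg _) (Finset.prod_nonneg fun i _ => norm_nonneg _)
  have hNpos : ∀ i, 0 < N i := fun i => by rw [hb1 i]; positivity
  have hPpos : 0 < ∏ i, N i := Finset.prod_pos fun i _ => hNpos i
  have hsmall41 : T ^ β ≤ ∏ i ∈ Finset.univ.filter (fun i => N i ≤ T ^ (41 / 100 : ℝ)), N i := by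
    rw [CBi_aux.prod_exp hT0 N b hb1]
    apply Real.rpow_le_rpow_of_exponent_le hT1
    refine hsgβ.trans ?_
    apply Finset.sum_le_sum_of_subset_of_nonneg
    · intro i hi
      rw [Finset.mem_filter] at hi ⊢
      refine ⟨hi.1, (hg2 i hi.2).trans ?_⟩
      exact Real.rpow_le_rpow_of_exponent_le hT1 (by linarith)
    · intro i _ _
      have := hb2 i
      linarith
  set X : ℝ := S.card * (∏ i, N i) / Real.log T ^ A with hX
  have hXpos : 0 < X := by positivity
  have hint' : X ≤ ∫ t in E, ‖GS S c t‖ * ∏ i, F i t := by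
    rw [hE, integral_Icc_eq_integral_Ioc, ← intervalIntegral.integral_of_le (by linarith)]
    exact hint
  set E1 : Set ℝ := E ∩ {t | ∃ i, N i ^ (59 / 60 : ℝ) ≤ F i t} with hE1
  set E2 : Set ℝ := E ∩ {t | ∀ i, F i t ≤ N i ^ (59 / 60 : ℝ)} with hE2
  have hE1c : IsCompact E1 := by
    apply isCompact_Icc.inter_right
    simp only [Set.ofPred_exists]
    apply isClosed_iUnion_of_finite
    intro i
    exact isClosed_le continuous_const (hFc i)
  have hE2c : IsCompact E2 := by
    apply isCompact_Icc.inter_right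
    simp only [Set.ofPred_forall]
    apply isClosed_iInter
    intro i
    exact isClosed_le (hFc i) continuous_const
  have hcases := OX.CELL.pigeon_two E E1 E2 isCompact_Icc hE1c hE2c inter_subset_left inter_subset_left (by
    intro t ht
    by_cases h : ∃ i, N i ^ (59 / 60 : ℝ) ≤ F i t
    · exact Or.inl ⟨ht, h⟩
    · right
      push Not at h
      exact ⟨ht, fun i => (h i).le⟩) (fun t => ‖GS S c t‖ * ∏ i, F i t) hHc hH0 X hXpos hint'
  rcases hcases with h | h
  · -- near zone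
    have h1 := hnear T T' S.card m a N (fun t => ‖GS S c t‖) E1 t0 hT'1
      (hT'.trans (Real.rpow_le_rpow_of_exponent_le hT1 (by linarith))) ha
      (fun i => ⟨(hN i).1, (hN i).2.trans (Real.rpow_le_rpow_of_exponent_le hT1 (by linarith))⟩)
      ((Real.rpow_le_rpow_of_exponent_le hT1 (by linarith)).trans hprod1)
      (hprod2.trans (Real.rpow_le_rpow_of_exponent_le hT1 (by linarith))) (by convert hsmall41 using 2) hsave hGc
      (fun t => norm_nonneg _) (fun t => OX.CELL.GS_le hS hc t) hJ0 hE1c (by rw [hE1]; exact inter_subset_left)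
      (fun t ht => ht.2)
    have h2 : X ≤ 2 * (S.card * (∏ i, N i) / Real.log T ^ (A + 1)) := h.trans (by linarith)
    have h3 : S.card * (∏ i, N i) / Real.log T ^ (A + 1) = X / Real.log T := by
      rw [hX, Real.rpow_add hlog0, Real.rpow_one]
      field_simp
    rw [h3] at h2
    have h4 : X / Real.log T ≤ X / 3 := by gcongr
    linarith
  · -- far zone
    set θ : ℝ := ∑ i, b i - s / 8 with hθ
    have h1 : S.card * T ^ θ ≤ ∫ t in E2, ‖GS S c t‖ * ∏ i, F i t := by
      have h2 : S.card * T ^ θ ≤ X / 2 := by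
        rw [hX, hprodT, hθ, Real.rpow_sub hT0]
        have h3 := hlogthr T t3
        have h5 : 0 < Real.log T ^ A := by positivity
        have h6 : 0 < T ^ (s / 8) := by positivity
        rw [div_div, mul_div_assoc' , div_le_div_iff₀ h6 (by positivity)]
        have h7 : 0 < S.card * T ^ (∑ i, b i) := by positivity
        have h8 := mul_le_mul_of_nonneg_left h3 h7.le
        linarith
      linarith
    obtain ⟨w, τ, W, hW, ⟨t, ht, hlow⟩, hCls⟩ := hcls T t1 T' θ r m a N b S c E2 hT'1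
      (hT'.trans (Real.rpow_le_rpow_of_exponent_le hT1 (by linarith))) ha hb1 hb2 (by linarith) hS hS3 hcard hr hc
      (by rw [hθ]; linarith) hE2c inter_subset_left h1
    refine hmain m b w g τ W s hsp hss (fun i => by have := hb2 i; linarith) (by linarith) (by linarith) ?_ ?_ hsg2 ?_ ?_ ?_ hCls
    · convert hsg0 using 2
    · convert hsg1 using 2
    · convert hsgβ using 2
    · intro i
      have h2 : T ^ (b i - w i) ≤ T ^ (b i * (59 / 60)) := by
        refine (hlow i).trans ((ht.2 i).trans (le_of_eq ?_))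
        rw [hb1 i, ← Real.rpow_mul hT0.le]
      have h3 := (Real.rpow_le_rpow_left_iff hTg).mp h2
      linarith
    · rw [hW, hθ]
      linarith

end Pool.Agent.Work.MP_a8fbd7_nt.EX.CELL
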