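import Mathlib
import Pool.Agent.Work.MP_a8fbd7_nt.EX.CELL.Stmts
import Pool.Agent.Work.MP_a8fbd7_nt.OX.CELL.Cls

/-!
MP_a8fbd7_nt, block EX, part CELL, item Cx: the data of a class (copy of `OX.CELL.cls` with a general exponent `r`).
Author: helper56.
-/

set_option autoImplicit false

open MeasureTheory Set Filter Topology

noncomputable section

namespace Pool.Agent.Work.MP_a8fbd7_nt.EX.CELL

open Pool.Agent.Work.MP_a8fbd7_nt.OX
open Pool.Agent.Work.MP_a8fbd7_nt.EX
open Pool.Agent.Work.MP_a8fbd7_nt.OX.CELL (pick disc_vol thr expo GS_cont GS_le PB_cont)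

/-- **the data of a class** -/
theorem iCx (hLc : StLc) (hKc : StKc) : StCx := by
  intro s η Q hs hs1 hη
  obtain ⟨C1, hC1, hpick⟩ := pick (s / 8) η (by positivity) (by linarith) hη
  obtain ⟨C2, hC2, hcoll⟩ := hKc (s / 8) η (by positivity) (by linarith) hη
  obtain ⟨C4, hC4, hlv⟩ := hLc s η Q hs hs1 hη
  obtain ⟨C5, hC5, hthr⟩ := thr 2 (s / 8) (by positivity)
  refine ⟨max (max C1 C2) (max C4 C5), le_max_of_le_left (le_max_of_le_left hC1), ?_⟩
  intro T hT T' θ r m a N b S c E hT'1 hT' ha hN hb hsum hS hS3 hS1 hSr hc hθ hE hEs hint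
  have t1 : C1 ≤ T := (le_max_left _ _).trans ((le_max_left _ _).trans hT)
  have t2 : C2 ≤ T := (le_max_right _ _).trans ((le_max_left _ _).trans hT)
  have t4 : C4 ≤ T := (le_max_left _ _).trans ((le_max_right _ _).trans hT)
  have t5 : C5 ≤ T := (le_max_right _ _).trans ((le_max_right _ _).trans hT)
  have hT2 : 2 ≤ T := hC5.trans t5
  have hT0 : 0 < T := by linarith
  have hT1 : 1 ≤ T := by linarith
  have h2T := hthr T t5
  have hJ0 : (0 : ℝ) < S.card := by exact_mod_cast hS1
  have hGc : Continuous (fun t => ‖GS S c t‖) := (GS_cont hS c).norm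
  obtain ⟨w, E', hE', hE'E, hw0, hlev, hprod, hint'⟩ := hpick T t1 T' S.card θ m a N b (fun t => ‖GS S c t‖) E hT'1
    (hT'.trans (Real.rpow_le_rpow_of_exponent_le hT1 (by linarith))) ha hN hb hsum hGc (fun t => norm_nonneg _)
    (fun t => GS_le hS hc t) hJ0 hθ hE hEs hint
  set W : ℝ := ∑ i, w i + θ - ∑ i, b i with hW
  set X : ℝ := W - s / 4 with hX
  -- the integral of `G`
  have hGint : S.card * T ^ X ≤ ∫ t in E', ‖GS S c t‖ := by
    have h1 : ∫ t in E', ‖GS S c t‖ * ∏ i, ‖PB (a i) (N i) t‖ ≤ T ^ (∑ i, b i - ∑ i, w i + s / 8) * ∫ t in E', ‖GS S c t‖ := by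
      rw [← integral_const_mul]
      apply setIntegral_mono_on
      · apply Continuous.continuousOn _ |>.integrableOn_compact hE'
        exact hGc.mul (continuous_finsetProd _ fun i _ => (PB_cont (a i) (N i)).norm)
      · exact (hGc.continuousOn.integrableOn_compact hE').const_mul _
      · exact hE'.measurableSet
      · intro t ht
        rw [mul_comm]
        exact mul_le_mul_of_nonneg_right (hprod t ht) (norm_nonneg _)
    have h2 : T ^ (∑ i, b i - ∑ i, w i + s / 8) * (S.card * T ^ X) ≤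
        T ^ (∑ i, b i - ∑ i, w i + s / 8) * ∫ t in E', ‖GS S c t‖ := by
      refine le_trans (le_of_eq ?_) (hint'.trans h1)
      have : T ^ (θ - s / 8) = T ^ (∑ i, b i - ∑ i, w i + s / 8) * T ^ X := by
        rw [← Real.rpow_add hT0]; congr 1; rw [hX, hW]; ring
      rw [this]; ring
    exact le_of_mul_le_mul_left h2 (by positivity)
  -- the volume
  obtain ⟨R, hR1, hR2, hR3⟩ := disc_vol E' hE'
  have hvol0 : ∫ t in E', ‖GS S c t‖ ≤ S.card * (volume E').toReal := by
    calc ∫ t in E', ‖GS S c t‖ ≤ ∫ _ in E', (S.card : ℝ) := by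
          apply setIntegral_mono_on (hGc.continuousOn.integrableOn_compact hE')
            (integrableOn_const hE'.measure_lt_top.ne) hE'.measurableSet
          intro t _
          exact GS_le hS hc t
      _ = S.card * (volume E').toReal := by
          rw [setIntegral_const, smul_eq_mul, mul_comm]; rfl
  have hXR : T ^ X ≤ 2 * R.card := by
    have h1 : S.card * T ^ X ≤ S.card * (2 * R.card) :=
      hGint.trans (hvol0.trans (mul_le_mul_of_nonneg_left hR3 hJ0.le))
    exact le_of_mul_le_mul_left h1 hJ0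
  have hRpos : 0 < R.card := by
    have h1 : 0 < T ^ X := by positivity
    have h2 : (0 : ℝ) < R.card := by linarith
    exact_mod_cast h2
  have hRr : (0 : ℝ) < R.card := by exact_mod_cast hRpos
  set τ : ℝ := Real.logb T R.card with hτ
  have hTτ : T ^ τ = R.card := Real.rpow_logb hT0 (by linarith) hRr
  have hWτ : X ≤ τ + s / 8 := by
    apply expo (K := 2) (T := T) (by linarith) _ h2T
    rw [hTτ]
    exact hXR
  have hRsub : ∀ t ∈ R, T' ≤ t ∧ t ≤ 2 * T' := fun t ht => hEs (hE'E (hR1 t ht))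
  have hRT : (R.card : ℝ) ≤ 1 + 2 * (T' / 2) / 1 := by
    apply Pool.Agent.Work.MP_a8fbd7_nt.OX.card_le_of_sep R (fun t => t) 1 (3 / 2 * T') (T' / 2) one_pos (by linarith)
    · intro p hp q hq hpq
      exact hR2 p hp q hq hpq
    · intro p hp
      have := hRsub p hp
      rw [abs_le]
      constructor <;> linarith [this.1, this.2]
  have hτ1 : τ ≤ 1 + s / 128 + s / 8 := by
    apply expo (K := 2) (T := T) (by linarith) _ h2T
    rw [hTτ]
    calc (R.card : ℝ) ≤ 1 + 2 * (T' / 2) / 1 := hRT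
      _ ≤ 2 * T' := by linarith
      _ ≤ 2 * T ^ (1 + s / 128) := by linarith
  have hRne : R.Nonempty := Finset.card_pos.mp hRpos
  obtain ⟨t0, ht0⟩ := hRne
  refine ⟨w, τ, W, rfl, ⟨t0, hE'E (hR1 t0 ht0), fun i => (hlev t0 (hR1 t0 ht0) i).1⟩, ?_⟩
  have hT'' : T' ≤ T ^ (1 + s / 8 / 16) := by
    refine hT'.trans (Real.rpow_le_rpow_of_exponent_le hT1 (by linarith))
  have hEvol : (volume E').toReal ≤ 2 * T ^ τ := by rw [hTτ]; exact hR3
  refine ⟨hw0, by linarith, by linarith, ?_, ?_⟩
  · intro k hk1 hk2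
    exact hlv T t4 m a N b w T' T' τ R ha hN hb hsum hT'1 hT' hR2
      (by
        intro t ht
        have := hRsub t ht
        exact ⟨this.1, by linarith [this.2]⟩)
      (fun t ht => fun i => (hlev t (hR1 t ht) i).1) hTτ.le k hk1 hk2
  · intro k hk
    have h1 := hcoll T t2 m a N b w T' S c X τ E' hT'1 hT'' hS hS3 hS1 hc ha hN hb hsum hE'
      (hE'E.trans hEs) (fun t ht => fun i => (hlev t ht i).1) hEvol hGint k hk r hSr
    unfold COx at h1 ⊢
    rcases h1 with h1 | h1
    · left
      linarith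
    · right
      linarith

end Pool.Agent.Work.MP_a8fbd7_nt.EX.CELL
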