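import Mathlib
import Pool.Agent.Work.MP_a8fbd7_nt.EX.Defs
import Pool.Agent.Work.MP_a8fbd7_nt.EX.CELL.Stmts
import Pool.Agent.Work.MP_a8fbd7_nt.OX.CELL.LVh

/-!
MP_a8fbd7_nt, block EX, part CELL, item Lc: large values of products of blocks.
-/

set_option autoImplicit false

open MeasureTheory Set Filter Topology

noncomputable section

namespace Pool.Agent.Work.MP_a8fbd7_nt.EX.CELL

open Pool.Agent.Work.MP_56b8f5_nt.UC (Sep Dp)
open Pool.Agent.Work.MP_a8fbd7_nt.OX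
open Pool.Agent.Work.MP_a8fbd7_nt.EX

namespace Lc_aux

open Pool.Agent.Work.MP_a8fbd7_nt.OX.CELL (expo pw thr lv_mv lv_hx lv_gm pb_dpc GMh)

/-- finitely many thresholds -/
theorem fin_thr' {ι : Type*} [Finite ι] (P : ι → ℝ → Prop) (h : ∀ i, ∃ C : ℝ, 1 ≤ C ∧ ∀ T, C ≤ T → P i T) :
    ∃ C : ℝ, 1 ≤ C ∧ ∀ T, C ≤ T → ∀ i, P i T := by
  classical
  have : Fintype ι := Fintype.ofFinite ι
  choose C hC h1 using h
  refine ⟨1 + ∑ i, C i, ?_, ?_⟩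
  · have : 0 ≤ ∑ i, C i := Finset.sum_nonneg fun i _ => by linarith [hC i]
    linarith
  · intro T hT i
    apply h1 i T
    have : C i ≤ ∑ j, C j :=
      Finset.single_le_sum (f := C) (fun j _ => by linarith [hC j]) (Finset.mem_univ i)
    linarith

/-- Jutila with parameter `k` -/
theorem lv_jk (hJ : StJ) (s B : ℝ) (hs : 0 < s) (hB : 1 ≤ B) (k : ℕ) (hk1 : 1 ≤ k) (hk6 : k ≤ 6) : ∃ C : ℝ, 1 ≤ C ∧
    ∀ (F : ℝ → ℂ) (T T0 h l g τ : ℝ) (W : Finset ℝ), C ≤ T → 0 ≤ h → h ≤ 2 → 0 < l → l ≤ 2 →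
      DPc F (T ^ l) B (T ^ (s / 64)) → Lset F (T ^ (l - g)) T0 (T ^ h) W → T ^ τ ≤ W.card →
      ∀ t : ℝ, 0 ≤ t → t ≤ h → g + s ≤ l / 4 → τ ≤ max 0 (h - t) +
        max (2 * g) (max (k * t - 2 * k * l + 4 * k * g) (2 * t / 3 - 4 * k * l / 3 + 16 * k * g / 3)) + s := by
  obtain ⟨C0, hC0, hM⟩ := hJ k (s / 64) B hk1 (by positivity) hB
  obtain ⟨C1, hC1, hthr⟩ := thr (6 * C0) (s / 64) (by positivity)
  refine ⟨C1, by linarith, ?_⟩
  intro F T T0 h l g τ W hCT hh0 hh2 hl0 hl2 hF hL hτ t ht0 hth hgl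
  have hT2 : 2 ≤ T := hC1.trans hCT
  have hT0 : 0 < T := by linarith
  have hT1 : 1 ≤ T := by linarith
  have hCs := hthr T hCT
  have hk6' : (k : ℝ) ≤ 6 := by exact_mod_cast hk6
  have hk0' : (0 : ℝ) ≤ k := by positivity
  have hks : (k : ℝ) * s ≤ 6 * s := mul_le_mul_of_nonneg_right hk6' hs.le
  have h5 : (T ^ l * T ^ t) ^ (s / 64) ≤ T ^ (4 * s / 64) := by
    rw [← Real.rpow_add hT0, ← Real.rpow_mul hT0.le]
    apply Real.rpow_le_rpow_of_exponent_le hT1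
    nlinarith
  have hc1 : C0 * (T ^ l * T ^ t) ^ (s / 64) * (T ^ l) ^ (3 / 2 : ℝ) ≤ (T ^ (l - g) / T ^ (s / 64)) ^ 2 := by
    calc C0 * (T ^ l * T ^ t) ^ (s / 64) * (T ^ l) ^ (3 / 2 : ℝ) ≤ T ^ (s / 64) * T ^ (4 * s / 64) * T ^ (l * (3 / 2)) := by
          rw [← Real.rpow_mul hT0.le]
          gcongr
          linarith
      _ = T ^ (s / 64 + 4 * s / 64 + l * (3 / 2)) := by rw [← Real.rpow_add hT0, ← Real.rpow_add hT0]
      _ ≤ T ^ ((l - g - s / 64) * (2 : ℕ)) := by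
          apply Real.rpow_le_rpow_of_exponent_le hT1
          push_cast
          linarith
      _ = _ := by rw [← Real.rpow_sub hT0, pw hT0.le]
  have h1 := hM F (T ^ l) (T ^ (s / 64)) (T ^ (l - g)) T0 (T ^ h) (T ^ t) W (Real.one_le_rpow hT1 hl0.le)
    (Real.one_le_rpow hT1 hh0) (Real.one_le_rpow hT1 ht0) (by positivity) (by positivity) hF hL hc1
  set X := max (2 * g) (max (k * t - 2 * k * l + 4 * k * g) (2 * t / 3 - 4 * k * l / 3 + 16 * k * g / 3)) with hX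
  have hX1 : 2 * g ≤ X := le_max_left _ _
  have hX2 : k * t - 2 * k * l + 4 * k * g ≤ X := (le_max_left _ _).trans (le_max_right _ _)
  have hX3 : 2 * t / 3 - 4 * k * l / 3 + 16 * k * g / 3 ≤ X := (le_max_right _ _).trans (le_max_right _ _)
  have hP : (T ^ l) ^ 2 * (T ^ (s / 64) / T ^ (l - g)) ^ 2 + (T ^ t) ^ k * (T ^ l) ^ (2 * k) * (T ^ (s / 64) / T ^ (l - g)) ^ (4 * k) +
      (T ^ t) ^ (2 / 3 : ℝ) * (T ^ l) ^ (4 * k) * (T ^ (s / 64) / T ^ (l - g)) ^ (16 * (k : ℝ) / 3) ≤ 3 * T ^ (X + 32 * s / 64) := by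
    have hx : T ^ (s / 64) / T ^ (l - g) = T ^ (s / 64 - (l - g)) := by rw [← Real.rpow_sub hT0]
    rw [hx]
    have e1 : (T ^ l) ^ 2 * (T ^ (s / 64 - (l - g))) ^ 2 ≤ T ^ (X + 32 * s / 64) := by
      rw [pw hT0.le, pw hT0.le, ← Real.rpow_add hT0]
      apply Real.rpow_le_rpow_of_exponent_le hT1
      push_cast
      linarith
    have e2 : (T ^ t) ^ k * (T ^ l) ^ (2 * k) * (T ^ (s / 64 - (l - g))) ^ (4 * k) ≤ T ^ (X + 32 * s / 64) := by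
      rw [pw hT0.le, pw hT0.le, pw hT0.le, ← Real.rpow_add hT0, ← Real.rpow_add hT0]
      apply Real.rpow_le_rpow_of_exponent_le hT1
      push_cast
      have e : t * (k : ℝ) + l * (2 * (k : ℝ)) + (s / 64 - (l - g)) * (4 * (k : ℝ)) =
          (k * t - 2 * k * l + 4 * k * g) + 4 * (k * s) / 64 := by ring
      rw [e]
      linarith
    have e3 : (T ^ t) ^ (2 / 3 : ℝ) * (T ^ l) ^ (4 * k) * (T ^ (s / 64 - (l - g))) ^ (16 * (k : ℝ) / 3) ≤ T ^ (X + 32 * s / 64) := by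
      rw [pw hT0.le, ← Real.rpow_mul hT0.le, ← Real.rpow_mul hT0.le, ← Real.rpow_add hT0, ← Real.rpow_add hT0]
      apply Real.rpow_le_rpow_of_exponent_le hT1
      push_cast
      have e : t * (2 / 3) + l * (4 * (k : ℝ)) + (s / 64 - (l - g)) * (16 * (k : ℝ) / 3) =
          (2 * t / 3 - 4 * k * l / 3 + 16 * k * g / 3) + 16 * (k * s) / 3 / 64 := by ring
      rw [e]
      linarith
    linarith
  set Y := max 0 (h - t) with hY
  have hY0 : 0 ≤ Y := le_max_left _ _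
  have hY1 : h - t ≤ Y := le_max_right _ _
  have h4 : 1 + T ^ h / T ^ t ≤ 2 * T ^ Y := by
    rw [← Real.rpow_sub hT0]
    have := Real.one_le_rpow hT1 hY0
    have := Real.rpow_le_rpow_of_exponent_le hT1 hY1
    linarith
  have h3 : T ^ τ ≤ (6 * C0) * T ^ (Y + X + 36 * s / 64) := by
    calc T ^ τ ≤ W.card := hτ
      _ ≤ _ := h1
      _ ≤ C0 * T ^ (4 * s / 64) * ((2 * T ^ Y) * (3 * T ^ (X + 32 * s / 64))) := by gcongr
      _ = (6 * C0) * (T ^ (4 * s / 64) * (T ^ Y * T ^ (X + 32 * s / 64))) := by ring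
      _ = (6 * C0) * T ^ (Y + X + 36 * s / 64) := by
          rw [← Real.rpow_add hT0, ← Real.rpow_add hT0]
          congr 2
          ring
  have := expo (by linarith) h3 hCs
  linarith

/-- products of powers of blocks are polynomials -/
theorem prod_dpc (hPf : StPf) (m : ℕ) (k : Fin m → ℕ) (ε : ℝ) (hε : 0 < ε) : ∃ C : ℝ, 1 ≤ C ∧
    ∀ T, C ≤ T → ∀ (a : Fin m → ℕ → ℂ) (N b : Fin m → ℝ), (∀ i, N i = T ^ b i) → (∀ i, 0 ≤ b i) →
      ∑ i, (k i : ℝ) * b i ≤ 2 → (∀ i, IsBlk (a i) (N i)) →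
      DPc (fun t => ∏ i, PB (a i) (N i) t ^ k i) (T ^ (∑ i, (k i : ℝ) * b i)) (2 ^ (∑ i, k i)) (T ^ ε) := by
  obtain ⟨C0, hC0, h⟩ := hPf m k (ε / 4) (by positivity)
  obtain ⟨C1, hC1, hthr⟩ := thr (C0 * (2 ^ (∑ i, k i)) ^ (ε / 4)) (ε / 2) (by positivity)
  refine ⟨C1, by linarith, ?_⟩
  intro T hT a N b hN hb hkb ha
  have hT2 : 2 ≤ T := hC1.trans hT
  have hT0 : 0 < T := by linarith
  have hT1 : 1 ≤ T := by linarith
  have hN1 : ∀ i, 1 ≤ N i := fun i => by rw [hN i]; exact Real.one_le_rpow hT1 (hb i)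
  have h1 := h (fun i => PB (a i) (N i)) N 2 1 (by norm_num) le_rfl hN1
    (fun i => pb_dpc (by linarith [hN1 i]) (ha i))
  have hNk : ∏ i, N i ^ k i = T ^ (∑ i, (k i : ℝ) * b i) := by
    rw [Real.rpow_sum_of_pos hT0]
    refine Finset.prod_congr rfl fun i _ => ?_
    rw [hN i, pw hT0.le, mul_comm]
  rw [hNk, one_pow, mul_one] at h1
  refine Pf_aux.mono h1 ?_
  set l := ∑ i, (k i : ℝ) * b i with hl
  calc C0 * (2 ^ (∑ i, k i) * T ^ l) ^ (ε / 4) = C0 * (2 ^ (∑ i, k i)) ^ (ε / 4) * (T ^ l) ^ (ε / 4) := by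
        rw [Real.mul_rpow (by positivity) (by positivity)]; ring
    _ ≤ T ^ (ε / 2) * T ^ (ε / 2) := by
        have h2 : (T ^ l) ^ (ε / 4) ≤ T ^ (ε / 2) := by
          rw [← Real.rpow_mul hT0.le]
          apply Real.rpow_le_rpow_of_exponent_le hT1
          nlinarith
        have := hthr T hT
        gcongr
    _ = T ^ ε := by rw [← Real.rpow_add hT0]; congr 1; ring

/-- the inequalities for a polynomial in an interval of length `T^h`, `h ≤ 1 + s/64` -/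
theorem lvc_all (hMv : StMv) (hHx : StHx) (hG : StG) (hJ : StJ) (s B : ℝ) (Q : ℕ) (hs : 0 < s) (hB : 1 ≤ B) :
    ∃ C : ℝ, 1 ≤ C ∧
    ∀ T, C ≤ T → ∀ (F : ℝ → ℂ) (T0 h l g τ : ℝ) (W : Finset ℝ), 1 ≤ h → h ≤ 1 + s → h ≤ 2 → 0 < l → l ≤ 2 →
      DPc F (T ^ l) B (T ^ (s / 64)) → Lset F (T ^ (l - g)) T0 (T ^ h) W → T ^ τ ≤ W.card →
      LVc l g τ (2 * s) Q := by
  obtain ⟨C1, hC1, h1⟩ := lv_mv hMv s B hs hB
  obtain ⟨C2, hC2, h2⟩ := lv_hx hHx s B hs hB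
  obtain ⟨C3, hC3, h3⟩ := fin_thr' (ι := Fin 7) (fun k T => ∀ (F : ℝ → ℂ) (T0 h l g τ : ℝ) (W : Finset ℝ), 0 ≤ h → h ≤ 2 →
      0 < l → l ≤ 2 → DPc F (T ^ l) B (T ^ (s / 64)) → Lset F (T ^ (l - g)) T0 (T ^ h) W → T ^ τ ≤ W.card →
      1 ≤ (k : ℕ) → ∀ t : ℝ, 0 ≤ t → t ≤ h → g + s ≤ l / 4 → τ ≤ max 0 (h - t) +
        max (2 * g) (max ((k : ℕ) * t - 2 * (k : ℕ) * l + 4 * (k : ℕ) * g)
          (2 * t / 3 - 4 * (k : ℕ) * l / 3 + 16 * (k : ℕ) * g / 3)) + s) (by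
    intro k
    rcases Nat.eq_zero_or_pos (k : ℕ) with h0 | hk
    · refine ⟨1, le_rfl, ?_⟩
      intro T _ F T0 h l g τ W _ _ _ _ _ _ _ hq1
      omega
    · obtain ⟨C, hC, h⟩ := lv_jk hJ s B hs hB (k : ℕ) hk (by have := k.2; omega)
      refine ⟨C, hC, ?_⟩
      intro T hT F T0 h' l g τ W a1 a2 a3 a4 a5 a6 a7 _
      exact h F T T0 h' l g τ W hT a1 a2 a3 a4 a5 a6 a7)
  obtain ⟨C4, hC4, h4⟩ := fin_thr' (ι := Fin (Q + 1)) (fun q T => ∀ (F : ℝ → ℂ) (T0 h l g τ : ℝ) (W : Finset ℝ), 0 ≤ h → h ≤ 2 →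
      0 < l → l ≤ 2 → DPc F (T ^ l) B (T ^ (s / 64)) → Lset F (T ^ (l - g)) T0 (T ^ h) W → T ^ τ ≤ W.card →
      1 ≤ (q : ℕ) → ∀ t : ℝ, l ≤ t → t + s ≤ 2 * l → τ ≤ GMh h (q : ℕ) l g t + s) (by
    intro q
    rcases Nat.eq_zero_or_pos (q : ℕ) with h0 | hq
    · refine ⟨1, le_rfl, ?_⟩
      intro T _ F T0 h l g τ W _ _ _ _ _ _ _ hq1
      omega
    · obtain ⟨C, hC, h⟩ := lv_gm hG s B hs hB (q : ℕ) hq
      refine ⟨C, hC, ?_⟩
      intro T hT F T0 h' l g τ W a1 a2 a3 a4 a5 a6 a7 _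
      exact h F T T0 h' l g τ W hT a1 a2 a3 a4 a5 a6 a7)
  refine ⟨max (max C1 C2) (max C3 C4), le_max_of_le_left (le_max_of_le_left hC1), ?_⟩
  intro T hT F T0 h l g τ W b1 b2 a2 a3 a4 a5 a6 a7
  have a1 : 0 ≤ h := by linarith
  have t1 : C1 ≤ T := (le_max_left _ _).trans ((le_max_left _ _).trans hT)
  have t2 : C2 ≤ T := (le_max_right _ _).trans ((le_max_left _ _).trans hT)
  have t3 : C3 ≤ T := (le_max_left _ _).trans ((le_max_right _ _).trans hT)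
  have t4 : C4 ≤ T := (le_max_right _ _).trans ((le_max_right _ _).trans hT)
  have k1 := h1 F T T0 h l g τ W t1 a1 a2 a3 a4 a5 a6 a7
  have k2 := h2 F T T0 h l g τ W t2 a1 a2 a3 a4 a5 a6 a7
  refine ⟨?_, ?_, ?_, ?_⟩
  · have e2 : max 0 (h - l) ≤ max 0 (1 - l) + s := by
      apply max_le
      · have := le_max_left 0 (1 - l); linarith
      · have := le_max_right 0 (1 - l); linarith
    linarith
  · have e2 : max (2 * g) (h + 6 * g - 2 * l) ≤ max (2 * g) (1 + 6 * g - 2 * l) + s := by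
      apply max_le
      · have := le_max_left (2 * g) (1 + 6 * g - 2 * l); linarith
      · have := le_max_right (2 * g) (1 + 6 * g - 2 * l); linarith
    linarith
  · intro q t hq hqQ hlt htl
    have k3 := h4 T t4 ⟨q, by omega⟩ F T0 h l g τ W a1 a2 a3 a4 a5 a6 a7 hq t hlt (by linarith)
    unfold GMh at k3
    unfold GMx
    have e2 : max 0 (h - t) ≤ max 0 (1 - t) + s := by
      apply max_le
      · have := le_max_left 0 (1 - t); linarith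
      · have := le_max_right 0 (1 - t); linarith
    simp only at k3
    linarith
  · intro k t hk2 hk6 ht0 ht1 hgl
    have k3 := h3 T t3 ⟨k, by omega⟩ F T0 h l g τ W a1 a2 a3 a4 a5 a6 a7 (by show 1 ≤ k; omega) t ht0 (by linarith)
      (by linarith)
    unfold JTk
    have e2 : max 0 (h - t) ≤ 1 - t + s := by
      apply max_le <;> linarith
    simp only at k3
    linarith

end Lc_aux

open Lc_aux in
open Pool.Agent.Work.MP_a8fbd7_nt.OX.CELL (expo pw thr) in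
theorem iLc (hMv : OX.StMv) (hHx : OX.StHx) (hG : OX.StG) (hJ : OX.StJ) (hPf : OX.StPf) : StLc := by
  intro s η Q hs hs1 hη
  set M0 : ℕ := ⌈3 / η⌉₊ with hM0
  set K0 : ℕ := ⌈2 / η⌉₊ with hK0
  obtain ⟨C, hC, hmain⟩ := fin_thr' (ι := Σ m : Fin (M0 + 1), (Fin (m : ℕ) → Fin (K0 + 1)))
    (fun x T => ∀ (a : Fin (x.1 : ℕ) → ℕ → ℂ) (N b w : Fin (x.1 : ℕ) → ℝ) (T0 T' τ : ℝ) (R : Finset ℝ),
      (∀ i, IsBlk (a i) (N i)) → (∀ i, N i = T ^ b i) → (∀ i, η ≤ b i) → 1 ≤ T' → T' ≤ T ^ (1 + s / 128) →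
      Sep R → (∀ t ∈ R, T0 ≤ t ∧ t ≤ T0 + T') → (∀ t ∈ R, ∀ i, T ^ (b i - w i) ≤ ‖PB (a i) (N i) t‖) →
      T ^ τ ≤ R.card →
      0 < ∑ i, (((x.2 i : Fin (K0 + 1)) : ℕ) : ℝ) * b i → ∑ i, (((x.2 i : Fin (K0 + 1)) : ℕ) : ℝ) * b i ≤ 2 →
      LVc (∑ i, (((x.2 i : Fin (K0 + 1)) : ℕ) : ℝ) * b i) (∑ i, (((x.2 i : Fin (K0 + 1)) : ℕ) : ℝ) * w i) τ s Q) (by
    rintro ⟨m, k⟩
    obtain ⟨C1, hC1, h1⟩ := lvc_all hMv hHx hG hJ (s / 2) (2 ^ (∑ i, ((k i : Fin (K0 + 1)) : ℕ))) Q (by positivity)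
      (one_le_pow₀ (by norm_num))
    obtain ⟨C2, hC2, h2⟩ := prod_dpc hPf (m : ℕ) (fun i => ((k i : Fin (K0 + 1)) : ℕ)) (s / 2 / 64) (by positivity)
    refine ⟨max (max C1 C2) 1, le_max_right _ _, ?_⟩
    intro T hT a N b w T0 T' τ R ha hN hb hT'1 hT' hR hRT hRV hτ hl0 hl2
    simp only at hl0 hl2 ⊢
    have t1 : C1 ≤ T := (le_max_left _ _).trans ((le_max_left _ _).trans hT)
    have t2 : C2 ≤ T := (le_max_right _ _).trans ((le_max_left _ _).trans hT)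
    have hT1 : 1 ≤ T := (le_max_right _ _).trans hT
    have hT0 : 0 < T := by linarith
    have h3 := h1 T t1 (fun t => ∏ i, PB (a i) (N i) t ^ ((k i : Fin (K0 + 1)) : ℕ)) T0 (1 + s / 128)
      (∑ i, (((k i : Fin (K0 + 1)) : ℕ) : ℝ) * b i) (∑ i, (((k i : Fin (K0 + 1)) : ℕ) : ℝ) * w i) τ R
      (by linarith) (by linarith) (by linarith) hl0 hl2
      (h2 T t2 a N b hN (fun i => by linarith [hb i]) hl2 ha)
      ⟨hR, fun t ht => ⟨(hRT t ht).1, (hRT t ht).2.trans (by linarith)⟩, ?_⟩ hτ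
    · rwa [show 2 * (s / 2) = s by ring] at h3
    · intro t ht
      rw [norm_prod, ← Finset.sum_sub_distrib, Real.rpow_sum_of_pos hT0]
      refine Finset.prod_le_prod (fun i _ => (Real.rpow_pos_of_pos hT0 _).le) fun i _ => ?_
      rw [norm_pow]
      calc T ^ ((((k i : Fin (K0 + 1)) : ℕ) : ℝ) * b i - (((k i : Fin (K0 + 1)) : ℕ) : ℝ) * w i)
          = (T ^ (b i - w i)) ^ ((k i : Fin (K0 + 1)) : ℕ) := by
            rw [pw (by linarith)]; congr 1; ring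
        _ ≤ _ := pow_le_pow_left₀ (by positivity) (hRV t ht i) _)
  refine ⟨C, hC, ?_⟩
  intro T hT m a N b w T0 T' τ R ha hN hb hb3 hT'1 hT' hR hRT hRV hτ k hl0 hl2
  have hb0 : ∀ i, 0 < b i := fun i => by linarith [hb i]
  have hm : m ≤ M0 := by
    have h1 : (m : ℝ) * η ≤ 3 := by
      calc (m : ℝ) * η = ∑ _i : Fin m, η := by simp
        _ ≤ ∑ i, b i := Finset.sum_le_sum fun i _ => hb i
        _ ≤ 3 := hb3
    have h2 : (m : ℝ) ≤ 3 / η := by rwa [le_div_iff₀ hη]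
    exact_mod_cast h2.trans (Nat.le_ceil _)
  have hk : ∀ i, k i ≤ K0 := by
    intro i
    have h1 : (k i : ℝ) * b i ≤ ∑ j, (k j : ℝ) * b j :=
      Finset.single_le_sum (f := fun j => (k j : ℝ) * b j)
        (fun j _ => mul_nonneg (by positivity) (hb0 j).le) (Finset.mem_univ i)
    have h2 : (k i : ℝ) * η ≤ (k i : ℝ) * b i := mul_le_mul_of_nonneg_left (hb i) (by positivity)
    have h3 : (k i : ℝ) ≤ 2 / η := by rw [le_div_iff₀ hη]; linarith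
    exact_mod_cast h3.trans (Nat.le_ceil _)
  exact hmain T hT ⟨⟨m, by omega⟩, fun i => ⟨k i, by have := hk i; omega⟩⟩ a N b w T0 T' τ R ha hN hb hT'1 hT' hR hRT
    hRV hτ hl0 hl2

end Pool.Agent.Work.MP_a8fbd7_nt.EX.CELL
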