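import Mathlib
import Pool.Agent.Work.MP_a8fbd7_nt.EX.Defs
import Pool.Agent.Work.MP_a8fbd7_nt.EX.CELL.Stmts
import Pool.Agent.Work.MP_a8fbd7_nt.EX.CELL.I_Lc
import Pool.Agent.Work.MP_a8fbd7_nt.OX.CollInt
import Pool.Agent.Work.MP_a8fbd7_nt.OX.CELL.CollE

/-!
MP_a8fbd7_nt, block EX, part CELL, item Kc: the collision inequality for products of blocks.
-/

set_option autoImplicit false

open MeasureTheory Set Filter Topology

noncomputable section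

namespace Pool.Agent.Work.MP_a8fbd7_nt.EX.CELL

open Pool.Agent.Work.MP_56b8f5_nt.UC (Sep Dp)
open Pool.Agent.Work.MP_a8fbd7_nt.OX
open Pool.Agent.Work.MP_a8fbd7_nt.EX

namespace Kc_aux

open Pool.Agent.Work.MP_a8fbd7_nt.OX.CELL (expo pw thr cs_set PB_cont GS_cont GS_log)
open Pool.Agent.Work.MP_a8fbd7_nt.EX.CELL.Lc_aux (prod_dpc fin_thr')

/-- one exponent vector -/
theorem coll_P1 (hPf : OX.StPf) (s : ℝ) (hs : 0 < s) (hs1 : s ≤ 1) (m : ℕ) (k : Fin m → ℕ) : ∃ C : ℝ, 1 ≤ C ∧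
    ∀ T, C ≤ T → ∀ (T' : ℝ) (S : Finset ℝ) (c : ℝ → ℂ) (a : Fin m → ℕ → ℂ) (N b w : Fin m → ℝ) (X τ : ℝ) (E : Set ℝ),
      1 ≤ T' → T' ≤ T ^ (1 + s / 16) → LSep S T → (S.card : ℝ) ≤ T ^ (1 / 3 : ℝ) → 1 ≤ S.card → (∀ x, ‖c x‖ ≤ 1) →
      (∀ i, IsBlk (a i) (N i)) → (∀ i, N i = T ^ b i) → (∀ i, 0 ≤ b i) → ∑ i, (k i : ℝ) * b i ≤ 2 → IsCompact E →
      E ⊆ Icc T' (2 * T') →
      (∀ t ∈ E, ∀ i, T ^ (b i - w i) ≤ ‖PB (a i) (N i) t‖) → (volume E).toReal ≤ 2 * T ^ τ →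
      S.card * T ^ X ≤ ∫ t in E, ‖GS S c t‖ →
      2 * X - 2 * (∑ i, (k i : ℝ) * w i) ≤ τ + s ∨
        ∀ r, T ^ r ≤ S.card → r ≤ τ + 2 * (∑ i, (k i : ℝ) * w i) - 2 * X + 1 - ∑ i, (k i : ℝ) * b i + s := by
  set j : ℕ := ∑ i, k i with hj
  obtain ⟨C1, hC1, h1⟩ := Pool.Agent.Work.MP_a8fbd7_nt.OX.coll_int_third (s / 16) (by positivity)
  obtain ⟨C2, hC2, h2⟩ := prod_dpc hPf m k (s / 16) (by positivity)
  obtain ⟨C3, hC3, h3⟩ := thr (4 * 4 ^ j * C1) (s / 16) (by positivity)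
  refine ⟨max C2 C3, le_max_of_le_left hC2, ?_⟩
  intro T hT T' S c a N b w X τ E hT'1 hT' hS hS3 hS1 hc ha hN hb hjb hE hEs hlow hvol hint
  have t2 : C2 ≤ T := (le_max_left _ _).trans hT
  have t3 : C3 ≤ T := (le_max_right _ _).trans hT
  have hT2 : 2 ≤ T := hC3.trans t3
  have hT0 : 0 < T := by linarith
  have hT1 : 1 ≤ T := by linarith
  obtain ⟨U, bb, hU1, hU2, hU3, hU4⟩ := GS_log hT0 hS c
  obtain ⟨p, hp1, hp2, hp3⟩ := h2 T t2 a N b hN hb hjb ha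
  set l : ℝ := ∑ i, (k i : ℝ) * b i with hl
  set g : ℝ := ∑ i, (k i : ℝ) * w i with hg
  set M : ℕ := ⌊(2 : ℝ) ^ j * T ^ l⌋₊ with hM
  set T2 : ℝ := max T T' with hT2d
  have hT2' : T ≤ T2 := le_max_left _ _
  have hT2'' : T' ≤ T2 := le_max_right _ _
  have hT2le : T2 ≤ T ^ (1 + s / 16) := by
    apply max_le _ hT'
    calc T = T ^ (1 : ℝ) := (Real.rpow_one T).symm
      _ ≤ _ := Real.rpow_le_rpow_of_exponent_le hT1 (by linarith)
  have hT20 : 0 < T2 := by linarith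
  have hA := h1 U bb M p (T ^ (s / 16)) T' T2 (by linarith) (fun n _ => hp1 n) (hU3 hc) (by
      intro u hu v hv huv
      refine le_trans ?_ (hU2 u hu v hv huv)
      exact one_div_le_one_div_of_le hT0 hT2') (by
      rw [hU1]
      exact hS3.trans (Real.rpow_le_rpow hT0.le hT2' (by norm_num)))
  rw [hU1] at hA
  -- the left side
  have hGc : Continuous (fun t => ‖GS S c t‖) := (GS_cont hS c).norm
  have hPc : Continuous (fun t => ∏ i, ‖PB (a i) (N i) t‖ ^ k i) := by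
    apply continuous_finsetProd
    intro i _
    exact (PB_cont (a i) (N i)).norm.pow (k i)
  set f : ℝ → ℝ := fun t => (∏ i, ‖PB (a i) (N i) t‖ ^ k i) * ‖GS S c t‖ with hf
  have hfc : Continuous f := hPc.mul hGc
  have hcs := cs_set E hE f hfc
  set J : ℝ := (S.card : ℝ) with hJ
  have hJ1 : 1 ≤ J := by rw [hJ]; exact_mod_cast hS1
  have hlowp : ∀ t ∈ E, T ^ (l - g) ≤ ∏ i, ‖PB (a i) (N i) t‖ ^ k i := by
    intro t ht
    rw [hl, hg, ← Finset.sum_sub_distrib, Real.rpow_sum_of_pos hT0]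
    refine Finset.prod_le_prod (fun i _ => (Real.rpow_pos_of_pos hT0 _).le) fun i _ => ?_
    calc T ^ ((k i : ℝ) * b i - (k i : ℝ) * w i) = (T ^ (b i - w i)) ^ k i := by
          rw [pw hT0.le]; congr 1; ring
      _ ≤ _ := pow_le_pow_left₀ (by positivity) (hlow t ht i) _
  have hleft : T ^ (l - g) * (J * T ^ X) ≤ ∫ t in E, f t := by
    calc T ^ (l - g) * (J * T ^ X) ≤ T ^ (l - g) * ∫ t in E, ‖GS S c t‖ := by gcongr
      _ = ∫ t in E, T ^ (l - g) * ‖GS S c t‖ := by rw [integral_const_mul]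
      _ ≤ ∫ t in E, f t := by
          apply setIntegral_mono_on ((hGc.continuousOn.integrableOn_compact hE).const_mul _)
            (hfc.continuousOn.integrableOn_compact hE) hE.measurableSet
          intro t ht
          exact mul_le_mul_of_nonneg_right (hlowp t ht) (norm_nonneg _)
  have hright : ∫ t in E, f t ^ 2 ≤ C1 * (T ^ (s / 16)) ^ 2 * T2 ^ (s / 16) * (J * M * T2 + J ^ 2 * (M : ℝ) ^ 2) := by
    refine le_trans ?_ hA
    have e1 : ∀ t, ‖Dp M p t‖ ^ 2 * ‖∑ u ∈ U, bb u * Complex.exp (Complex.I * u * t)‖ ^ 2 = f t ^ 2 := by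
      intro t
      rw [hU4 t, hf, ← hp3 t, norm_prod]
      simp only [norm_pow]
      ring
    simp only [e1]
    rw [intervalIntegral.integral_of_le (by linarith), ← integral_Icc_eq_integral_Ioc]
    apply setIntegral_mono_set
    · exact (hfc.pow 2).continuousOn.integrableOn_compact isCompact_Icc
    · exact Eventually.of_forall fun t => sq_nonneg _
    · apply LE.le.eventuallyLE
      intro t ht
      have := hEs ht
      exact ⟨this.1, by linarith [this.2]⟩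
  have hMle : (M : ℝ) ≤ 2 ^ j * T ^ l := Nat.floor_le (by positivity)
  have hkey : (T ^ (l - g) * (J * T ^ X)) ^ 2 ≤
      2 * T ^ τ * (C1 * T ^ (4 * s / 16) * (4 ^ j * (J * (T ^ l * T ^ (1 + s / 16)) + J ^ 2 * T ^ (2 * l)))) := by
    have hT2s : T2 ^ (s / 16) ≤ T ^ (2 * s / 16) := by
      calc T2 ^ (s / 16) ≤ (T ^ (1 + s / 16)) ^ (s / 16) := by gcongr
        _ = T ^ ((1 + s / 16) * (s / 16)) := by rw [← Real.rpow_mul hT0.le]
        _ ≤ _ := by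
            apply Real.rpow_le_rpow_of_exponent_le hT1
            nlinarith
    have h0 : 0 ≤ T ^ (l - g) * (J * T ^ X) := by positivity
    calc (T ^ (l - g) * (J * T ^ X)) ^ 2 ≤ (∫ t in E, f t) ^ 2 := by gcongr
      _ ≤ (volume E).toReal * ∫ t in E, f t ^ 2 := hcs
      _ ≤ (2 * T ^ τ) * (C1 * (T ^ (s / 16)) ^ 2 * T2 ^ (s / 16) * (J * M * T2 + J ^ 2 * (M : ℝ) ^ 2)) := by
          have : 0 ≤ ∫ t in E, f t ^ 2 := integral_nonneg fun t => sq_nonneg _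
          gcongr
      _ ≤ (2 * T ^ τ) * (C1 * (T ^ (s / 16)) ^ 2 * T ^ (2 * s / 16) * (J * (2 ^ j * T ^ l) * T ^ (1 + s / 16) +
            J ^ 2 * (2 ^ j * T ^ l) ^ 2)) := by gcongr
      _ = 2 * T ^ τ * (C1 * ((T ^ (s / 16)) ^ 2 * T ^ (2 * s / 16)) * (2 ^ j * (J * (T ^ l * T ^ (1 + s / 16))) +
            (2 ^ j) ^ 2 * (J ^ 2 * (T ^ l) ^ 2))) := by ring
      _ ≤ 2 * T ^ τ * (C1 * T ^ (4 * s / 16) * (4 ^ j * (J * (T ^ l * T ^ (1 + s / 16))) +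
            4 ^ j * (J ^ 2 * T ^ (2 * l)))) := by
          have e1 : (T ^ (s / 16)) ^ 2 * T ^ (2 * s / 16) = T ^ (4 * s / 16) := by
            rw [pw hT0.le, ← Real.rpow_add hT0]
            congr 1
            push_cast
            ring
          have e2 : ((2 : ℝ) ^ j) ^ 2 = 4 ^ j := by
            rw [← pow_mul, mul_comm, pow_mul]
            norm_num
          have e3 : (T ^ l) ^ 2 = T ^ (2 * l) := by
            rw [pw hT0.le]
            congr 1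
            push_cast
            ring
          have e4 : (2 : ℝ) ^ j ≤ 4 ^ j := by gcongr; norm_num
          rw [e1, e2, e3]
          gcongr
      _ = _ := by ring
  have hlhs : (T ^ (l - g) * (J * T ^ X)) ^ 2 = J ^ 2 * T ^ (2 * X + 2 * (l - g)) := by
    rw [mul_pow, mul_pow, pw hT0.le, pw hT0.le, Real.rpow_add hT0]
    have e1 : (l - g) * (2 : ℕ) = 2 * (l - g) := by push_cast; ring
    have e2 : X * (2 : ℕ) = 2 * X := by push_cast; ring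
    rw [e1, e2]
    ring
  rw [hlhs] at hkey
  have hK := h3 T t3
  rcases le_total (J * (T ^ l * T ^ (1 + s / 16))) (J ^ 2 * T ^ (2 * l)) with hcase | hcase
  · left
    have h5 : J ^ 2 * T ^ (2 * X + 2 * (l - g)) ≤ J ^ 2 * ((4 * 4 ^ j * C1) * T ^ (τ + 4 * s / 16 + 2 * l)) := by
      calc J ^ 2 * T ^ (2 * X + 2 * (l - g)) ≤ _ := hkey
        _ ≤ 2 * T ^ τ * (C1 * T ^ (4 * s / 16) * (4 ^ j * (J ^ 2 * T ^ (2 * l) + J ^ 2 * T ^ (2 * l)))) := by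
            gcongr
        _ = J ^ 2 * ((4 * 4 ^ j * C1) * (T ^ τ * T ^ (4 * s / 16) * T ^ (2 * l))) := by ring
        _ = _ := by rw [← Real.rpow_add hT0, ← Real.rpow_add hT0]
    have h6 : T ^ (2 * X + 2 * (l - g)) ≤ (4 * 4 ^ j * C1) * T ^ (τ + 4 * s / 16 + 2 * l) :=
      le_of_mul_le_mul_left h5 (by positivity)
    have := expo (by linarith) h6 hK
    linarith
  · right
    intro r hr
    have h5 : J * (J * T ^ (2 * X + 2 * (l - g))) ≤
        J * ((4 * 4 ^ j * C1) * T ^ (τ + 4 * s / 16 + l + (1 + s / 16))) := by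
      calc J * (J * T ^ (2 * X + 2 * (l - g))) = J ^ 2 * T ^ (2 * X + 2 * (l - g)) := by ring
        _ ≤ _ := hkey
        _ ≤ 2 * T ^ τ * (C1 * T ^ (4 * s / 16) * (4 ^ j * (J * (T ^ l * T ^ (1 + s / 16)) +
              J * (T ^ l * T ^ (1 + s / 16))))) := by gcongr
        _ = J * ((4 * 4 ^ j * C1) * (T ^ τ * T ^ (4 * s / 16) * T ^ l * T ^ (1 + s / 16))) := by ring
        _ = _ := by rw [← Real.rpow_add hT0, ← Real.rpow_add hT0, ← Real.rpow_add hT0]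
    have h6 : J * T ^ (2 * X + 2 * (l - g)) ≤ (4 * 4 ^ j * C1) * T ^ (τ + 4 * s / 16 + l + (1 + s / 16)) :=
      le_of_mul_le_mul_left h5 (by positivity)
    have h7 : T ^ (r + (2 * X + 2 * (l - g))) ≤ (4 * 4 ^ j * C1) * T ^ (τ + 4 * s / 16 + l + (1 + s / 16)) := by
      refine le_trans ?_ h6
      rw [Real.rpow_add hT0]
      gcongr
    have := expo (by linarith) h7 hK
    linarith

end Kc_aux

open Kc_aux in
open Pool.Agent.Work.MP_a8fbd7_nt.EX.CELL.Lc_aux (fin_thr') in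
theorem iKc (hPf : OX.StPf) : StKc := by
  intro s η hs hs1 hη
  set M0 : ℕ := ⌈3 / η⌉₊ with hM0
  set K0 : ℕ := ⌈2 / η⌉₊ with hK0
  obtain ⟨C, hC, hmain⟩ := fin_thr' (ι := Σ m : Fin (M0 + 1), (Fin (m : ℕ) → Fin (K0 + 1)))
    (fun x T => ∀ (T' : ℝ) (S : Finset ℝ) (c : ℝ → ℂ) (a : Fin (x.1 : ℕ) → ℕ → ℂ) (N b w : Fin (x.1 : ℕ) → ℝ)
      (X τ : ℝ) (E : Set ℝ),
      1 ≤ T' → T' ≤ T ^ (1 + s / 16) → LSep S T → (S.card : ℝ) ≤ T ^ (1 / 3 : ℝ) → 1 ≤ S.card → (∀ x, ‖c x‖ ≤ 1) →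
      (∀ i, IsBlk (a i) (N i)) → (∀ i, N i = T ^ b i) → (∀ i, 0 ≤ b i) →
      ∑ i, (((x.2 i : Fin (K0 + 1)) : ℕ) : ℝ) * b i ≤ 2 → IsCompact E → E ⊆ Icc T' (2 * T') →
      (∀ t ∈ E, ∀ i, T ^ (b i - w i) ≤ ‖PB (a i) (N i) t‖) → (volume E).toReal ≤ 2 * T ^ τ →
      S.card * T ^ X ≤ ∫ t in E, ‖GS S c t‖ →
      2 * X - 2 * (∑ i, (((x.2 i : Fin (K0 + 1)) : ℕ) : ℝ) * w i) ≤ τ + s ∨
        ∀ r, T ^ r ≤ S.card → r ≤ τ + 2 * (∑ i, (((x.2 i : Fin (K0 + 1)) : ℕ) : ℝ) * w i) - 2 * X + 1 -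
          ∑ i, (((x.2 i : Fin (K0 + 1)) : ℕ) : ℝ) * b i + s) (by
    rintro ⟨m, k⟩
    exact coll_P1 hPf s hs hs1 (m : ℕ) (fun i => ((k i : Fin (K0 + 1)) : ℕ)))
  refine ⟨C, hC, ?_⟩
  intro T hT m a N b w T' S c X τ E hT'1 hT' hS hS3 hS1 hc ha hN hb hb3 hE hEs hlow hvol hint k hk2 r hr
  have hb0 : ∀ i, 0 < b i := fun i => by linarith [hb i]
  have hm : m ≤ M0 := by
    have h1 : (m : ℝ) * η ≤ 3 := by
      calc (m : ℝ) * η = ∑ _i : Fin m, η := by simp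
        _ ≤ ∑ i, b i := Finset.sum_le_sum fun i _ => hb i
        _ ≤ 3 := hb3
    have h2 : (m : ℝ) ≤ 3 / η := by rwa [le_div_iff₀ hη]
    exact_mod_cast h2.trans (Nat.le_ceil _)
  have hk : ∀ i, k i ≤ K0 := by
    intro i
    have h1 : (k i : ℝ) * b i ≤ ∑ j, (k j : ℝ) * b j :=
      Finset.single_le_sum (f := fun j => (k j : ℝ) * b j)
        (fun j _ => mul_nonneg (by positivity) (hb0 j).le) (Finset.mem_univ i)
    have h2 : (k i : ℝ) * η ≤ (k i : ℝ) * b i := mul_le_mul_of_nonneg_left (hb i) (by positivity)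
    have h3 : (k i : ℝ) ≤ 2 / η := by rw [le_div_iff₀ hη]; linarith
    exact_mod_cast h3.trans (Nat.le_ceil _)
  have h := hmain T hT ⟨⟨m, by omega⟩, fun i => ⟨k i, by have := hk i; omega⟩⟩ T' S c a N b w X τ E hT'1 hT' hS hS3
    hS1 hc ha hN (fun i => (hb0 i).le) hk2 hE hEs hlow hvol hint
  rcases h with h | h
  · exact Or.inl h
  · exact Or.inr (h r hr)

end Pool.Agent.Work.MP_a8fbd7_nt.EX.CELL
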