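import Mathlib
import Pool.Agent.Work.MP_a8fbd7_nt.EX.CELL.Stmts

/-!
MP_a8fbd7_nt, block EX, part CELL, item Pt: the partition lemma.
-/

set_option autoImplicit false

noncomputable section

namespace Pool.Agent.Work.MP_a8fbd7_nt.EX.CELL

namespace Pt_aux

open Classical in
/-- sum over a part -/
def Fs {m : ℕ} (b : Fin m → ℝ) (q : Fin m → Fin 3) (a : Fin 3) : ℝ :=
  ∑ i ∈ Finset.univ.filter (fun i => q i = a), b i

open Classical in
lemma Fs_eq {m : ℕ} (b : Fin m → ℝ) (q : Fin m → Fin 3) (a : Fin 3) :
    Fs b q a = ∑ i, if q i = a then b i else 0 := by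
  unfold Fs
  rw [Finset.sum_filter]

lemma Fs_update {m : ℕ} (b : Fin m → ℝ) (q : Fin m → Fin 3) (p : Fin m) (a c : Fin 3) (hp : q p = 2) :
    Fs b (Function.update q p a) c = Fs b q c + ((if a = c then b p else 0) - (if (2 : Fin 3) = c then b p else 0)) := by
  rw [Fs_eq, Fs_eq]
  have h : ∀ i : Fin m, (if Function.update q p a i = c then b i else 0) =
      (if q i = c then b i else 0) +
        (if i = p then ((if a = c then b p else 0) - (if (2 : Fin 3) = c then b p else 0)) else 0) := by
    intro i
    by_cases hi : i = p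
    · subst hi
      rw [Function.update_self, hp, if_pos rfl]
      ring
    · rw [Function.update_of_ne hi, if_neg hi, add_zero]
  rw [Finset.sum_congr rfl fun i _ => h i, Finset.sum_add_distrib, Finset.sum_ite_eq']
  simp

lemma Fs_sum {m : ℕ} (b : Fin m → ℝ) (q : Fin m → Fin 3) :
    Fs b q 0 + Fs b q 1 + Fs b q 2 = ∑ i, b i := by
  rw [Fs_eq, Fs_eq, Fs_eq, ← Finset.sum_add_distrib, ← Finset.sum_add_distrib]
  refine Finset.sum_congr rfl fun i _ => ?_
  have h : q i = 0 ∨ q i = 1 ∨ q i = 2 := by
    generalize q i = x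
    fin_cases x <;> simp
  rcases h with h | h | h <;> rw [h] <;> simp

end Pt_aux

open Pt_aux in
/-- ITEM Pt. -/
theorem iPt : StPt := by
  classical
  intro m b g β c0 κ hβ hκ hc0 hb h0 h1 hg h2 hs
  -- the admissible partitions
  let P : (Fin m → Fin 3) → Prop := fun q => (∀ i, q i = 2 → g i = 2) ∧ Fs b q 0 ≤ 1 + 3 * κ ∧ Fs b q 1 ≤ 1 + 3 * κ ∧
    β / 8 ≤ Fs b q 2
  let card : (Fin m → Fin 3) → ℕ := fun q => (Finset.univ.filter (fun i => q i = 2)).card
  have hPg : P g := by
    refine ⟨fun i h => h, ?_, ?_, ?_⟩
    · have : Fs b g 0 ≤ 1 + κ := by unfold Fs; convert h0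
      linarith
    · have : Fs b g 1 ≤ 1 + κ := by unfold Fs; convert h1
      linarith
    · have : β ≤ Fs b g 2 := by unfold Fs; convert h2
      linarith
  obtain ⟨q, hq, hmin⟩ := Finset.exists_min_image (Finset.univ.filter P) card ⟨g, by simp [hPg]⟩
  have hPq : P q := (Finset.mem_filter.mp hq).2
  obtain ⟨hq2, hqa, hqb, hqc⟩ := hPq
  have goal : Fs b q 2 ≤ c0 + κ := by
    by_contra hcon
    rw [not_le] at hcon
    set C := Finset.univ.filter (fun i => q i = 2) with hC
    have hFC : Fs b q 2 = ∑ i ∈ C, b i := by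
      unfold Fs
      rw [hC]
    have hCne : C.Nonempty := by
      by_contra h
      rw [Finset.not_nonempty_iff_eq_empty] at h
      rw [hFC, h, Finset.sum_empty] at hqc
      linarith
    obtain ⟨p, hpC, hpmin⟩ := Finset.exists_min_image C b hCne
    have hp2 : q p = 2 := (Finset.mem_filter.mp hpC).2
    -- there is another element
    have hne : (C.erase p).Nonempty := by
      by_contra h
      rw [Finset.not_nonempty_iff_eq_empty] at h
      have : ∑ i ∈ C, b i = b p + ∑ i ∈ C.erase p, b i := (Finset.add_sum_erase C b hpC).symm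
      rw [h, Finset.sum_empty, add_zero] at this
      have h3 := hg p (hq2 p hp2)
      rw [hFC, this] at hcon
      linarith
    obtain ⟨p', hp'⟩ := hne
    have hp'C : p' ∈ C := (Finset.mem_erase.mp hp').2
    have hbp : b p ≤ b p' := hpmin p' hp'C
    have hsum : b p + b p' ≤ Fs b q 2 := by
      rw [hFC, ← Finset.add_sum_erase C b hpC]
      have : b p' ≤ ∑ i ∈ C.erase p, b i :=
        Finset.single_le_sum (f := b) (fun i _ => (hb i).le) hp'
      linarith
    -- moving `p`
    have hcard : ∀ a : Fin 3, a ≠ 2 → card (Function.update q p a) < card q := by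
      intro a ha
      apply Finset.card_lt_card
      rw [Finset.ssubset_iff_of_subset]
      · refine ⟨p, hpC, ?_⟩
        rw [Finset.mem_filter]
        rintro ⟨_, h⟩
        rw [Function.update_self] at h
        exact ha h
      · intro i hi
        rw [Finset.mem_filter] at hi ⊢
        refine ⟨Finset.mem_univ _, ?_⟩
        by_cases hip : i = p
        · rw [hip]; exact hp2
        · rw [Function.update_of_ne hip] at hi
          exact hi.2
    have hnot : ∀ a : Fin 3, a ≠ 2 → ¬ P (Function.update q p a) := by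
      intro a ha hP
      have := hmin _ (Finset.mem_filter.mpr ⟨Finset.mem_univ _, hP⟩)
      exact absurd (hcard a ha) (not_lt.mpr this)
    have hupd2 : ∀ a : Fin 3, a ≠ 2 → ∀ i, Function.update q p a i = 2 → g i = 2 := by
      intro a ha i hi
      by_cases hip : i = p
      · rw [hip, Function.update_self] at hi
        exact absurd hi ha
      · rw [Function.update_of_ne hip] at hi
        exact hq2 i hi
    have e0 : 1 + 3 * κ < Fs b q 0 + b p := by
      by_contra h
      rw [not_lt] at h
      apply hnot 0 (by decide)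
      refine ⟨hupd2 0 (by decide), ?_, ?_, ?_⟩
      · rw [Fs_update b q p 0 0 hp2]
        simpa using h
      · rw [Fs_update b q p 0 1 hp2]
        simpa using hqb
      · rw [Fs_update b q p 0 2 hp2]
        simp only [Fin.isValue, Fin.reduceEq, if_false, if_true]
        linarith
    have e1 : 1 + 3 * κ < Fs b q 1 + b p := by
      by_contra h
      rw [not_lt] at h
      apply hnot 1 (by decide)
      refine ⟨hupd2 1 (by decide), ?_, ?_, ?_⟩
      · rw [Fs_update b q p 1 0 hp2]
        simpa using hqa
      · rw [Fs_update b q p 1 1 hp2]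
        simpa using h
      · rw [Fs_update b q p 1 2 hp2]
        simp only [Fin.isValue, Fin.reduceEq, if_false, if_true]
        linarith
    have e2 := Fs_sum b q
    linarith
  refine ⟨q, ?_, ?_, ?_, ?_⟩
  · unfold Fs at hqa; convert hqa
  · unfold Fs at hqb; convert hqb
  · unfold Fs at hqc; convert hqc
  · unfold Fs at goal; convert goal

end Pool.Agent.Work.MP_a8fbd7_nt.EX.CELL
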