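import Mathlib
import Pool.Agent.Work.MP_a8fbd7_nt.EX.CELL.Stmts

/-!
MP_a8fbd7_nt, block EX, part CELL, item XBi: `StXB` from the three-block lemma and the partition lemma.
-/

set_option autoImplicit false

noncomputable section

namespace Pool.Agent.Work.MP_a8fbd7_nt.EX.CELL

open Pool.Agent.Work.MP_a8fbd7_nt.OX
open Pool.Agent.Work.MP_a8fbd7_nt.EX

namespace XBi_aux

open Classical in
/-- splitting a sum over `Fin m` into the three colour classes -/
lemma split3 {m : ℕ} (q : Fin m → Fin 3) (f : Fin m → ℝ) :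
    ∑ i, f i = ∑ i ∈ Finset.univ.filter (fun i => q i = 0), f i
      + ∑ i ∈ Finset.univ.filter (fun i => q i = 1), f i
      + ∑ i ∈ Finset.univ.filter (fun i => q i = 2), f i := by
  rw [Finset.sum_filter, Finset.sum_filter, Finset.sum_filter, ← Finset.sum_add_distrib,
    ← Finset.sum_add_distrib]
  refine Finset.sum_congr rfl (fun i _ => ?_)
  have h3 : q i = 0 ∨ q i = 1 ∨ q i = 2 := by
    generalize q i = z
    fin_cases z <;> simp
  rcases h3 with h | h | h <;> simp [h]

/-- the exponent vector which is `i`, `j`, `k` on the three classes -/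
def ev {m : ℕ} (q : Fin m → Fin 3) (i j k : ℕ) : Fin m → ℕ :=
  fun x => if q x = 0 then i else if q x = 1 then j else k

open Classical in
lemma ev_sum {m : ℕ} (q : Fin m → Fin 3) (f : Fin m → ℝ) (i j k : ℕ) :
    ∑ x, (ev q i j k x : ℝ) * f x = i * ∑ x ∈ Finset.univ.filter (fun x => q x = 0), f x
      + j * ∑ x ∈ Finset.univ.filter (fun x => q x = 1), f x
      + k * ∑ x ∈ Finset.univ.filter (fun x => q x = 2), f x := by
  rw [split3 q (fun x => (ev q i j k x : ℝ) * f x), Finset.mul_sum, Finset.mul_sum, Finset.mul_sum]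
  have h0 : ∑ x ∈ Finset.univ.filter (fun x => q x = 0), (ev q i j k x : ℝ) * f x
      = ∑ x ∈ Finset.univ.filter (fun x => q x = 0), (i : ℝ) * f x := by
    refine Finset.sum_congr rfl (fun x hx => ?_)
    have := (Finset.mem_filter.1 hx).2
    simp [ev, this]
  have h1 : ∑ x ∈ Finset.univ.filter (fun x => q x = 1), (ev q i j k x : ℝ) * f x
      = ∑ x ∈ Finset.univ.filter (fun x => q x = 1), (j : ℝ) * f x := by
    refine Finset.sum_congr rfl (fun x hx => ?_)
    have := (Finset.mem_filter.1 hx).2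
    simp [ev, this]
  have h2 : ∑ x ∈ Finset.univ.filter (fun x => q x = 2), (ev q i j k x : ℝ) * f x
      = ∑ x ∈ Finset.univ.filter (fun x => q x = 2), (k : ℝ) * f x := by
    refine Finset.sum_congr rfl (fun x hx => ?_)
    have := (Finset.mem_filter.1 hx).2
    simp [ev, this]
  rw [h0, h1, h2]

lemma div_sum {m : ℕ} (P : Fin m → Prop) [DecidablePred P] (b w : Fin m → ℝ)
    (h : ∀ i, b i / 60 ≤ w i) :
    (∑ i ∈ Finset.univ.filter (fun i => P i), b i) / 60
      ≤ ∑ i ∈ Finset.univ.filter (fun i => P i), w i := by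
  rw [Finset.sum_div]
  exact Finset.sum_le_sum (fun i _ => h i)

end XBi_aux

open XBi_aux in
/-- ITEM XBi -/
theorem iXBi (hPt : StPt) : StXBi := by
  intro r c0 hc1 hc2 hTri β hβ hβ'
  obtain ⟨e, he0, heb, Q, hT⟩ := hTri β hβ hβ'
  refine ⟨e / 4, by positivity, by linarith, e, he0, Q, ?_⟩
  intro m b w g tau W s hs hse hb hlo hhi hg0 hg1 hg2 hgs hw hW hcl
  obtain ⟨q, hq0, hq1, hq2, hq3⟩ := hPt m b g β c0 (e / 4) hβ (by positivity) (by linarith) hb hg0 hg1 hg2 hgs hhi
  have hsb := split3 q b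
  have hsw := split3 q w
  have hA := div_sum (fun i => q i = 0) b w hw
  have hB := div_sum (fun i => q i = 1) b w hw
  have hC := div_sum (fun i => q i = 2) b w hw
  refine hT (∑ i ∈ Finset.univ.filter (fun i => q i = 0), b i)
    (∑ i ∈ Finset.univ.filter (fun i => q i = 1), b i)
    (∑ i ∈ Finset.univ.filter (fun i => q i = 2), b i)
    (∑ i ∈ Finset.univ.filter (fun i => q i = 0), w i)
    (∑ i ∈ Finset.univ.filter (fun i => q i = 1), w i)
    (∑ i ∈ Finset.univ.filter (fun i => q i = 2), w i) tau W s hs hse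
    (by linarith) (by linarith) hA hB hC (by linarith) (by linarith) hq2 (by linarith)
    (by linarith) (by linarith) (by linarith) hcl.Wt hcl.t1 ?_ ?_
  · intro i j k h1 h2
    have := hcl.lv (ev q i j k) (by rw [ev_sum]; exact h1) (by rw [ev_sum]; exact h2)
    rw [ev_sum, ev_sum] at this
    exact this
  · intro i j k h2
    have := hcl.co (ev q i j k) (by rw [ev_sum]; exact h2)
    rw [ev_sum, ev_sum] at this
    exact this

end Pool.Agent.Work.MP_a8fbd7_nt.EX.CELL
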