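import Pool.Agent.Work.MP_a8fbd7_nt.EX.CELL.I_Lc
import Pool.Agent.Work.MP_a8fbd7_nt.EX.CELL.I_Kc
import Pool.Agent.Work.MP_a8fbd7_nt.EX.CELL.I_Cx
import Pool.Agent.Work.MP_a8fbd7_nt.EX.CELL.I_Tr
import Pool.Agent.Work.MP_a8fbd7_nt.EX.CELL.I_Pt
import Pool.Agent.Work.MP_a8fbd7_nt.EX.CELL.I_XBi
import Pool.Agent.Work.MP_a8fbd7_nt.EX.CELL.I_XAi
import Pool.Agent.Work.MP_a8fbd7_nt.EX.CELL.I_CBi
import Pool.Agent.Work.MP_a8fbd7_nt.EX.CELL.I_CAi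
import Pool.Agent.Work.MP_a8fbd7_nt.OX.CELL.I_NB
import Pool.Agent.Work.MP_a8fbd7_nt.OX.CELL.I_Nz
import Pool.Agent.Work.MP_a8fbd7_nt.OX.CELL.I_Pw

/-!
MP_a8fbd7_nt, block EX, part CELL: the two cell theorems from the large value inputs and `ZF.StHM`.
-/

set_option autoImplicit false

namespace Pool.Agent.Work.MP_a8fbd7_nt.EX.CELL

open Pool.Agent.Work.MP_a8fbd7_nt.OX
open Pool.Agent.Work.MP_a8fbd7_nt.EX

theorem cx (hPf : StPf) (hMv : StMv) (hHx : StHx) (hG : StG) (hJ : StJ) : StCx :=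
  iCx (iLc hMv hHx hG hJ hPf) (iKc hPf)

theorem cellXA (hPf : StPf) (hMv : StMv) (hHx : StHx) (hG : StG) (hJ : StJ) : StCellXA rE cE :=
  iCAi (cx hPf hMv hHx hG hJ) rE cE (by norm_num [rE]) (by norm_num [rE]) (by norm_num [cE]) (by norm_num [cE])
    (iXAi rE cE (by norm_num [rE]) (by norm_num [rE]) (by norm_num [cE]) (by norm_num [rE, cE]))

theorem cellXB (hPf : StPf) (hMv : StMv) (hHx : StHx) (hG : StG) (hJ : StJ)
    (hHM : Pool.Agent.Work.MP_a8fbd7_nt.ZF.StHM) : StCellXB rE cE :=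
  iCBi (cx hPf hMv hHx hG hJ) (OX.CELL.iNB (OX.CELL.iNz hHM) OX.CELL.iPw) rE cE (by norm_num [rE]) (by norm_num [rE])
    (by norm_num [cE]) (by norm_num [cE]) (iXBi iPt rE cE (by norm_num [cE]) (by norm_num [cE]) iTr)

end Pool.Agent.Work.MP_a8fbd7_nt.EX.CELL
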