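import Mathlib
import Pool.Agent.Work.MP_a8fbd7_nt.EX.CELL.Stmts
import Pool.Agent.Work.MP_a8fbd7_nt.OX.CELL.I_CellA

/-!
MP_a8fbd7_nt, block EX: item CAi, the cell theorem XA from the logic XA (copy of `OX.CELL.iCellA`, helper63).
Author: helper13.
-/

set_option autoImplicit false

open MeasureTheory Set Filter Topology

noncomputable section

namespace Pool.Agent.Work.MP_a8fbd7_nt.EX.CELL

open Pool.Agent.Work.MP_a8fbd7_nt.OX
open Pool.Agent.Work.MP_a8fbd7_nt.EX

namespace CAi_aux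

/-- exponents of a product over a finite set -/
theorem prod_exp {T : ℝ} (hT : 0 < T) {m : ℕ} (N b : Fin m → ℝ) (hb : ∀ i, N i = T ^ b i) (s : Finset (Fin m)) :
    ∏ i ∈ s, N i = T ^ (∑ i ∈ s, b i) := by
  rw [Real.rpow_sum_of_pos hT]
  exact Finset.prod_congr rfl fun i _ => hb i

end CAi_aux

theorem iCAi (hCx : StCx) : StCAi := by
  intro r c0 hr0 hr1 hc0 hc0' hXA κ2 hκ2 hκ2'
  obtain ⟨κ3, hκ3, hκ3', s0, hs0, Q, hmain⟩ := hXA κ2 hκ2 hκ2'
  set s : ℝ := min s0 1 with hs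
  have hsp : 0 < s := lt_min hs0 one_pos
  have hs1 : s ≤ 1 := min_le_right _ _
  have hss : s ≤ s0 := min_le_left _ _
  refine ⟨κ3, min (κ3 / 10) (s / 128), hκ3, hκ3', lt_min (by positivity) (by positivity), min_le_left _ _, ?_⟩
  set ε : ℝ := min (κ3 / 10) (s / 128) with hε
  have hε0 : 0 < ε := lt_min (by positivity) (by positivity)
  have hε1 : ε ≤ s / 128 := min_le_right _ _
  intro η hη hη'
  obtain ⟨C1, hC1, hcls⟩ := hCx s (η / 2) Q hsp hs1 (by positivity)
  obtain ⟨C2, hC2, hthr⟩ := OX.CELL.thr 2 (η / 2) (by positivity)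
  refine ⟨max C1 C2, le_max_of_le_left hC1, ?_⟩
  intro T T' ν m a N g S c hT hT'1 hT' ha hN hprod hν hg0 hg1 hg2 hS hS3 hc hint
  have t1 : C1 ≤ T := (le_max_left _ _).trans hT
  have t2 : C2 ≤ T := (le_max_right _ _).trans hT
  have hT2 : 2 ≤ T := hC2.trans t2
  have hT0 : 0 < T := by linarith
  have hT1 : 1 ≤ T := by linarith
  have hTg : 1 < T := by linarith
  by_contra hcon
  push Not at hcon
  have hb : ∀ i, ∃ b : ℝ, N i = T ^ b ∧ η / 2 ≤ b ∧ b ≤ 1 :=
    fun i => OX.CELL.blk_exp hTg (hthr T t2) (hN i).1 (hN i).2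
  choose b hb1 hb2 hb3 using hb
  have hsum : ∑ i, b i = ν := by
    have h1 : T ^ (∑ i, b i) = T ^ ν := by
      rw [← CAi_aux.prod_exp hT0 N b hb1, ← hprod]
    exact (Real.rpow_right_inj hT0 (by linarith)).mp h1
  have hsum0 : 0 ≤ ν := by
    rw [← hsum]
    apply Finset.sum_nonneg
    intro i _
    have := hb2 i
    linarith
  have hsg0 : ∑ i ∈ Finset.univ.filter (fun i => g i = 0), b i ≤ 1 + 3 * κ3 := by
    rw [CAi_aux.prod_exp hT0 N b hb1] at hg0
    exact (Real.rpow_le_rpow_left_iff hTg).mp hg0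
  have hsg1 : ∑ i ∈ Finset.univ.filter (fun i => g i = 1), b i ≤ 1 + 3 * κ3 := by
    rw [CAi_aux.prod_exp hT0 N b hb1] at hg1
    exact (Real.rpow_le_rpow_left_iff hTg).mp hg1
  have hsg2 : ∀ i, g i = 2 → b i ≤ c0 + κ3 := by
    intro i hi
    have h1 := hg2 i hi
    rw [hb1 i] at h1
    exact (Real.rpow_le_rpow_left_iff hTg).mp h1
  have hr : T ^ r ≤ S.card := by
    have h1 : 1 * T ^ r ≤ max C1 C2 * T ^ r := by
      apply mul_le_mul_of_nonneg_right (le_max_of_le_left hC1) (by positivity)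
    linarith
  have hcard : 1 ≤ S.card := by
    have h1 : 0 < T ^ r := by positivity
    have h2 : (0 : ℝ) < S.card := by linarith
    exact_mod_cast h2
  have hint' : S.card * T ^ (1 + ν / 2 - ε) ≤ ∫ t in Icc T' (2 * T'), ‖GS S c t‖ * ∏ i, ‖PB (a i) (N i) t‖ := by
    rw [integral_Icc_eq_integral_Ioc, ← intervalIntegral.integral_of_le (by linarith)]
    exact hint
  obtain ⟨w, τ, W, hW, _, hCls⟩ := hcls T t1 T' (1 + ν / 2 - ε) r m a N b S c (Icc T' (2 * T')) hT'1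
    (hT'.trans (Real.rpow_le_rpow_of_exponent_le hT1 (by linarith))) ha hb1 hb2 (by linarith) hS hS3 hcard hr hc
    (by linarith) isCompact_Icc le_rfl hint'
  refine hmain m b w g τ W s hsp hss (fun i => ?_) (by linarith) hsg0 hsg1 hsg2 ?_ hCls
  · have := hb2 i
    linarith
  · rw [hW, hsum]
    linarith

end Pool.Agent.Work.MP_a8fbd7_nt.EX.CELL
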