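import Mathlib
import Pool.Agent.Work.MP_a8fbd7_nt.EX.CELL.Stmts2
import Pool.Agent.Work.MP_a8fbd7_nt.EX.CELL.I_Tr

/-!
MP_a8fbd7_nt, block EX, third wave: the three-block lemma at the exponents `r = 87/1000`, `c0 = 37/200`.
Case 1 (`a, b ≥ 1 - r`) is `Tr_aux.case1` of `I_Tr.lean` (helper85).  Cases 2 and 3 (`b ≤ 1 - r`): case trees found by a
linear programming search (helper68); every leaf is an infeasible linear programme.
-/

set_option autoImplicit false

namespace Pool.Agent.Work.MP_a8fbd7_nt.EX.CELL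

open Pool.Agent.Work.MP_a8fbd7_nt.OX
open Pool.Agent.Work.MP_a8fbd7_nt.EX

namespace Tr3r_aux

lemma sp {t x y s : ℝ} (h : t ≤ max x y + s) : t ≤ x + s ∨ t ≤ y + s := by
  rcases max_cases x y with h1 | h1
  · left; linarith [h1.1]
  · right; linarith [h1.1]

lemma hxs {l g tau s : ℝ} {Q : ℕ} (h : LVc l g tau s Q) :
    tau ≤ 2 * g + s ∨ tau ≤ 1 + 6 * g - 2 * l + s := sp h.hx

lemma mvs {l g tau s : ℝ} {Q : ℕ} (h : LVc l g tau s Q) :
    (1 ≤ l ∧ tau ≤ 2 * g + s) ∨ (l ≤ 1 ∧ tau ≤ 2 * g + 1 - l + s) := by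
  have h1 := h.mv
  rcases le_total 1 l with hl | hl
  · left
    rw [max_eq_left (by linarith)] at h1
    exact ⟨hl, by linarith⟩
  · right
    rw [max_eq_right (by linarith)] at h1
    exact ⟨hl, by linarith⟩

lemma cos' {r l g tau W s : ℝ} (h : COx r l g tau W s) :
    (1 - r ≤ l ∧ 2 * W - 2 * g ≤ tau + s) ∨ (l ≤ 1 - r ∧ 2 * W - 2 * g ≤ tau + 1 - l - r + s) := by
  rcases le_total (1 - r) l with hl | hl
  · left
    refine ⟨hl, ?_⟩
    rcases h with h | h <;> linarith
  · right
    refine ⟨hl, ?_⟩
    rcases h with h | h <;> linarith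

lemma jks {l g tau s : ℝ} {Q : ℕ} (h : LVc l g tau s Q) (k : ℕ) (κ : ℝ) (hκ : (k : ℝ) = κ) (t : ℝ) (h2 : 2 ≤ k)
    (h6 : k ≤ 6) (ht0 : 0 ≤ t) (ht1 : t ≤ 1) (hg : 4 * (g + s) ≤ l) :
    tau ≤ 1 - t + 2 * g + s ∨ tau ≤ 1 - t + (κ * t - 2 * κ * l + 4 * κ * g) + s ∨
      3 * tau ≤ 3 * (1 - t) + (2 * t - 4 * κ * l + 16 * κ * g) + 3 * s := by
  have h1 := h.jj k t h2 h6 ht0 ht1 (by linarith)
  unfold JTk at h1
  rw [hκ] at h1
  rcases max_cases (2 * g) (max (κ * t - 2 * κ * l + 4 * κ * g) (2 * t / 3 - 4 * κ * l / 3 + 16 * κ * g / 3)) with h3 | h3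
  · left; linarith [h3.1]
  · right
    rcases max_cases (κ * t - 2 * κ * l + 4 * κ * g) (2 * t / 3 - 4 * κ * l / 3 + 16 * κ * g / 3) with h4 | h4
    · left; linarith [h3.1, h4.1]
    · right; linarith [h3.1, h4.1]

lemma gm8 {l g tau s : ℝ} {Q : ℕ} (h : LVc l g tau s Q) (q : ℕ) (κ : ℝ) (hκ : (q : ℝ) = κ) (t : ℝ) (h1 : 1 ≤ q)
    (hQ : q ≤ Q) (hl : l ≤ t) (h2 : t + s ≤ 2 * l) :
    ∃ m : ℝ, (m = 0 ∨ m = 1 - t) ∧ (tau ≤ m + 2 * g + s ∨ tau ≤ m + (4 * t / 3 - 2 * l + 4 * g) + s ∨
      tau ≤ m + (t / 2 - l + 4 * g) + s ∨ tau ≤ m + (t - 2 * l + 16 * g / 3) + s ∨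
      tau ≤ m + (t - 2 * l + 28 * g / 5) + s ∨ tau ≤ m + (3 * t / 2 - 3 * l + 7 * g) + s ∨
      (κ + 1) * (tau - m - s) ≤ t - κ * l + 6 * κ * g ∨ (κ + 1) * (tau - m - s) ≤ κ * (t - 2 * l + 6 * g)) := by
  have h0 := h.gm q t h1 hQ hl h2
  unfold GMx at h0
  have hq0 : (0 : ℝ) < q := by exact_mod_cast h1
  refine ⟨max 0 (1 - t), max_choice 0 (1 - t), ?_⟩
  set m := max 0 (1 - t)
  have h' : tau - s - m ≤ max (2 * g) (max (4 * t / 3 - 2 * l + 4 * g) (max (t / 2 - l + 4 * g)
    (max (t - 2 * l + 16 * g / 3) (max (t - 2 * l + 28 * g / 5) (max (3 * t / 2 - 3 * l + 7 * g)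
      (max ((q : ℝ) / (q + 1) * (t / q - l + 6 * g)) ((q : ℝ) / (q + 1) * (t - 2 * l + 6 * g)))))))) := by
    linarith
  simp only [le_max_iff] at h'
  rcases h' with h | h | h | h | h | h | h | h
  · left; linarith
  · right; left; linarith
  · right; right; left; linarith
  · right; right; right; left; linarith
  · right; right; right; right; left; linarith
  · right; right; right; right; right; left; linarith
  · right; right; right; right; right; right; left
    rw [← hκ]
    have e1 : ((q : ℝ) + 1) * ((q : ℝ) / (q + 1) * (t / q - l + 6 * g)) = t - q * l + 6 * q * g := by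
      field_simp
    calc ((q : ℝ) + 1) * (tau - m - s) = ((q : ℝ) + 1) * (tau - s - m) := by ring
      _ ≤ ((q : ℝ) + 1) * ((q : ℝ) / (q + 1) * (t / q - l + 6 * g)) := by gcongr
      _ = _ := e1
  · right; right; right; right; right; right; right
    rw [← hκ]
    have e1 : ((q : ℝ) + 1) * ((q : ℝ) / (q + 1) * (t - 2 * l + 6 * g)) = q * (t - 2 * l + 6 * g) := by
      field_simp
    calc ((q : ℝ) + 1) * (tau - m - s) = ((q : ℝ) + 1) * (tau - s - m) := by ring
      _ ≤ ((q : ℝ) + 1) * ((q : ℝ) / (q + 1) * (t - 2 * l + 6 * g)) := by gcongr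
      _ = _ := e1

lemma gm1 {l g tau s : ℝ} {Q : ℕ} (h : LVc l g tau s Q) (q : ℕ) (κ : ℝ) (hκ : (q : ℝ) = κ) (h1 : 1 ≤ q)
    (hQ : q ≤ Q) (hl : l ≤ 1) (h2 : 1 + s ≤ 2 * l) :
    tau ≤ 2 * g + s ∨ tau ≤ (4 / 3 - 2 * l + 4 * g) + s ∨
      tau ≤ (1 / 2 - l + 4 * g) + s ∨ tau ≤ (1 - 2 * l + 16 * g / 3) + s ∨
      tau ≤ (1 - 2 * l + 28 * g / 5) + s ∨ tau ≤ (3 / 2 - 3 * l + 7 * g) + s ∨
      (κ + 1) * (tau - s) ≤ 1 - κ * l + 6 * κ * g ∨ (κ + 1) * (tau - s) ≤ κ * (1 - 2 * l + 6 * g) := by
  obtain ⟨m, hm, h3⟩ := gm8 h q κ hκ 1 h1 hQ hl h2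
  have hm0 : m = 0 := by rcases hm with h | h <;> linarith
  subst hm0
  rcases h3 with h | h | h | h | h | h | h | h
  · left; linarith
  · right; left; linarith
  · right; right; left; linarith
  · right; right; right; left; linarith
  · right; right; right; right; left; linarith
  · right; right; right; right; right; left; linarith
  · right; right; right; right; right; right; left; linarith
  · right; right; right; right; right; right; right; linarith

lemma gmt {l g tau s : ℝ} {Q : ℕ} (h : LVc l g tau s Q) (q : ℕ) (κ : ℝ) (hκ : (q : ℝ) = κ) (t : ℝ) (h1 : 1 ≤ q)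
    (hQ : q ≤ Q) (hl : l ≤ t) (h2 : t + s ≤ 2 * l) :
    tau ≤ 2 * g + s ∨ tau ≤ 1 - t + 2 * g + s ∨
    tau ≤ (4 * t / 3 - 2 * l + 4 * g) + s ∨ tau ≤ 1 - t + (4 * t / 3 - 2 * l + 4 * g) + s ∨
    tau ≤ (t / 2 - l + 4 * g) + s ∨ tau ≤ 1 - t + (t / 2 - l + 4 * g) + s ∨
    tau ≤ (t - 2 * l + 16 * g / 3) + s ∨ tau ≤ 1 - t + (t - 2 * l + 16 * g / 3) + s ∨
    tau ≤ (t - 2 * l + 28 * g / 5) + s ∨ tau ≤ 1 - t + (t - 2 * l + 28 * g / 5) + s ∨
    tau ≤ (3 * t / 2 - 3 * l + 7 * g) + s ∨ tau ≤ 1 - t + (3 * t / 2 - 3 * l + 7 * g) + s ∨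
    (κ + 1) * (tau - s) ≤ t - κ * l + 6 * κ * g ∨ (κ + 1) * (tau - (1 - t) - s) ≤ t - κ * l + 6 * κ * g ∨
    (κ + 1) * (tau - s) ≤ κ * (t - 2 * l + 6 * g) ∨ (κ + 1) * (tau - (1 - t) - s) ≤ κ * (t - 2 * l + 6 * g) := by
  obtain ⟨m, hm, h3⟩ := gm8 h q κ hκ t h1 hQ hl h2
  rcases hm with hm | hm
  · subst hm
    rcases h3 with h | h | h | h | h | h | h | h
    · left; linarith
    · right; right; left; linarith
    · right; right; right; right; left; linarith
    · right; right; right; right; right; right; left; linarith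
    · right; right; right; right; right; right; right; right; left; linarith
    · right; right; right; right; right; right; right; right; right; right; left; linarith
    · right; right; right; right; right; right; right; right; right; right; right; right; left; linarith
    · right; right; right; right; right; right; right; right; right; right; right; right; right; right; left; linarith
  · subst hm
    rcases h3 with h | h | h | h | h | h | h | h
    · right; left; linarith
    · right; right; right; left; linarith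
    · right; right; right; right; right; left; linarith
    · right; right; right; right; right; right; right; left; linarith
    · right; right; right; right; right; right; right; right; right; left; linarith
    · right; right; right; right; right; right; right; right; right; right; right; left; linarith
    · right; right; right; right; right; right; right; right; right; right; right; right; right; left; linarith
    · right; right; right; right; right; right; right; right; right; right; right; right; right; right; right; linarith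

/-- case 2: `b ≤ 1 - r ≤ a` -/
theorem case2w (a b c gA gB h tau W s e : ℝ) (Q : ℕ) (he : e ≤ 1 / 10 ^ 8) (hQ : 20 ≤ Q) (hs : 0 < s) (hse : s ≤ e)
    (hb0 : 0 < b) (hgA : a / 60 ≤ gA) (hgB : b / 60 ≤ gB) (hh : c / 60 ≤ h) (hba : b ≤ a)
    (ha1 : a ≤ 1 + e) (hbr : b ≤ 1 - 87 / 1000) (har : 1 - 87 / 1000 ≤ a) (hc1 : c ≤ 37 / 200 + e) (hlo : 2 - e ≤ a + b + c) (hhi : a + b + c ≤ 2 + e)
    (hW : gA + gB + h - s ≤ W) (hWt : W ≤ tau + s) (ht1 : tau ≤ 1 + s)
    (hlv : ∀ i j k : ℕ, 0 < i * a + j * b + k * c → i * a + j * b + k * c ≤ 2 →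
      LVc (i * a + j * b + k * c) (i * gA + j * gB + k * h) tau s Q)
    (hco : ∀ i j k : ℕ, i * a + j * b + k * c ≤ 2 →
      COx (87 / 1000) (i * a + j * b + k * c) (i * gA + j * gB + k * h) tau W s) : False := by
  have H004 : LVc (4 * c) (4 * h) tau s Q := by
    simpa using hlv 0 0 4 (by norm_num; linarith) (by norm_num; linarith)
  have H005 : LVc (5 * c) (5 * h) tau s Q := by
    simpa using hlv 0 0 5 (by norm_num; linarith) (by norm_num; linarith)
  have H006 : LVc (6 * c) (6 * h) tau s Q := by
    simpa using hlv 0 0 6 (by norm_num; linarith) (by norm_num; linarith)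
  have H010 : LVc (b) (gB) tau s Q := by
    simpa using hlv 0 1 0 (by norm_num; linarith) (by norm_num; linarith)
  have H011 : LVc (b + c) (gB + h) tau s Q := by
    simpa using hlv 0 1 1 (by norm_num; linarith) (by norm_num; linarith)
  have H100 : LVc (a) (gA) tau s Q := by
    simpa using hlv 1 0 0 (by norm_num; linarith) (by norm_num; linarith)
  have H101 : LVc (a + c) (gA + h) tau s Q := by
    simpa using hlv 1 0 1 (by norm_num; linarith) (by norm_num; linarith)
  have K005 : COx (87 / 1000) (5 * c) (5 * h) tau W s := by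
    simpa using hco 0 0 5 (by norm_num; linarith)
  have K006 : COx (87 / 1000) (6 * c) (6 * h) tau W s := by
    simpa using hco 0 0 6 (by norm_num; linarith)
  have K010 : COx (87 / 1000) (b) (gB) tau W s := by
    simpa using hco 0 1 0 (by norm_num; linarith)
  have K100 : COx (87 / 1000) (a) (gA) tau W s := by
    simpa using hco 1 0 0 (by norm_num; linarith)
  have r1 : 2 * W - 2 * gA ≤ tau + s := by
    rcases K100 with k | k <;> linarith
  have r3 : tau ≤ 2 * (gB + h) + 2 * e + s := by
    rcases mvs H011 with k | k <;> linarith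
  have r4 : tau ≤ 2 * (gA + h) + 2 * e + s := by
    rcases mvs H101 with k | k <;> linarith
  have r5 : tau ≤ 2 * gA + 1 - a + e + s := by
    rcases mvs H100 with k | k <;> linarith
  have r6 : tau ≤ 2 * gB + 1 - b + e + s := by
    rcases mvs H010 with k | k <;> linarith
  have r7 : 2 * W - 2 * gB ≤ tau + 1 - b - 87 / 1000 + s := by
    rcases K010 with k | k <;> linarith
  rcases hxs H010 with q1 | q1
  · linarith
  · rcases hxs H004 with q2 | q2
    · linarith
    · rcases cos' K006 with q3 | q3
      · rcases hxs H011 with q4 | q4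
        · rcases cos' K005 with q5 | q5
          · rcases mvs H005 with q6 | q6
            · linarith
            · rcases lt_or_ge 1 b with q7 | q7
              · linarith
              rcases lt_or_ge (2 * b) (1 + s) with q8 | q8
              · linarith
              rcases gm1 H010 9 9 (by norm_num) (by norm_num) (by omega) q7 q8 with q9 | q9 | q9 | q9 | q9 | q9 | q9 | q9
              · linarith
              · linarith
              · linarith
              · linarith
              · linarith
              · linarith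
              · linarith
              · rcases lt_or_ge 1 b with q10 | q10
                · linarith
                rcases lt_or_ge (2 * b) (1 + s) with q11 | q11
                · linarith
                rcases gm1 H010 5 5 (by norm_num) (by norm_num) (by omega) q10 q11 with q12 | q12 | q12 | q12 | q12 | q12 | q12 | q12
                · linarith
                · linarith
                · linarith
                · linarith
                · linarith
                · linarith
                · linarith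
                · linarith
          · rcases lt_or_ge 1 b with q13 | q13
            · linarith
            rcases lt_or_ge (2 * b) (1 + s) with q14 | q14
            · linarith
            rcases gm1 H010 9 9 (by norm_num) (by norm_num) (by omega) q13 q14 with q15 | q15 | q15 | q15 | q15 | q15 | q15 | q15
            · linarith
            · linarith
            · linarith
            · linarith
            · linarith
            · linarith
            · rcases mvs H006 with q16 | q16
              · linarith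
              · linarith
            · linarith
        · rcases cos' K005 with q17 | q17
          · linarith
          · linarith
      · linarith

/-- case 3: `b ≤ a ≤ 1 - r` -/
theorem case3w (a b c gA gB h tau W s e : ℝ) (Q : ℕ) (he : e ≤ 1 / 10 ^ 8) (hQ : 20 ≤ Q) (hs : 0 < s) (hse : s ≤ e)
    (hb0 : 0 < b) (hgA : a / 60 ≤ gA) (hgB : b / 60 ≤ gB) (hh : c / 60 ≤ h) (hba : b ≤ a)
    (ha1 : a ≤ 1 + e) (hbr : b ≤ 1 - 87 / 1000) (har : a ≤ 1 - 87 / 1000) (hc1 : c ≤ 37 / 200 + e) (hlo : 2 - e ≤ a + b + c) (hhi : a + b + c ≤ 2 + e)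
    (hW : gA + gB + h - s ≤ W) (hWt : W ≤ tau + s) (ht1 : tau ≤ 1 + s)
    (hlv : ∀ i j k : ℕ, 0 < i * a + j * b + k * c → i * a + j * b + k * c ≤ 2 →
      LVc (i * a + j * b + k * c) (i * gA + j * gB + k * h) tau s Q)
    (hco : ∀ i j k : ℕ, i * a + j * b + k * c ≤ 2 →
      COx (87 / 1000) (i * a + j * b + k * c) (i * gA + j * gB + k * h) tau W s) : False := by
  have H005 : LVc (5 * c) (5 * h) tau s Q := by
    simpa using hlv 0 0 5 (by norm_num; linarith) (by norm_num; linarith)
  have H010 : LVc (b) (gB) tau s Q := by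
    simpa using hlv 0 1 0 (by norm_num; linarith) (by norm_num; linarith)
  have H011 : LVc (b + c) (gB + h) tau s Q := by
    simpa using hlv 0 1 1 (by norm_num; linarith) (by norm_num; linarith)
  have H100 : LVc (a) (gA) tau s Q := by
    simpa using hlv 1 0 0 (by norm_num; linarith) (by norm_num; linarith)
  have H101 : LVc (a + c) (gA + h) tau s Q := by
    simpa using hlv 1 0 1 (by norm_num; linarith) (by norm_num; linarith)
  have K010 : COx (87 / 1000) (b) (gB) tau W s := by
    simpa using hco 0 1 0 (by norm_num; linarith)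
  have K100 : COx (87 / 1000) (a) (gA) tau W s := by
    simpa using hco 1 0 0 (by norm_num; linarith)
  have r1 : 2 * W - 2 * gA ≤ tau + 1 - a - 87 / 1000 + s := by
    rcases K100 with k | k <;> linarith
  have r3 : tau ≤ 2 * (gB + h) + 2 * e + s := by
    rcases mvs H011 with k | k <;> linarith
  have r4 : tau ≤ 2 * (gA + h) + 2 * e + s := by
    rcases mvs H101 with k | k <;> linarith
  have r5 : tau ≤ 2 * gA + 1 - a + e + s := by
    rcases mvs H100 with k | k <;> linarith
  have r6 : tau ≤ 2 * gB + 1 - b + e + s := by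
    rcases mvs H010 with k | k <;> linarith
  have r7 : 2 * W - 2 * gB ≤ tau + 1 - b - 87 / 1000 + s := by
    rcases K010 with k | k <;> linarith
  rcases hxs H010 with q18 | q18
  · linarith
  · rcases hxs H005 with q19 | q19
    · linarith
    · rcases mvs H005 with q20 | q20
      · linarith
      · rcases lt_or_ge 1 b with q21 | q21
        · linarith
        rcases lt_or_ge (2 * b) (1 + s) with q22 | q22
        · linarith
        rcases gm1 H010 12 12 (by norm_num) (by norm_num) (by omega) q21 q22 with q23 | q23 | q23 | q23 | q23 | q23 | q23 | q23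
        · linarith
        · linarith
        · linarith
        · linarith
        · linarith
        · linarith
        · linarith
        · linarith

/-- the lemma for `b ≤ a` -/
theorem core {β : ℝ} (hβ : 0 < β) (hβ1 : β ≤ 1 / 20) {a b c gA gB h tau W s e : ℝ} (he : e = β ^ 2 / 10 ^ 7) (hs : 0 < s) (hse : s ≤ e)
    (hb0 : 0 < b) (hgA : a / 60 ≤ gA) (hgB : b / 60 ≤ gB) (hh : c / 60 ≤ h) (ha1 : a ≤ 1 + e)
    (hc0 : β / 8 ≤ c) (hc1 : c ≤ 37 / 200 + e) (hlo : 2 - e ≤ a + b + c) (hhi : a + b + c ≤ 2 + e) (hW : gA + gB + h - s ≤ W)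
    (hWt : W ≤ tau + s) (ht1 : tau ≤ 1 + s)
    (hlv : ∀ i j k : ℕ, 0 < i * a + j * b + k * c → i * a + j * b + k * c ≤ 2 →
      LVc (i * a + j * b + k * c) (i * gA + j * gB + k * h) tau s ⌈20 / β⌉₊)
    (hco : ∀ i j k : ℕ, i * a + j * b + k * c ≤ 2 → COx (87 / 1000) (i * a + j * b + k * c) (i * gA + j * gB + k * h) tau W s)
    (hab : b ≤ a) : False := by
  have e0 : 0 < e := by rw [he]; positivity
  have e2 : e ≤ 1 / 10 ^ 8 := by rw [he]; nlinarith
  have hc : 0 < c := by linarith
  have hQ : 100 ≤ ⌈20 / β⌉₊ := by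
    have h5 : ((100 : ℕ) : ℝ) ≤ ⌈20 / β⌉₊ := by
      refine le_trans ?_ (Nat.le_ceil _)
      rw [le_div_iff₀ hβ]
      push_cast
      linarith
    exact_mod_cast h5
  rcases le_total (1 - 87 / 1000) b with hbr | hbr
  · have LA : LVc a gA tau s ⌈20 / β⌉₊ := by
      have := hlv 1 0 0 (by norm_num; linarith) (by norm_num; linarith)
      simpa using this
    have LB : LVc b gB tau s ⌈20 / β⌉₊ := by
      have := hlv 0 1 0 (by norm_num; linarith) (by norm_num; linarith)
      simpa using this
    have LBC : LVc (b + c) (gB + h) tau s ⌈20 / β⌉₊ := by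
      have := hlv 0 1 1 (by norm_num; linarith) (by norm_num; linarith)
      simpa using this
    have LAC : LVc (a + c) (gA + h) tau s ⌈20 / β⌉₊ := by
      have := hlv 1 0 1 (by norm_num; linarith) (by norm_num; linarith)
      simpa using this
    have CA := hco 1 0 0 (by norm_num; linarith)
    have CB := hco 0 1 0 (by norm_num; linarith)
    norm_num at CA CB
    have coA : 2 * gB + 2 * h ≤ tau + 3 * s := by
      rcases CA with H | H
      · linarith
      · linarith
    have coB : 2 * gA + 2 * h ≤ tau + 3 * s := by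
      rcases CB with H | H
      · linarith
      · linarith
    have mvBC : tau ≤ 2 * gB + 2 * h + 3 * e := by
      rcases mvs LBC with ⟨h1, h2⟩ | ⟨h1, h2⟩ <;> linarith
    have mvAC : tau ≤ 2 * gA + 2 * h + 3 * e := by
      rcases mvs LAC with ⟨h1, h2⟩ | ⟨h1, h2⟩ <;> linarith
    obtain ⟨k, hk⟩ : ∃ k : ℕ, ⌈1 / c⌉₊ = k + 1 := by
      have : 0 < ⌈1 / c⌉₊ := Nat.ceil_pos.2 (by positivity)
      exact ⟨⌈1 / c⌉₊ - 1, by omega⟩
    have h1 : 1 ≤ ((k : ℝ) + 1) * c := by
      have := Nat.le_ceil (1 / c)
      rw [hk] at this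
      push_cast at this
      rwa [div_le_iff₀ hc] at this
    have h2 : (k : ℝ) * c < 1 := by
      have := Nat.ceil_lt_add_one (show 0 ≤ 1 / c by positivity)
      rw [hk] at this
      push_cast at this
      have h3 : (k : ℝ) < 1 / c := by linarith
      rwa [lt_div_iff₀ hc] at h3
    have h3 : 2 * k + 1 ≤ ⌈20 / β⌉₊ := by
      have h4 : (k : ℝ) * β ≤ 8 := by
        have : (k : ℝ) * (β / 8) ≤ k * c := mul_le_mul_of_nonneg_left hc0 (by positivity)
        linarith
      have h5 : ((2 * k + 1 : ℕ) : ℝ) ≤ ⌈20 / β⌉₊ := by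
        refine le_trans ?_ (Nat.le_ceil _)
        rw [le_div_iff₀ hβ]
        push_cast
        nlinarith
      exact_mod_cast h5
    have hk0 : 0 < (k : ℝ) := by
      by_contra hcon
      push Not at hcon
      nlinarith
    have Lk : LVc (k * c) (k * h) tau s ⌈20 / β⌉₊ := by
      have := hlv 0 0 k (by norm_num; positivity) (by norm_num; linarith)
      simpa using this
    have Lk1 : LVc ((k + 1) * c) ((k + 1) * h) tau s ⌈20 / β⌉₊ := by
      have := hlv 0 0 (k + 1) (by push_cast; linarith) (by push_cast; linarith)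
      simpa using this
    exact Tr_aux.case1 hβ hβ1 he hs hse hh hc0 (by linarith) hlo coA mvBC mvAC coB h2 h1 h3 LA LB Lk Lk1
  · rcases le_total (1 - 87 / 1000) a with har | har
    · exact case2w a b c gA gB h tau W s e _ e2 (by omega) hs hse hb0 hgA hgB hh hab ha1 hbr har hc1 hlo hhi hW hWt ht1 hlv hco
    · exact case3w a b c gA gB h tau W s e _ e2 (by omega) hs hse hb0 hgA hgB hh hab ha1 hbr har hc1 hlo hhi hW hWt ht1 hlv hco

end Tr3r_aux

/-- **the three-block lemma at the exponents of the third wave** -/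
theorem iTr3r : Tri (87 / 1000) (37 / 200) := by
  intro β hβ hβ1
  refine ⟨β ^ 2 / 10 ^ 7, by positivity, by nlinarith, ⌈20 / β⌉₊, ?_⟩
  intro a b c gA gB h tau W s hs hse ha hb hgA hgB hh ha1 hb1 hc0 hc1 hsum0 hsum1 hW hWt ht1 hLV hCO
  rcases le_total b a with hab | hab
  · exact Tr3r_aux.core hβ hβ1 rfl hs hse hb hgA hgB hh ha1 hc0 hc1 hsum0 hsum1 hW hWt ht1 hLV hCO hab
  · refine Tr3r_aux.core (a := b) (b := a) (gA := gB) (gB := gA) hβ hβ1 rfl hs hse ha hgB hgA hh hb1 hc0 hc1 (by linarith)
      (by linarith) (by linarith) hWt ht1 ?_ ?_ hab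
    · intro i j k h1 h2
      have := hLV j i k (by linarith) (by linarith)
      rw [show (i : ℝ) * b + j * a = j * a + i * b by ring, show (i : ℝ) * gB + j * gA = j * gA + i * gB by ring]
      exact this
    · intro i j k h2
      have := hCO j i k (by linarith)
      rw [show (i : ℝ) * b + j * a = j * a + i * b by ring, show (i : ℝ) * gB + j * gA = j * gA + i * gB by ring]
      exact this

end Pool.Agent.Work.MP_a8fbd7_nt.EX.CELL
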