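import Mathlib
import Pool.Agent.Work.MP_a8fbd7_nt.EX.CELL.Stmts2
import Pool.Agent.Work.MP_a8fbd7_nt.EX.CELL.I_Tr3r

/-!
MP_a8fbd7_nt, block EX, third wave: the three-block lemma for class A at the exponents `r = 87/1000`, `c0 = 37/200`.
The case tree was found by a linear programming search (helper68); every leaf is an infeasible linear programme.
-/

set_option autoImplicit false

namespace Pool.Agent.Work.MP_a8fbd7_nt.EX.CELL

open Pool.Agent.Work.MP_a8fbd7_nt.OX
open Pool.Agent.Work.MP_a8fbd7_nt.EX

open Tr3r_aux in
/-- the tree, for `b ≤ a` -/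
theorem TrA3r_tree (κ2 a b c gA gB h tau W s e : ℝ) (Q : ℕ) (hκ : 0 < κ2) (heκ : e ≤ κ2 / 1000) (he : e ≤ 1 / 10 ^ 8)
    (hQ : 20 ≤ Q) (hs : 0 < s) (hse : s ≤ e) (ha : 0 < a) (hb : 0 < b) (hc : 0 < c) (hgA : 0 ≤ gA) (hgB : 0 ≤ gB) (hh : 0 ≤ h)
    (hba : b ≤ a) (hν : a + b + c ≤ 2 - κ2) (hac : 1 + 87 / 1000 - e ≤ a + c) (hbc : 1 + 87 / 1000 - e ≤ b + c) (hc0 : c ≤ 37 / 200 + e)
    (hW : gA + gB + h + 1 - (a + b + c) / 2 - s ≤ W) (hWt : W ≤ tau + s) (ht1 : tau ≤ 1 + s)
    (hlv : ∀ i j k : ℕ, 0 < i * a + j * b + k * c → i * a + j * b + k * c ≤ 2 →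
      LVc (i * a + j * b + k * c) (i * gA + j * gB + k * h) tau s Q)
    (hco : ∀ i j k : ℕ, i * a + j * b + k * c ≤ 2 →
      COx (87 / 1000) (i * a + j * b + k * c) (i * gA + j * gB + k * h) tau W s) : False := by
  have H005 : LVc (5 * c) (5 * h) tau s Q := by
    simpa using hlv 0 0 5 (by norm_num; linarith) (by norm_num; linarith)
  have H006 : LVc (6 * c) (6 * h) tau s Q := by
    simpa using hlv 0 0 6 (by norm_num; linarith) (by norm_num; linarith)
  have H010 : LVc (b) (gB) tau s Q := by
    simpa using hlv 0 1 0 (by norm_num; linarith) (by norm_num; linarith)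
  have H011 : LVc (b + c) (gB + h) tau s Q := by
    simpa using hlv 0 1 1 (by norm_num; linarith) (by norm_num; linarith)
  have H014 : LVc (b + 4 * c) (gB + 4 * h) tau s Q := by
    simpa using hlv 0 1 4 (by norm_num; linarith) (by norm_num; linarith)
  have H100 : LVc (a) (gA) tau s Q := by
    simpa using hlv 1 0 0 (by norm_num; linarith) (by norm_num; linarith)
  have K010 : COx (87 / 1000) (b) (gB) tau W s := by
    simpa using hco 0 1 0 (by norm_num; linarith)
  have K011 : COx (87 / 1000) (b + c) (gB + h) tau W s := by
    simpa using hco 0 1 1 (by norm_num; linarith)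
  rcases hxs H100 with qa | qa
  · rcases hxs H010 with qb | qb
    · linarith
    · rcases mvs H011 with q12 | q12
      · rcases mvs H005 with q13 | q13
        · linarith
        · rcases cos' K010 with q14 | q14
          · linarith
          · linarith
      · linarith
  · rcases cos' K011 with q1 | q1
    · rcases mvs H006 with q2 | q2
      · rcases mvs H014 with q3 | q3
        · rcases mvs H011 with q4 | q4
          · rcases cos' K010 with q5 | q5
            · rcases mvs H100 with q6 | q6
              · linarith
              · linarith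
            · rcases mvs H005 with q7 | q7
              · linarith
              · rcases mvs H100 with q8 | q8
                · linarith
                · rcases lt_or_ge 1 a with q9 | q9
                  · linarith
                  rcases lt_or_ge (2 * a) (1 + s) with q10 | q10
                  · linarith
                  rcases gm1 H100 12 12 (by norm_num) (by norm_num) (by omega) q9 q10 with q11 | q11 | q11 | q11 | q11 | q11 | q11 | q11
                  · linarith
                  · linarith
                  · linarith
                  · linarith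
                  · linarith
                  · linarith
                  · linarith
                  · linarith
          · linarith
        · linarith
      · linarith
    · linarith

/-- **the three-block lemma for class A at the exponents of the third wave** -/
theorem iTrA3r : TriA (87 / 1000) (37 / 200) := by
  intro κ2 hκ hκ1
  refine ⟨κ2 / 10 ^ 8, by positivity, by linarith, 20, ?_⟩
  intro a b c gA gB h tau W s hs hse ha hb hc hgA hgB hh hν hac hbc hc0 hW hWt ht1 hlv hco
  rcases le_total b a with hab | hab
  · exact TrA3r_tree κ2 a b c gA gB h tau W s (κ2 / 10 ^ 8) 20 hκ (by linarith) (by linarith) le_rfl hs hse ha hb hc hgA hgB hh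
      hab hν hac hbc hc0 hW hWt ht1 hlv hco
  · refine TrA3r_tree κ2 b a c gB gA h tau W s (κ2 / 10 ^ 8) 20 hκ (by linarith) (by linarith) le_rfl hs hse hb ha hc hgB hgA hh
      hab (by linarith) hbc hac hc0 (by linarith) hWt ht1 ?_ ?_
    · intro i j k h1 h2
      have := hlv j i k (by linarith) (by linarith)
      rwa [add_comm ((j : ℝ) * a), add_comm ((j : ℝ) * gA)] at this
    · intro i j k h2
      have := hco j i k (by linarith)
      rwa [add_comm ((j : ℝ) * a), add_comm ((j : ℝ) * gA)] at this

end Pool.Agent.Work.MP_a8fbd7_nt.EX.CELL
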