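import Mathlib
import Pool.Agent.Work.MP_a8fbd7_nt.EX.CELL.Stmts

/-!
MP_a8fbd7_nt, block EX, part CELL: case 2 (`b ≤ 1 - rE`) of the three-block lemma.  The case tree was found by a linear
programming search (helper68); every leaf is an infeasible linear programme.
-/

set_option autoImplicit false

namespace Pool.Agent.Work.MP_a8fbd7_nt.EX.CELL

open Pool.Agent.Work.MP_a8fbd7_nt.OX
open Pool.Agent.Work.MP_a8fbd7_nt.EX

namespace Tr2_aux

lemma sp {t x y s : ℝ} (h : t ≤ max x y + s) : t ≤ x + s ∨ t ≤ y + s := by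
  rcases max_cases x y with h1 | h1
  · left; linarith [h1.1]
  · right; linarith [h1.1]

lemma hxs {l g tau s : ℝ} {Q : ℕ} (h : LVc l g tau s Q) :
    tau ≤ 2 * g + s ∨ tau ≤ 1 + 6 * g - 2 * l + s := sp h.hx

lemma mvs {l g tau s : ℝ} {Q : ℕ} (h : LVc l g tau s Q) :
    (1 ≤ l ∧ tau ≤ 2 * g + s) ∨ (l ≤ 1 ∧ tau ≤ 2 * g + 1 - l + s) := by
  have h1 := h.mv
  rcases le_total 1 l with hl | hl
  · left
    rw [max_eq_left (by linarith)] at h1
    exact ⟨hl, by linarith⟩
  · right
    rw [max_eq_right (by linarith)] at h1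
    exact ⟨hl, by linarith⟩

lemma cos' {r l g tau W s : ℝ} (h : COx r l g tau W s) :
    (1 - r ≤ l ∧ 2 * W - 2 * g ≤ tau + s) ∨ (l ≤ 1 - r ∧ 2 * W - 2 * g ≤ tau + 1 - l - r + s) := by
  rcases le_total (1 - r) l with hl | hl
  · left
    refine ⟨hl, ?_⟩
    rcases h with h | h <;> linarith
  · right
    refine ⟨hl, ?_⟩
    rcases h with h | h <;> linarith

lemma js {l g tau s : ℝ} {Q : ℕ} (h : LVc l g tau s Q) (k : ℕ) (t : ℝ) (h2 : 2 ≤ k) (h6 : k ≤ 6)
    (ht0 : 0 ≤ t) (ht1 : t ≤ 1) (hg : g + s ≤ l / 4) :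
    tau ≤ 1 - t + 2 * g + s ∨ tau ≤ 1 - t + (k * t - 2 * k * l + 4 * k * g) + s ∨
      tau ≤ 1 - t + (2 * t / 3 - 4 * k * l / 3 + 16 * k * g / 3) + s := by
  have h1 := h.jj k t h2 h6 ht0 ht1 hg
  unfold JTk at h1
  rcases max_cases (2 * g) (max (k * t - 2 * k * l + 4 * k * g) (2 * t / 3 - 4 * k * l / 3 + 16 * k * g / 3)) with h3 | h3
  · left; linarith [h3.1]
  · right
    rcases max_cases (k * t - 2 * k * l + 4 * k * g) (2 * t / 3 - 4 * k * l / 3 + 16 * k * g / 3) with h4 | h4
    · left; linarith [h3.1, h4.1]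
    · right; linarith [h3.1, h4.1]

end Tr2_aux

open Tr2_aux

/-- case 2 of the three-block lemma: one of the two groups is shorter than `T^(1-r)` -/
theorem case2 (a b c gA gB h tau W s e : ℝ) (Q : ℕ) (he : e ≤ 1 / 10 ^ 6) (hs : 0 < s) (hse : s ≤ e)
    (hb0 : 0 < b) (hgA : a / 60 ≤ gA) (hgB : b / 60 ≤ gB) (hh : c / 60 ≤ h)
    (ha1 : a ≤ 1 + e) (hbr : b ≤ 1 - rE) (hc1 : c ≤ cE + e) (hlo : 2 - e ≤ a + b + c) (hhi : a + b + c ≤ 2 + e)
    (hW : gA + gB + h - s ≤ W) (hWt : W ≤ tau + s) (ht1 : tau ≤ 1 + s)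
    (hlv : ∀ i j k : ℕ, 0 < i * a + j * b + k * c → i * a + j * b + k * c ≤ 2 →
      LVc (i * a + j * b + k * c) (i * gA + j * gB + k * h) tau s Q)
    (hco : ∀ i j k : ℕ, i * a + j * b + k * c ≤ 2 →
      COx rE (i * a + j * b + k * c) (i * gA + j * gB + k * h) tau W s) : False := by
  simp only [rE] at hbr hco
  simp only [cE] at hc1
  have hA : LVc a gA tau s Q := by
    simpa using hlv 1 0 0 (by norm_num; linarith) (by norm_num; linarith)
  have hB : LVc b gB tau s Q := by
    simpa using hlv 0 1 0 (by norm_num; linarith) (by norm_num; linarith)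
  have hBC : LVc (b + c) (gB + h) tau s Q := by
    simpa using hlv 0 1 1 (by norm_num; linarith) (by norm_num; linarith)
  have hAC : LVc (a + c) (gA + h) tau s Q := by
    simpa using hlv 1 0 1 (by norm_num; linarith) (by norm_num; linarith)
  have hC2 : LVc (2 * c) (2 * h) tau s Q := by
    simpa using hlv 0 0 2 (by norm_num; linarith) (by norm_num; linarith)
  have hC4 : LVc (4 * c) (4 * h) tau s Q := by
    simpa using hlv 0 0 4 (by norm_num; linarith) (by norm_num; linarith)
  have hC6 : LVc (6 * c) (6 * h) tau s Q := by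
    simpa using hlv 0 0 6 (by norm_num; linarith) (by norm_num; linarith)
  have kA : COx (239 / 2000) a gA tau W s := by
    simpa using hco 1 0 0 (by norm_num; linarith)
  have kB : COx (239 / 2000) b gB tau W s := by
    simpa using hco 0 1 0 (by norm_num; linarith)
  have kC4 : COx (239 / 2000) (4 * c) (4 * h) tau W s := by
    simpa using hco 0 0 4 (by norm_num; linarith)
  -- root facts
  have r1 : 2 * W - 2 * gA ≤ tau + s := by
    rcases kA with k | k <;> linarith
  have r2 : 2 * W - 2 * gB ≤ tau + 1 - b - 239 / 2000 + s := by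
    rcases kB with k | k <;> linarith
  have r3 : tau ≤ 2 * (gB + h) + 2 * e + s := by
    rcases mvs hBC with k | k <;> linarith
  have r4 : tau ≤ 2 * (gA + h) + s := by
    rcases mvs hAC with k | k <;> linarith
  have r5 : tau ≤ 2 * gA + 1 - a + e + s := by
    rcases mvs hA with k | k <;> linarith
  have r6 : tau ≤ 2 * gB + 1 - b + s := by
    rcases mvs hB with k | k <;> linarith
  rcases hxs hB with q1 | q1
  · linarith
  rcases hxs hC2 with q2 | q2
  · linarith
  rcases mvs hC6 with q3 | q3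
  swap
  · linarith
  rcases cos' kC4 with q4 | q4
  swap
  · linarith
  rcases lt_or_ge (b / 4) (gB + s) with q5 | q5
  · rcases hxs hC4 with q6 | q6
    · linarith
    · linarith
  rcases js hB 2 1 (by norm_num) (by norm_num) (by norm_num) le_rfl q5 with q6 | q6 | q6
  · norm_num at q6; linarith
  · norm_num at q6; linarith
  norm_num at q6
  rcases lt_or_ge 1 ((10 * b - 18 * gB) / 5) with q7 | q7
  · linarith
  rcases lt_or_ge ((10 * b - 18 * gB) / 5) 0 with q8 | q8
  · linarith
  rcases js hB 5 ((10 * b - 18 * gB) / 5) (by norm_num) (by norm_num) q8 q7 q5 with q9 | q9 | q9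
  · norm_num at q9; linarith
  · norm_num at q9; linarith
  norm_num at q9
  rcases hxs hA with q10 | q10
  · linarith
  rcases mvs hC4 with q11 | q11
  · linarith
  · linarith

end Pool.Agent.Work.MP_a8fbd7_nt.EX.CELL
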