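import Mathlib
import Pool.Agent.Work.MP_a8fbd7_nt.EX.CELL.Stmts2

/-!
MP_a8fbd7_nt, block EX, second wave (EX2), part CELL: the region `b ≤ 1 - r2` of the three-block lemma at `(r2, c2)`.
Case tree found by an exact linear programming branch and bound (every leaf is an infeasible linear programme; the
hypotheses used in a leaf are the support of the dual solution).  Author: helper51.
-/

set_option autoImplicit false

noncomputable section

namespace Pool.Agent.Work.MP_a8fbd7_nt.EX.CELL

open Pool.Agent.Work.MP_a8fbd7_nt.OX
open Pool.Agent.Work.MP_a8fbd7_nt.EX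

namespace Tr3_aux

theorem mv_hi {l g tau s : ℝ} {Q : ℕ} (H : LVc l g tau s Q) (hl : 1 ≤ l) : tau ≤ 2 * g + s := by
  have h := H.mv
  rw [max_eq_left (by linarith)] at h
  linarith

theorem mv_lo {l g tau s : ℝ} {Q : ℕ} (H : LVc l g tau s Q) (hl : l ≤ 1) : tau ≤ 2 * g + (1 - l) + s := by
  have h := H.mv
  rw [max_eq_right (by linarith)] at h
  linarith

theorem mv_or {l g tau s : ℝ} {Q : ℕ} (H : LVc l g tau s Q) : tau ≤ 2 * g + s ∨ tau ≤ 2 * g + (1 - l) + s := by
  rcases le_total 1 l with h | h
  · exact Or.inl (mv_hi H h)
  · exact Or.inr (mv_lo H h)

theorem hx_or {l g tau s : ℝ} {Q : ℕ} (H : LVc l g tau s Q) : tau ≤ 2 * g + s ∨ tau ≤ 1 + 6 * g - 2 * l + s := by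
  have h := H.hx
  rcases le_total (2 * g) (1 + 6 * g - 2 * l) with h1 | h1
  · rw [max_eq_right h1] at h; exact Or.inr h
  · rw [max_eq_left h1] at h; exact Or.inl h

/-- the eight terms of the Guth-Maynard menu with windows `T^t`, after removing `max 0 (1 - t)` -/
theorem gm8 {x l g t : ℝ} (q : ℕ) (hq : 1 ≤ q)
    (h : x ≤ max (2 * g) (max (4 * t / 3 - 2 * l + 4 * g) (max (t / 2 - l + 4 * g)
    (max (t - 2 * l + 16 * g / 3) (max (t - 2 * l + 28 * g / 5) (max (3 * t / 2 - 3 * l + 7 * g)
      (max ((q : ℝ) / (q + 1) * (t / q - l + 6 * g)) ((q : ℝ) / (q + 1) * (t - 2 * l + 6 * g))))))))) :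
    x ≤ 2 * g ∨ x ≤ 4 * t / 3 - 2 * l + 4 * g ∨ x ≤ t / 2 - l + 4 * g ∨ x ≤ t - 2 * l + 16 * g / 3 ∨
      x ≤ t - 2 * l + 28 * g / 5 ∨ x ≤ 3 * t / 2 - 3 * l + 7 * g ∨
      (q + 1) * x ≤ t + q * (6 * g - l) ∨ (q + 1) * x ≤ q * (t - 2 * l + 6 * g) := by
  have hq0 : (0 : ℝ) < q := by exact_mod_cast hq
  simp only [le_max_iff] at h
  rcases h with h | h | h | h | h | h | h | h
  · left; linarith
  · right; left; linarith
  · right; right; left; linarith
  · right; right; right; left; linarith
  · right; right; right; right; left; linarith
  · right; right; right; right; right; left; linarith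
  · right; right; right; right; right; right; left
    have h1 : (q + 1) * x ≤ (q + 1) * ((q : ℝ) / (q + 1) * (t / q - l + 6 * g)) :=
      mul_le_mul_of_nonneg_left h (by linarith)
    have h2 : (q + 1) * ((q : ℝ) / (q + 1) * (t / q - l + 6 * g)) = t + q * (6 * g - l) := by
      field_simp
      ring
    linarith
  · right; right; right; right; right; right; right
    have h1 : (q + 1) * x ≤ (q + 1) * ((q : ℝ) / (q + 1) * (t - 2 * l + 6 * g)) :=
      mul_le_mul_of_nonneg_left h (by linarith)
    have h2 : (q + 1) * ((q : ℝ) / (q + 1) * (t - 2 * l + 6 * g)) = q * (t - 2 * l + 6 * g) := by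
      field_simp
    linarith

theorem gm_or {l g tau s : ℝ} {Q : ℕ} (H : LVc l g tau s Q) (q : ℕ) (hq : 1 ≤ q) (hqQ : q ≤ Q) (hl : l ≤ 1) (hl2 : 1 + s ≤ 2 * l) :
    tau - s ≤ 2 * g ∨ tau - s ≤ 4 * 1 / 3 - 2 * l + 4 * g ∨ tau - s ≤ 1 / 2 - l + 4 * g ∨ tau - s ≤ 1 - 2 * l + 16 * g / 3 ∨
      tau - s ≤ 1 - 2 * l + 28 * g / 5 ∨ tau - s ≤ 3 * 1 / 2 - 3 * l + 7 * g ∨
      (q + 1) * (tau - s) ≤ 1 + q * (6 * g - l) ∨ (q + 1) * (tau - s) ≤ q * (1 - 2 * l + 6 * g) := by
  have h := H.gm q 1 hq hqQ hl hl2
  unfold GMx at h
  rw [sub_self, max_self] at h
  exact gm8 q hq (by linarith)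

theorem gm_t {l g tau s : ℝ} {Q : ℕ} (H : LVc l g tau s Q) (q : ℕ) (hq : 1 ≤ q) (hqQ : q ≤ Q) {t : ℝ} (hl : l ≤ t) (hl2 : t + s ≤ 2 * l) :
    (tau - s ≤ 2 * g ∨ tau - s ≤ 4 * t / 3 - 2 * l + 4 * g ∨ tau - s ≤ t / 2 - l + 4 * g ∨ tau - s ≤ t - 2 * l + 16 * g / 3 ∨
      tau - s ≤ t - 2 * l + 28 * g / 5 ∨ tau - s ≤ 3 * t / 2 - 3 * l + 7 * g ∨
      (q + 1) * (tau - s) ≤ t + q * (6 * g - l) ∨ (q + 1) * (tau - s) ≤ q * (t - 2 * l + 6 * g)) ∨
    (tau - s - (1 - t) ≤ 2 * g ∨ tau - s - (1 - t) ≤ 4 * t / 3 - 2 * l + 4 * g ∨ tau - s - (1 - t) ≤ t / 2 - l + 4 * g ∨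
      tau - s - (1 - t) ≤ t - 2 * l + 16 * g / 3 ∨ tau - s - (1 - t) ≤ t - 2 * l + 28 * g / 5 ∨
      tau - s - (1 - t) ≤ 3 * t / 2 - 3 * l + 7 * g ∨
      (q + 1) * (tau - s - (1 - t)) ≤ t + q * (6 * g - l) ∨ (q + 1) * (tau - s - (1 - t)) ≤ q * (t - 2 * l + 6 * g)) := by
  have h := H.gm q t hq hqQ hl hl2
  unfold GMx at h
  rcases le_total 1 t with h1 | h1
  · left
    rw [max_eq_left (by linarith : 1 - t ≤ 0)] at h
    exact gm8 q hq (by linarith)
  · right
    rw [max_eq_right (by linarith : 0 ≤ 1 - t)] at h
    exact gm8 q hq (by linarith)

theorem jj_v {l g tau s : ℝ} {Q : ℕ} (H : LVc l g tau s Q) (k : ℕ) (hk : 2 ≤ k) (hk6 : k ≤ 6) {t : ℝ} :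
    l / 4 ≤ g + s ∨ t ≤ 0 ∨ 1 ≤ t ∨ tau ≤ 1 - t + 2 * g + s ∨ tau ≤ 1 - t + (k * t - 2 * k * l + 4 * k * g) + s ∨
      tau ≤ 1 - t + (2 * t / 3 - 4 * k * l / 3 + 16 * k * g / 3) + s := by
  rcases le_total (l / 4) (g + s) with h0 | h0
  · exact Or.inl h0
  rcases le_total t 0 with h1 | h1
  · exact Or.inr (Or.inl h1)
  rcases le_total 1 t with h2 | h2
  · exact Or.inr (Or.inr (Or.inl h2))
  have h := H.jj k t hk hk6 h1 h2 h0
  unfold JTk at h
  have h' : tau - s - (1 - t) ≤ max (2 * g) (max (k * t - 2 * k * l + 4 * k * g) (2 * t / 3 - 4 * k * l / 3 + 16 * k * g / 3)) := by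
    linarith
  simp only [le_max_iff] at h'
  right; right; right
  rcases h' with h | h | h
  · left; linarith
  · right; left; linarith
  · right; right; linarith

theorem jj_c {l g tau s : ℝ} {Q : ℕ} (H : LVc l g tau s Q) (k : ℕ) (hk : 2 ≤ k) (hk6 : k ≤ 6) {t : ℝ} (ht0 : 0 ≤ t) (ht1 : t ≤ 1) :
    l / 4 ≤ g + s ∨ tau ≤ 1 - t + 2 * g + s ∨ tau ≤ 1 - t + (k * t - 2 * k * l + 4 * k * g) + s ∨
      tau ≤ 1 - t + (2 * t / 3 - 4 * k * l / 3 + 16 * k * g / 3) + s := by
  rcases le_total (l / 4) (g + s) with h0 | h0
  · exact Or.inl h0
  have h := H.jj k t hk hk6 ht0 ht1 h0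
  unfold JTk at h
  have h' : tau - s - (1 - t) ≤ max (2 * g) (max (k * t - 2 * k * l + 4 * k * g) (2 * t / 3 - 4 * k * l / 3 + 16 * k * g / 3)) := by
    linarith
  simp only [le_max_iff] at h'
  right
  rcases h' with h | h | h
  · left; linarith
  · right; left; linarith
  · right; right; linarith

end Tr3_aux

open Tr3_aux

/-- the region `b ≤ 1 - r2` of the three-block lemma -/
theorem case23 (a b c gA gB h tau W s e : ℝ) (Q : ℕ) (he : e ≤ 1 / 10 ^ 6) (hs : 0 < s) (hse : s ≤ e) (hQ : 20 ≤ Q)
    (hb0 : 0 < b) (gA0 : a / 60 ≤ gA) (gB0 : b / 60 ≤ gB) (h0 : c / 60 ≤ h) (hab : b ≤ a)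
    (ha1 : a ≤ 1 + e) (hbr : b ≤ 1 - r2) (hc0 : c ≤ c2 + e) (hnu0 : 2 - e ≤ a + b + c) (hnu : a + b + c ≤ 2 + e)
    (hW : gA + gB + h - s ≤ W) (hWt : W ≤ tau + s) (ht1 : tau ≤ 1 + s)
    (hlv : ∀ i j k : ℕ, 0 < i * a + j * b + k * c → i * a + j * b + k * c ≤ 2 →
      LVc (i * a + j * b + k * c) (i * gA + j * gB + k * h) tau s Q)
    (hco : ∀ i j k : ℕ, i * a + j * b + k * c ≤ 2 →
      COx r2 (i * a + j * b + k * c) (i * gA + j * gB + k * h) tau W s) : False := by
  have he6 : e ≤ 1 / 1000000 := by linarith
  clear he
  rename' he6 => he
  simp only [r2] at hbr hco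
  simp only [c2] at hc0
  have ha0 : 0 < a := by linarith
  have hc0' : 0 < c := by linarith
  have hb1 : b ≤ 1 + e := by linarith
  have L_0_0_3 := hlv 0 0 3 (by push_cast; linarith) (by push_cast; linarith)
  simp only [Nat.cast_zero, Nat.cast_one, Nat.cast_ofNat, zero_mul, zero_add, one_mul, add_zero] at L_0_0_3
  have L_0_0_4 := hlv 0 0 4 (by push_cast; linarith) (by push_cast; linarith)
  simp only [Nat.cast_zero, Nat.cast_one, Nat.cast_ofNat, zero_mul, zero_add, one_mul, add_zero] at L_0_0_4
  have L_0_0_5 := hlv 0 0 5 (by push_cast; linarith) (by push_cast; linarith)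
  simp only [Nat.cast_zero, Nat.cast_one, Nat.cast_ofNat, zero_mul, zero_add, one_mul, add_zero] at L_0_0_5
  have L_0_0_6 := hlv 0 0 6 (by push_cast; linarith) (by push_cast; linarith)
  simp only [Nat.cast_zero, Nat.cast_one, Nat.cast_ofNat, zero_mul, zero_add, one_mul, add_zero] at L_0_0_6
  have L_0_1_0 := hlv 0 1 0 (by push_cast; linarith) (by push_cast; linarith)
  simp only [Nat.cast_zero, Nat.cast_one, Nat.cast_ofNat, zero_mul, zero_add, one_mul, add_zero] at L_0_1_0
  have L_0_1_1 := hlv 0 1 1 (by push_cast; linarith) (by push_cast; linarith)
  simp only [Nat.cast_zero, Nat.cast_one, Nat.cast_ofNat, zero_mul, zero_add, one_mul, add_zero] at L_0_1_1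
  have L_0_2_0 := hlv 0 2 0 (by push_cast; linarith) (by push_cast; linarith)
  simp only [Nat.cast_zero, Nat.cast_one, Nat.cast_ofNat, zero_mul, zero_add, one_mul, add_zero] at L_0_2_0
  have L_1_0_0 := hlv 1 0 0 (by push_cast; linarith) (by push_cast; linarith)
  simp only [Nat.cast_zero, Nat.cast_one, Nat.cast_ofNat, zero_mul, zero_add, one_mul, add_zero] at L_1_0_0
  have L_1_0_1 := hlv 1 0 1 (by push_cast; linarith) (by push_cast; linarith)
  simp only [Nat.cast_zero, Nat.cast_one, Nat.cast_ofNat, zero_mul, zero_add, one_mul, add_zero] at L_1_0_1
  have L_1_1_0 := hlv 1 1 0 (by push_cast; linarith) (by push_cast; linarith)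
  simp only [Nat.cast_zero, Nat.cast_one, Nat.cast_ofNat, zero_mul, zero_add, one_mul, add_zero] at L_1_1_0
  have F_mv_0_0_4 := mv_lo L_0_0_4 (by linarith)
  have F_mv_0_1_0 := mv_lo L_0_1_0 (by linarith)
  have F_mv_0_2_0 := mv_hi L_0_2_0 (by linarith)
  have F_mv_1_0_1 := mv_hi L_1_0_1 (by linarith)
  have F_mv_1_1_0 := mv_hi L_1_1_0 (by linarith)
  have D_hx_0_0_3 := hx_or L_0_0_3
  have D_hx_0_0_4 := hx_or L_0_0_4
  have D_co_0_0_4 := hco 0 0 4 (by push_cast; linarith)
  simp only [COx, Nat.cast_zero, Nat.cast_one, Nat.cast_ofNat, zero_mul, zero_add, one_mul, add_zero] at D_co_0_0_4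
  have D_mv_0_0_5 := mv_or L_0_0_5
  have D_hx_0_0_5 := hx_or L_0_0_5
  have D_co_0_0_5 := hco 0 0 5 (by push_cast; linarith)
  simp only [COx, Nat.cast_zero, Nat.cast_one, Nat.cast_ofNat, zero_mul, zero_add, one_mul, add_zero] at D_co_0_0_5
  have D_hx_0_0_6 := hx_or L_0_0_6
  have D_hx_0_1_0 := hx_or L_0_1_0
  have D_gm_0_1_0_q_6_t_1 := gm_or L_0_1_0 6 (by norm_num) (le_trans (by norm_num) hQ) (by linarith) (by linarith)
  simp only [Nat.cast_ofNat] at D_gm_0_1_0_q_6_t_1
  have D_gm_0_1_0_q_6_t_6ld5 := gm_t L_0_1_0 6 (by norm_num) (le_trans (by norm_num) hQ) (t := 6 * b / 5) (by linarith) (by linarith)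
  simp only [Nat.cast_ofNat] at D_gm_0_1_0_q_6_t_6ld5
  have D_gm_0_1_0_q_7_t_1 := gm_or L_0_1_0 7 (by norm_num) (le_trans (by norm_num) hQ) (by linarith) (by linarith)
  simp only [Nat.cast_ofNat] at D_gm_0_1_0_q_7_t_1
  have D_gm_0_1_0_q_8_t_1 := gm_or L_0_1_0 8 (by norm_num) (le_trans (by norm_num) hQ) (by linarith) (by linarith)
  simp only [Nat.cast_ofNat] at D_gm_0_1_0_q_8_t_1
  have D_gm_0_1_0_q_9_t_1 := gm_or L_0_1_0 9 (by norm_num) (le_trans (by norm_num) hQ) (by linarith) (by linarith)
  simp only [Nat.cast_ofNat] at D_gm_0_1_0_q_9_t_1
  have D_jj_0_1_0_K_2_t_1 := jj_c L_0_1_0 2 (by norm_num) (by norm_num) (t := 1) (by norm_num) (by norm_num)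
  simp only [Nat.cast_ofNat] at D_jj_0_1_0_K_2_t_1
  have D_jj_0_1_0_K_4_t_092 := jj_c L_0_1_0 4 (by norm_num) (by norm_num) (t := 23 / 25) (by norm_num) (by norm_num)
  simp only [Nat.cast_ofNat] at D_jj_0_1_0_K_4_t_092
  have D_jj_0_1_0_K_5_t_2lm4m2dKg := jj_v L_0_1_0 5 (by norm_num) (by norm_num) (t := 2 * b - 18 * gB / 5)
  simp only [Nat.cast_ofNat] at D_jj_0_1_0_K_5_t_2lm4m2dKg
  have D_co_0_1_0 := hco 0 1 0 (by push_cast; linarith)
  simp only [COx, Nat.cast_zero, Nat.cast_one, Nat.cast_ofNat, zero_mul, zero_add, one_mul, add_zero] at D_co_0_1_0
  have D_mv_0_1_1 := mv_or L_0_1_1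
  have D_co_0_1_1 := hco 0 1 1 (by push_cast; linarith)
  simp only [COx, Nat.cast_zero, Nat.cast_one, Nat.cast_ofNat, zero_mul, zero_add, one_mul, add_zero] at D_co_0_1_1
  have D_mv_1_0_0 := mv_or L_1_0_0
  have D_hx_1_0_0 := hx_or L_1_0_0
  have D_co_1_0_0 := hco 1 0 0 (by push_cast; linarith)
  simp only [COx, Nat.cast_zero, Nat.cast_one, Nat.cast_ofNat, zero_mul, zero_add, one_mul, add_zero] at D_co_1_0_0
  rcases D_co_1_0_0 with n2 | n2
  · skip
    rcases D_hx_0_0_3 with n5 | n5
    · skip
      rcases D_hx_0_1_0 with n6 | n6
      · linarith only [hs, hse, he, gA0, gB0, hW, hWt, hc0, hnu0, n2, n5, n6]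
      · skip
        rcases D_mv_1_0_0 with n7 | n7
        · skip
          rcases D_co_0_1_0 with n8 | n8
          · linarith only [hs, hse, he, hW, ha1, hc0, hnu0, n2, n5, n6, n7, n8]
          · linarith only [hs, hse, he, hW, ha1, hc0, hnu0, n2, n5, n6, n7, n8]
        · skip
          rcases D_co_0_1_0 with n8 | n8
          · linarith only [hs, hse, he, hW, hab, hc0, hnu0, n2, n5, n6, n7, n8]
          · linarith only [hs, hse, he, hW, ha1, hc0, hnu0, n2, n5, n6, n7, n8]
    · skip
      rcases D_hx_0_1_0 with n6 | n6
      · linarith only [hs, hse, he, h0, hW, ha1, hbr, hnu0, n2, n6]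
      · skip
        rcases D_hx_1_0_0 with n8 | n8
        · skip
          rcases D_hx_0_0_5 with n9 | n9
          · skip
            rcases D_co_0_1_0 with n10 | n10
            · linarith only [hs, hse, he, hW, ha1, hnu0, n10, n2, n5, n6, n8, n9]
            · skip
              rcases D_co_0_1_1 with n11 | n11
              · skip
                rcases D_hx_0_0_4 with n12 | n12
                · skip
                  rcases D_jj_0_1_0_K_5_t_2lm4m2dKg with n13 | n13 | n13 | n13 | n13 | n13
                  · linarith only [hs, hse, he, hW, ha1, hc0, hnu0, n10, n12, n13, n2, n8]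
                  · linarith only [hs, hse, he, hW, ha1, hc0, hnu0, n10, n12, n13, n2, n8]
                  · linarith only [hs, hse, he, hW, ha1, hc0, hnu0, n12, n13, n2, n6]
                  · linarith only [hs, hse, he, hW, ha1, hc0, hnu0, n10, n12, n13, n2, n8]
                  · linarith only [hs, hse, he, hW, ha1, hc0, hnu0, n10, n12, n13, n2, n8]
                  · linarith only [hs, hse, he, hW, ha1, hc0, hnu0, n10, n12, n13, n2, n8]
                · skip
                  rcases D_co_0_0_4 with n13 | n13
                  · skip
                    rcases D_jj_0_1_0_K_5_t_2lm4m2dKg with n14 | n14 | n14 | n14 | n14 | n14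
                    · linarith only [hs, hse, he, hW, ha1, hc0, hnu0, n10, n13, n14, n8]
                    · linarith only [hs, hse, he, hW, ha1, hc0, hnu0, n10, n13, n14, n8]
                    · linarith only [hs, hse, he, hW, ha1, hnu0, n12, n13, n14, n2, n6, n8]
                    · linarith only [hs, hse, he, hW, ha1, hc0, hnu0, n10, n13, n14, n2, n8]
                    · linarith only [hs, hse, he, hW, ha1, hc0, hnu0, n10, n13, n14, n2, n8]
                    · linarith only [hs, hse, he, hW, ha1, hc0, hnu0, n10, n13, n14, n2, n8]
                  · skip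
                    rcases D_jj_0_1_0_K_5_t_2lm4m2dKg with n14 | n14 | n14 | n14 | n14 | n14
                    · linarith only [hs, hse, he, hW, ha1, hnu0, n10, n13, n14, n2, n8, n9]
                    · linarith only [hs, hse, he, hW, ha1, hc0, hnu0, n10, n13, n14, n8]
                    · linarith only [hs, hse, he, hW, ha1, hnu0, n12, n14, n2, n6, n9]
                    · linarith only [hs, hse, he, hW, ha1, hnu0, n10, n13, n14, n2, n8, n9]
                    · linarith only [hs, hse, he, hW, ha1, hnu0, n10, n13, n14, n2, n8, n9]
                    · linarith only [hs, hse, he, hW, ha1, hnu0, n10, n13, n14, n2, n8, n9]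
              · linarith only [hs, hse, he, hW, ha1, hnu0, n11, n8]
          · skip
            rcases D_co_0_1_0 with n10 | n10
            · linarith only [hs, hse, he, hW, ha1, hbr, hnu0, n10, n2, n6, n8, n9]
            · skip
              rcases D_co_0_1_1 with n11 | n11
              · skip
                rcases D_jj_0_1_0_K_2_t_1 with n12 | n12 | n12 | n12
                · skip
                  rcases D_co_0_0_4 with n13 | n13
                  · linarith only [hs, hse, he, hW, ha1, hc0, hnu0, n10, n12, n13, n8]
                  · linarith only [hs, hse, he, hW, ha1, hnu0, n10, n12, n13, n2, n8, n9]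
                · linarith only [hs, hse, he, hW, ha1, hbr, hnu0, n12, n2, n6, n9]
                · skip
                  rcases D_co_0_0_4 with n13 | n13
                  · linarith only [hs, hse, he, hW, ha1, hc0, hnu0, n10, n12, n13, n2, n8]
                  · linarith only [hs, hse, he, hW, ha1, hnu0, n10, n12, n13, n2, n8]
                · skip
                  rcases D_co_0_0_4 with n13 | n13
                  · skip
                    rcases D_jj_0_1_0_K_5_t_2lm4m2dKg with n14 | n14 | n14 | n14 | n14 | n14
                    · linarith only [hs, hse, he, hW, ha1, hc0, hnu0, n10, n13, n14, n8]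
                    · linarith only [hs, hse, he, hW, ha1, hc0, hnu0, n10, n13, n14, n8]
                    · linarith only [hs, hse, he, hW, n10, n12, n13, n14, n2, n8]
                    · linarith only [hs, hse, he, hW, ha1, hc0, hnu0, n10, n13, n14, n2, n8]
                    · linarith only [hs, hse, he, hW, ha1, hc0, hnu0, n10, n13, n14, n2, n8]
                    · linarith only [hs, hse, he, hW, ha1, hc0, hnu0, n10, n13, n14, n2, n8]
                  · skip
                    rcases D_jj_0_1_0_K_4_t_092 with n14 | n14 | n14 | n14
                    · linarith only [hs, hse, he, hW, ha1, hnu0, n10, n13, n14, n2, n8, n9]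
                    · linarith only [hs, hse, he, hW, ha1, hnu0, n10, n12, n14, n2, n8, n9]
                    · linarith only [hs, hse, he, hW, ha1, hnu0, n10, n13, n14, n2, n8]
                    · linarith only [hs, hse, he, hW, ha1, hnu0, n10, n13, n14, n2, n8, n9]
              · linarith only [hs, hse, he, hW, ha1, hnu0, n11, n8]
        · skip
          rcases D_hx_0_0_5 with n9 | n9
          · skip
            rcases D_mv_0_1_1 with n10 | n10
            · skip
              rcases D_gm_0_1_0_q_9_t_1 with n11 | n11 | n11 | n11 | n11 | n11 | n11 | n11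
              · linarith only [hs, hse, he, hW, hWt, hnu0, n11, n2, n5, n6, n8, n9]
              · skip
                rcases D_mv_1_0_0 with n12 | n12
                · skip
                  rcases D_hx_0_0_4 with n13 | n13
                  · skip
                    rcases D_co_0_1_0 with n14 | n14
                    · linarith only [hs, hse, he, hW, hnu0, n11, n12, n13, n14, n2, n5, n8]
                    · linarith only [hs, hse, he, hW, ha1, hc0, hnu0, n12, n13, n14, n8]
                  · skip
                    rcases D_co_0_1_0 with n14 | n14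
                    · linarith only [hs, hse, he, hW, hnu0, n11, n12, n13, n14, n2, n8, n9]
                    · skip
                      rcases D_co_0_0_4 with n15 | n15
                      · linarith only [hs, hse, he, hW, ha1, hc0, hnu0, n10, n12, n14, n15, n8]
                      · linarith only [hs, hse, he, hW, ha1, hnu0, n10, n12, n14, n15, n8]
                · skip
                  rcases D_co_0_1_0 with n13 | n13
                  · linarith only [hs, hse, he, F_mv_0_0_4, hW, hab, hnu0, n11, n12, n13, n2, n9]
                  · skip
                    rcases D_hx_0_0_4 with n14 | n14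
                    · linarith only [hs, hse, he, hW, ha1, hc0, hnu0, n12, n13, n14, n8]
                    · skip
                      rcases D_co_0_0_4 with n15 | n15
                      · skip
                        rcases D_gm_0_1_0_q_6_t_6ld5 with (n16 | n16 | n16 | n16 | n16 | n16 | n16 | n16) | (n16 | n16 | n16 | n16 | n16 | n16 | n16 | n16)
                        · linarith only [hs, hse, he, hW, hWt, hnu0, n11, n14, n15, n16, n2, n8]
                        · linarith only [hs, hse, he, hW, hc0, hnu0, n11, n12, n13, n15, n16, n2]
                        · linarith only [hs, hse, he, hW, hc0, hnu0, n11, n12, n13, n15, n16, n2]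
                        · linarith only [hs, hse, he, hW, hc0, hnu0, n11, n12, n13, n15, n16, n2]
                        · linarith only [hs, hse, he, hW, hc0, hnu0, n11, n12, n13, n15, n16, n2]
                        · linarith only [hs, hse, he, hW, hc0, hnu0, n11, n12, n13, n15, n16, n2]
                        · linarith only [hs, hse, he, hW, hc0, hnu0, n11, n12, n13, n15, n16, n2]
                        · linarith only [hs, hse, he, hW, hc0, hnu0, n11, n12, n13, n15, n16, n2]
                        · linarith only [hs, hse, he, hW, hWt, ha1, hc0, hnu0, n15, n16, n2, n8]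
                        · linarith only [hs, hse, he, hW, hc0, hnu0, n10, n12, n13, n15, n16, n8]
                        · linarith only [hs, hse, he, hW, hc0, hnu0, n10, n12, n13, n15, n16, n8]
                        · linarith only [hs, hse, he, hW, ha1, hc0, hnu0, n12, n13, n15, n16, n2]
                        · linarith only [hs, hse, he, hW, hc0, hnu0, n12, n13, n15, n16, n2, n8]
                        · linarith only [hs, hse, he, hW, hc0, hnu0, n11, n12, n13, n15, n16, n2]
                        · linarith only [hs, hse, he, hW, hc0, hnu0, n12, n13, n15, n16, n2, n8]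
                        · linarith only [hs, hse, he, hW, hc0, hnu0, n12, n13, n15, n16, n2, n8]
                      · linarith only [hs, hse, he, hW, hnu0, n10, n11, n12, n13, n15, n8]
              · skip
                rcases D_mv_1_0_0 with n12 | n12
                · skip
                  rcases D_co_0_1_0 with n13 | n13
                  · linarith only [hs, hse, he, hW, hab, hnu0, n12, n13, n5, n8, n9]
                  · skip
                    rcases D_co_0_0_4 with n14 | n14
                    · linarith only [hs, hse, he, hW, ha1, hc0, hnu0, n11, n12, n13, n14, n2]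
                    · linarith only [hs, hse, he, hW, ha1, hnu0, n10, n12, n13, n14, n8]
                · skip
                  rcases D_co_0_1_0 with n13 | n13
                  · linarith only [hs, hse, he, F_mv_0_0_4, F_mv_0_1_0, hW, hnu0, n11, n12, n13, n2, n9]
                  · skip
                    rcases D_co_0_0_4 with n14 | n14
                    · linarith only [hs, hse, he, hW, hc0, hnu0, n11, n12, n13, n14, n2]
                    · linarith only [hs, hse, he, hW, hnu0, n11, n12, n13, n14, n2, n8, n9]
              · skip
                rcases D_mv_1_0_0 with n12 | n12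
                · skip
                  rcases D_co_0_1_0 with n13 | n13
                  · linarith only [hs, hse, he, hW, hnu0, n11, n12, n13, n2, n5, n8, n9]
                  · skip
                    rcases D_co_0_0_4 with n14 | n14
                    · linarith only [hs, hse, he, hW, ha1, hc0, hnu0, n11, n12, n13, n14, n2]
                    · linarith only [hs, hse, he, hW, ha1, hnu0, n11, n12, n13, n14, n2, n9]
                · skip
                  rcases D_co_0_1_0 with n13 | n13
                  · linarith only [hs, hse, he, F_mv_0_0_4, F_mv_0_1_0, hW, hnu0, n11, n12, n13, n2, n9]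
                  · skip
                    rcases D_co_0_0_4 with n14 | n14
                    · linarith only [hs, hse, he, hW, ha1, hc0, hnu0, n11, n12, n13, n14, n2]
                    · linarith only [hs, hse, he, hW, ha1, hnu0, n11, n12, n13, n14, n2, n9]
              · skip
                rcases D_mv_1_0_0 with n12 | n12
                · skip
                  rcases D_co_0_1_0 with n13 | n13
                  · linarith only [hs, hse, he, hW, hnu0, n11, n12, n13, n2, n5, n8, n9]
                  · skip
                    rcases D_co_0_0_4 with n14 | n14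
                    · linarith only [hs, hse, he, hW, ha1, hc0, hnu0, n10, n12, n13, n14, n8]
                    · linarith only [hs, hse, he, hW, ha1, hnu0, n10, n12, n13, n14, n8]
                · skip
                  rcases D_co_0_1_0 with n13 | n13
                  · linarith only [hs, hse, he, F_mv_0_0_4, F_mv_0_1_0, hW, hnu0, n11, n12, n13, n2, n9]
                  · skip
                    rcases D_co_0_0_4 with n14 | n14
                    · linarith only [hs, hse, he, hW, hc0, hnu0, n11, n12, n13, n14, n2, n8]
                    · linarith only [hs, hse, he, hW, hnu0, n11, n12, n13, n14, n2, n8, n9]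
              · skip
                rcases D_mv_1_0_0 with n12 | n12
                · skip
                  rcases D_co_0_0_4 with n13 | n13
                  · skip
                    rcases D_co_0_1_0 with n14 | n14
                    · linarith only [hs, hse, he, F_mv_0_0_4, hW, hnu0, n11, n12, n13, n14, n8, n9]
                    · linarith only [hs, hse, he, hW, ha1, hc0, hnu0, n11, n12, n13, n14, n8]
                  · skip
                    rcases D_co_0_1_0 with n14 | n14
                    · linarith only [hs, hse, he, hW, hnu0, n11, n12, n13, n14, n2, n8, n9]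
                    · linarith only [hs, hse, he, hW, ha1, hnu0, n10, n12, n13, n14, n8]
                · skip
                  rcases D_co_0_1_0 with n13 | n13
                  · linarith only [hs, hse, he, F_mv_0_0_4, hW, hab, hnu0, n11, n12, n13, n2, n9]
                  · skip
                    rcases D_co_0_0_4 with n14 | n14
                    · linarith only [hs, hse, he, hW, hc0, hnu0, n11, n12, n13, n14, n8]
                    · linarith only [hs, hse, he, hW, hnu0, n10, n11, n12, n13, n14, n8, n9]
              · skip
                rcases D_mv_1_0_0 with n12 | n12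
                · skip
                  rcases D_co_0_1_0 with n13 | n13
                  · linarith only [hs, hse, he, hW, hnu0, n11, n12, n13, n2, n5, n8, n9]
                  · skip
                    rcases D_co_0_0_4 with n14 | n14
                    · linarith only [hs, hse, he, hW, ha1, hc0, hnu0, n11, n12, n13, n14, n2]
                    · linarith only [hs, hse, he, hW, ha1, hnu0, n11, n12, n13, n14, n2, n9]
                · skip
                  rcases D_co_0_1_0 with n13 | n13
                  · linarith only [hs, hse, he, F_mv_0_0_4, F_mv_0_1_0, hW, hnu0, n11, n12, n13, n2, n9]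
                  · skip
                    rcases D_co_0_0_4 with n14 | n14
                    · linarith only [hs, hse, he, F_mv_0_0_4, hW, hc0, hnu0, n11, n12, n13, n14, n2]
                    · linarith only [hs, hse, he, F_mv_0_1_0, hW, hnu0, n11, n12, n13, n14, n2, n9]
              · skip
                rcases D_mv_1_0_0 with n12 | n12
                · skip
                  rcases D_co_0_1_0 with n13 | n13
                  · linarith only [hs, hse, he, hW, hnu0, n11, n12, n13, n2, n5, n8, n9]
                  · skip
                    rcases D_co_0_0_4 with n14 | n14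
                    · linarith only [hs, hse, he, hW, ha1, hc0, hnu0, n10, n12, n13, n14, n8]
                    · linarith only [hs, hse, he, hW, ha1, hnu0, n10, n12, n13, n14, n8]
                · skip
                  rcases D_co_0_1_0 with n13 | n13
                  · linarith only [hs, hse, he, F_mv_0_0_4, F_mv_0_1_0, hW, hnu0, n11, n12, n13, n2, n9]
                  · skip
                    rcases D_hx_0_0_4 with n14 | n14
                    · linarith only [hs, hse, he, hW, ha1, hc0, hnu0, n12, n13, n14, n8]
                    · skip
                      rcases D_co_0_0_4 with n15 | n15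
                      · skip
                        rcases D_gm_0_1_0_q_7_t_1 with n16 | n16 | n16 | n16 | n16 | n16 | n16 | n16
                        · linarith only [hs, hse, he, hW, hab, hnu0, n11, n14, n15, n16, n2, n8]
                        · skip
                          rcases D_gm_0_1_0_q_6_t_6ld5 with (n17 | n17 | n17 | n17 | n17 | n17 | n17 | n17) | (n17 | n17 | n17 | n17 | n17 | n17 | n17 | n17)
                          · linarith only [hs, hse, he, hW, hnu0, n11, n14, n15, n16, n17, n2, n8]
                          · linarith only [hs, hse, he, hW, hc0, hnu0, n12, n13, n15, n16, n17, n2]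
                          · linarith only [hs, hse, he, hW, hc0, hnu0, n12, n13, n15, n16, n17, n2]
                          · linarith only [hs, hse, he, hW, hc0, hnu0, n12, n13, n15, n16, n17, n2]
                          · linarith only [hs, hse, he, hW, hc0, hnu0, n12, n13, n15, n16, n17, n2]
                          · linarith only [hs, hse, he, hW, hc0, hnu0, n12, n13, n15, n16, n17, n2]
                          · linarith only [hs, hse, he, hW, hc0, hnu0, n12, n13, n15, n16, n17, n2]
                          · linarith only [hs, hse, he, hW, hc0, hnu0, n12, n13, n15, n16, n17, n2]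
                          · linarith only [hs, hse, he, hW, hWt, ha1, hc0, hnu0, n15, n17, n2, n8]
                          · linarith only [hs, hse, he, hW, hc0, hnu0, n10, n12, n13, n15, n17, n8]
                          · linarith only [hs, hse, he, hW, hc0, hnu0, n10, n12, n13, n15, n17, n8]
                          · linarith only [hs, hse, he, hW, ha1, hc0, hnu0, n12, n13, n15, n17, n2]
                          · linarith only [hs, hse, he, hW, hc0, hnu0, n12, n13, n15, n17, n2, n8]
                          · linarith only [hs, hse, he, hW, hc0, hnu0, n12, n13, n15, n16, n17, n2]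
                          · linarith only [hs, hse, he, hW, hc0, hnu0, n12, n13, n15, n17, n2, n8]
                          · linarith only [hs, hse, he, hW, hc0, hnu0, n12, n13, n15, n17, n2, n8]
                        · linarith only [hs, hse, he, hW, hc0, hnu0, n12, n13, n15, n16, n2]
                        · linarith only [hs, hse, he, hW, ha1, hc0, hnu0, n12, n13, n15, n16, n2]
                        · linarith only [hs, hse, he, hW, hc0, hnu0, n12, n13, n15, n16, n2, n8]
                        · linarith only [hs, hse, he, hW, hc0, hnu0, n12, n13, n15, n16, n8]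
                        · linarith only [hs, hse, he, F_mv_0_0_4, hW, hc0, hnu0, n12, n13, n15, n16, n2]
                        · linarith only [hs, hse, he, hW, hc0, hnu0, n12, n13, n15, n16, n2, n8]
                      · skip
                        rcases D_gm_0_1_0_q_6_t_1 with n16 | n16 | n16 | n16 | n16 | n16 | n16 | n16
                        · linarith only [hs, hse, he, hW, hWt, hnu0, n11, n14, n16, n2, n8, n9]
                        · linarith only [hs, hse, he, hW, hnu0, n10, n12, n13, n15, n16, n8]
                        · linarith only [hs, hse, he, hW, hnu0, n12, n13, n15, n16, n2, n8, n9]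
                        · linarith only [hs, hse, he, hW, ha1, hnu0, n12, n13, n15, n16, n2, n9]
                        · linarith only [hs, hse, he, hW, hnu0, n12, n13, n15, n16, n2, n8, n9]
                        · linarith only [hs, hse, he, hW, hnu0, n10, n12, n13, n15, n16, n8, n9]
                        · linarith only [hs, hse, he, hW, hnu0, n11, n12, n13, n15, n16, n2, n9]
                        · linarith only [hs, hse, he, hW, hnu0, n12, n13, n15, n16, n2, n8, n9]
            · skip
              rcases D_co_0_0_4 with n11 | n11
              · skip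
                rcases D_mv_1_0_0 with n12 | n12
                · skip
                  rcases D_co_0_1_0 with n13 | n13
                  · linarith only [hs, hse, he, hW, hnu0, n10, n11, n12, n13, n8]
                  · linarith only [hs, hse, he, hW, ha1, hc0, hnu0, n10, n11, n12, n13, n8]
                · skip
                  rcases D_co_0_1_0 with n13 | n13
                  · linarith only [hs, hse, he, hW, hnu0, n10, n11, n12, n13, n2, n8]
                  · linarith only [hs, hse, he, hW, ha1, hc0, hnu0, n10, n11, n12, n13, n8]
              · skip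
                rcases D_mv_1_0_0 with n12 | n12
                · skip
                  rcases D_co_0_1_0 with n13 | n13
                  · linarith only [hs, hse, he, hW, hnu0, n10, n12, n13, n2, n8, n9]
                  · linarith only [hs, hse, he, hW, ha1, hnu0, n10, n11, n12, n13, n8]
                · skip
                  rcases D_co_0_1_0 with n13 | n13
                  · linarith only [hs, hse, he, hW, hnu0, n10, n12, n13, n2, n8, n9]
                  · linarith only [hs, hse, he, hW, ha1, hnu0, n10, n11, n12, n13, n8]
          · skip
            rcases D_mv_0_1_1 with n10 | n10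
            · skip
              rcases D_mv_1_0_0 with n11 | n11
              · skip
                rcases D_co_0_1_0 with n12 | n12
                · linarith only [hs, hse, he, hW, ha1, hbr, hnu0, n11, n12, n8, n9]
                · skip
                  rcases D_co_0_0_4 with n13 | n13
                  · linarith only [hs, hse, he, hW, ha1, hc0, hnu0, n10, n11, n12, n13, n8]
                  · linarith only [hs, hse, he, hW, ha1, hnu0, n10, n11, n12, n13, n8]
              · skip
                rcases D_gm_0_1_0_q_8_t_1 with n12 | n12 | n12 | n12 | n12 | n12 | n12 | n12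
                · linarith only [hs, hse, he, hW, hWt, ha1, hbr, hnu0, n12, n2, n8, n9]
                · skip
                  rcases D_co_0_1_0 with n13 | n13
                  · linarith only [hs, hse, he, F_mv_0_0_4, hW, hbr, hnu0, n11, n12, n13, n2, n9]
                  · skip
                    rcases D_co_0_0_4 with n14 | n14
                    · skip
                      rcases D_gm_0_1_0_q_6_t_6ld5 with (n15 | n15 | n15 | n15 | n15 | n15 | n15 | n15) | (n15 | n15 | n15 | n15 | n15 | n15 | n15 | n15)
                      · linarith only [hs, hse, he, hW, hWt, hnu0, n12, n14, n15, n2, n8, n9]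
                      · linarith only [hs, hse, he, hW, hc0, hnu0, n11, n12, n13, n14, n15, n2]
                      · linarith only [hs, hse, he, hW, hc0, hnu0, n11, n12, n13, n14, n15, n2]
                      · linarith only [hs, hse, he, hW, hc0, hnu0, n11, n12, n13, n14, n15, n2]
                      · linarith only [hs, hse, he, hW, hc0, hnu0, n11, n12, n13, n14, n15, n2]
                      · linarith only [hs, hse, he, hW, hc0, hnu0, n11, n12, n13, n14, n15, n2]
                      · linarith only [hs, hse, he, hW, hc0, hnu0, n11, n12, n13, n14, n15, n2]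
                      · linarith only [hs, hse, he, hW, hc0, hnu0, n11, n12, n13, n14, n15, n2]
                      · linarith only [hs, hse, he, hW, hWt, ha1, hc0, hnu0, n14, n15, n2, n8]
                      · linarith only [hs, hse, he, hW, hc0, hnu0, n10, n11, n13, n14, n15, n8]
                      · linarith only [hs, hse, he, hW, hc0, hnu0, n10, n11, n13, n14, n15, n8]
                      · linarith only [hs, hse, he, hW, ha1, hc0, hnu0, n11, n13, n14, n15, n2]
                      · linarith only [hs, hse, he, hW, hc0, hnu0, n11, n13, n14, n15, n2, n8]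
                      · linarith only [hs, hse, he, hW, hc0, hnu0, n11, n12, n13, n14, n15, n2]
                      · linarith only [hs, hse, he, hW, hc0, hnu0, n11, n13, n14, n15, n2, n8]
                      · linarith only [hs, hse, he, hW, hc0, hnu0, n11, n13, n14, n15, n2, n8]
                    · linarith only [hs, hse, he, hW, hnu0, n10, n11, n12, n13, n14, n8]
                · skip
                  rcases D_co_0_1_0 with n13 | n13
                  · linarith only [hs, hse, he, F_mv_0_1_0, hW, hbr, hnu0, n11, n12, n13, n2, n9]
                  · skip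
                    rcases D_co_0_0_4 with n14 | n14
                    · linarith only [hs, hse, he, hW, hc0, hnu0, n11, n12, n13, n14, n2]
                    · linarith only [hs, hse, he, hW, hnu0, n11, n12, n13, n14, n2, n8, n9]
                · skip
                  rcases D_co_0_1_0 with n13 | n13
                  · linarith only [hs, hse, he, F_mv_0_0_4, hW, hbr, hnu0, n11, n12, n13, n2, n9]
                  · skip
                    rcases D_co_0_0_4 with n14 | n14
                    · linarith only [hs, hse, he, hW, ha1, hc0, hnu0, n11, n12, n13, n14, n2]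
                    · linarith only [hs, hse, he, hW, ha1, hnu0, n11, n12, n13, n14, n2, n9]
                · skip
                  rcases D_co_0_1_0 with n13 | n13
                  · linarith only [hs, hse, he, F_mv_0_1_0, hW, hbr, hnu0, n11, n12, n13, n2, n9]
                  · skip
                    rcases D_co_0_0_4 with n14 | n14
                    · linarith only [hs, hse, he, hW, hc0, hnu0, n11, n12, n13, n14, n2, n8]
                    · linarith only [hs, hse, he, hW, hnu0, n11, n12, n13, n14, n2, n8, n9]
                · skip
                  rcases D_co_0_1_0 with n13 | n13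
                  · linarith only [hs, hse, he, hW, hab, hbr, hnu0, n11, n12, n13, n2, n9]
                  · skip
                    rcases D_co_0_0_4 with n14 | n14
                    · linarith only [hs, hse, he, hW, hc0, hnu0, n11, n12, n13, n14, n8]
                    · linarith only [hs, hse, he, hW, hnu0, n10, n11, n12, n13, n14, n8, n9]
                · skip
                  rcases D_co_0_1_0 with n13 | n13
                  · linarith only [hs, hse, he, F_mv_0_1_0, hW, hbr, hnu0, n11, n12, n13, n2, n9]
                  · skip
                    rcases D_co_0_0_4 with n14 | n14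
                    · linarith only [hs, hse, he, F_mv_0_0_4, hW, hc0, hnu0, n11, n12, n13, n14, n2]
                    · linarith only [hs, hse, he, F_mv_0_1_0, hW, hnu0, n11, n12, n13, n14, n2, n9]
                · skip
                  rcases D_co_0_1_0 with n13 | n13
                  · linarith only [hs, hse, he, F_mv_0_1_0, hW, hbr, hnu0, n11, n12, n13, n2, n9]
                  · skip
                    rcases D_co_0_0_4 with n14 | n14
                    · skip
                      rcases D_gm_0_1_0_q_6_t_6ld5 with (n15 | n15 | n15 | n15 | n15 | n15 | n15 | n15) | (n15 | n15 | n15 | n15 | n15 | n15 | n15 | n15)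
                      · linarith only [hs, hse, he, hW, hab, hnu0, n12, n14, n15, n2, n8, n9]
                      · linarith only [hs, hse, he, F_mv_0_0_4, hW, hnu0, n11, n13, n14, n15, n2]
                      · linarith only [hs, hse, he, F_mv_0_0_4, hW, hnu0, n11, n13, n14, n15, n2]
                      · linarith only [hs, hse, he, F_mv_0_0_4, hW, hc0, hnu0, n11, n13, n14, n15, n2]
                      · linarith only [hs, hse, he, hW, hc0, hnu0, n11, n12, n13, n14, n15, n2]
                      · linarith only [hs, hse, he, hW, hc0, hnu0, n11, n13, n14, n15, n2, n9]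
                      · linarith only [hs, hse, he, hW, hc0, hnu0, n11, n12, n13, n14, n15, n2]
                      · linarith only [hs, hse, he, hW, hc0, hnu0, n11, n12, n13, n14, n15, n2]
                      · linarith only [hs, hse, he, hW, hWt, ha1, hc0, hnu0, n14, n15, n2, n8]
                      · linarith only [hs, hse, he, hW, hc0, hnu0, n10, n11, n13, n14, n15, n8]
                      · linarith only [hs, hse, he, hW, hc0, hnu0, n10, n11, n13, n14, n15, n8]
                      · linarith only [hs, hse, he, hW, ha1, hc0, hnu0, n11, n13, n14, n15, n2]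
                      · linarith only [hs, hse, he, hW, hc0, hnu0, n11, n13, n14, n15, n2, n8]
                      · linarith only [hs, hse, he, F_mv_0_0_4, hW, hc0, hnu0, n11, n13, n14, n15, n2]
                      · linarith only [hs, hse, he, hW, hc0, hnu0, n11, n13, n14, n15, n2, n8]
                      · linarith only [hs, hse, he, hW, hc0, hnu0, n11, n13, n14, n15, n2, n8]
                    · linarith only [hs, hse, he, hW, hnu0, n11, n12, n13, n14, n2, n8, n9]
            · skip
              rcases D_co_0_0_4 with n11 | n11
              · skip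
                rcases D_co_0_1_0 with n12 | n12
                · skip
                  rcases D_mv_1_0_0 with n13 | n13
                  · linarith only [hs, hse, he, hW, hnu0, n10, n11, n12, n13, n8]
                  · linarith only [hs, hse, he, hW, hnu0, n10, n11, n12, n13, n2, n8]
                · skip
                  rcases D_mv_1_0_0 with n13 | n13
                  · linarith only [hs, hse, he, hW, ha1, hc0, hnu0, n10, n11, n12, n13, n8]
                  · linarith only [hs, hse, he, hW, ha1, hc0, hnu0, n10, n11, n12, n13, n8]
              · skip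
                rcases D_co_0_0_5 with n12 | n12
                · skip
                  rcases D_co_0_1_0 with n13 | n13
                  · skip
                    rcases D_mv_1_0_0 with n14 | n14
                    · linarith only [hs, hse, he, hW, hnu0, n10, n12, n13, n14, n8]
                    · linarith only [hs, hse, he, hW, hnu0, n10, n12, n13, n14, n2, n8]
                  · skip
                    rcases D_mv_1_0_0 with n14 | n14
                    · linarith only [hs, hse, he, hW, ha1, hnu0, n10, n11, n13, n14, n8]
                    · linarith only [hs, hse, he, hW, ha1, hnu0, n10, n11, n13, n14, n8]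
                · skip
                  rcases D_mv_1_0_0 with n13 | n13
                  · skip
                    rcases D_hx_0_0_6 with n14 | n14
                    · skip
                      rcases D_co_0_1_0 with n15 | n15
                      · linarith only [hs, hse, he, hW, hbr, hnu0, n13, n14, n15, n8, n9]
                      · linarith only [hs, hse, he, hW, ha1, hnu0, n10, n12, n13, n15, n8]
                    · skip
                      rcases D_co_0_1_0 with n15 | n15
                      · linarith only [hs, hse, he, hW, ha1, hbr, hnu0, n13, n14, n15, n8]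
                      · linarith only [hs, hse, he, hW, ha1, hnu0, n10, n12, n13, n15, n8]
                  · skip
                    rcases D_hx_0_0_6 with n14 | n14
                    · skip
                      rcases D_co_0_1_0 with n15 | n15
                      · linarith only [hs, hse, he, hW, hnu0, n10, n13, n14, n15, n2, n8]
                      · linarith only [hs, hse, he, hW, ha1, hnu0, n10, n12, n13, n15, n8]
                    · skip
                      rcases D_co_0_1_0 with n15 | n15
                      · linarith only [hs, hse, he, hW, hbr, hnu0, n10, n13, n14, n15, n2, n8]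
                      · linarith only [hs, hse, he, hW, ha1, hnu0, n10, n12, n13, n15, n8]
  · skip
    rcases D_hx_0_0_3 with n5 | n5
    · skip
      rcases D_hx_0_1_0 with n6 | n6
      · linarith only [hs, hse, he, gA0, hW, hWt, hab, hc0, hnu0, n2, n5, n6]
      · linarith only [hs, hse, he, F_mv_0_1_0, hW, hab, hc0, hnu0, n2, n5, n6]
    · skip
      rcases D_hx_0_1_0 with n6 | n6
      · linarith only [hs, hse, he, gB0, hW, hab, hbr, hnu0, n2, n5, n6]
      · skip
        rcases D_hx_0_0_4 with n8 | n8
        · linarith only [hs, hse, he, F_mv_0_1_0, hW, hab, hc0, hnu0, n2, n6, n8]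
        · skip
          rcases D_gm_0_1_0_q_9_t_1 with n9 | n9 | n9 | n9 | n9 | n9 | n9 | n9
          · linarith only [hs, hse, he, hW, hab, hbr, hnu0, n2, n6, n8, n9]
          · linarith only [hs, hse, he, F_mv_0_0_4, F_mv_0_1_0, hW, hnu0, n2, n9]
          · linarith only [hs, hse, he, F_mv_0_0_4, F_mv_0_1_0, hW, hbr, hnu0, n2, n9]
          · linarith only [hs, hse, he, F_mv_0_0_4, F_mv_0_1_0, hW, hbr, hnu0, n2, n9]
          · linarith only [hs, hse, he, F_mv_0_0_4, F_mv_0_1_0, hW, hbr, hnu0, n2, n9]
          · linarith only [hs, hse, he, F_mv_0_0_4, F_mv_0_1_0, hW, hbr, hnu0, n2, n9]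
          · skip
            rcases D_mv_0_0_5 with n10 | n10
            · linarith only [hs, hse, he, F_mv_0_0_4, F_mv_0_1_0, hW, hab, hnu0, n10, n2, n9]
            · linarith only [hs, hse, he, F_mv_0_1_0, hW, hbr, hnu0, n10, n2, n9]
          · linarith only [hs, hse, he, F_mv_0_0_4, F_mv_0_1_0, hW, hbr, hnu0, n2, n9]

end Pool.Agent.Work.MP_a8fbd7_nt.EX.CELL
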